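import Pool.Agent.Lib.MP_3e612f_nt.CKatai

/-! Kátai's criterion, finite and uniform form (blueprint, section KatFin). -/

set_option autoImplicit false

namespace Pool.Agent.Lib.MP_3e612f_nt.PB

open Finset

section
open Filter Topology
open Pool.Agent.Lib.MP_3e612f_nt.DS (Gf G_sq G_exists_primes)
open Pool.Agent.Lib.MP_3e612f_nt.CA

/-- the bilinear part, for one `N` -/
theorem KatFin_second {b : ℕ → ℝ} {A : ℝ} (hA : 1 ≤ A) (hb : ∀ n, |b n| ≤ A)
    {a : ℕ → ℝ} (ha : ∀ n, |a n| ≤ 1) {P : Finset ℕ} (hP : ∀ p ∈ P, p.Prime) (N : ℕ)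
    (hN : ∑ p ∈ P, ∑ r ∈ P, (if p ≠ r then
          |∑ m ∈ Finset.Icc 1 (N / max p r), b (p * m) * b (r * m)| else 0) ≤ N) :
    |∑ p ∈ P, ∑ m ∈ Finset.Icc 1 (N / p), a m * b (p * m)| ≤ (4 * A + 1) * N := by
  set E : ℕ → ℝ := fun N => ∑ p ∈ P, ∑ r ∈ P, (if p ≠ r then
          |∑ m ∈ Finset.Icc 1 (N / max p r), b (p * m) * b (r * m)| else 0) with hE
  have hN : E N ≤ N := hN
  obtain ⟨J, hJ⟩ : ∃ J, ∀ p ∈ P, Nat.log 2 p < J :=
    ⟨P.sup (Nat.log 2) + 1, fun p hp => Nat.lt_succ_of_le (Finset.le_sup (f := Nat.log 2) hp)⟩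
  have hmaps : ∀ p ∈ P, Nat.log 2 p ∈ Finset.range J := fun p hp => Finset.mem_range.2 (hJ p hp)
  rw [← Finset.sum_fiberwise_of_maps_to hmaps]
  refine (Finset.abs_sum_le_sum_abs _ _).trans ?_
  have hcl : ∀ j ∈ Finset.range J, |∑ p ∈ P with Nat.log 2 p = j,
      ∑ m ∈ Finset.Icc 1 (N / p), a m * b (p * m)| ≤
      (A * N / 2) * (3 / 4) ^ j + (A * N / 2) * (2 / 3) ^ j +
        ∑ p ∈ P with Nat.log 2 p = j, ∑ r ∈ P, (if p ≠ r then
          |∑ m ∈ Finset.Icc 1 (N / max p r), b (p * m) * b (r * m)| else 0) := by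
    intro j _
    have hs : 0 < A * (3 / 2) ^ j := by positivity
    have h1 := t17_class hA hb ha (P := P.filter fun p => Nat.log 2 p = j) (j := j) (by
      intro p hp
      rw [Finset.mem_filter] at hp
      have hp0 := (hP p hp.1).ne_zero
      constructor
      · rw [← hp.2]
        exact Nat.pow_log_le_self 2 hp0
      · rw [← hp.2]
        exact Nat.lt_pow_succ_log_self (by norm_num) p) hs N
    refine h1.trans ?_
    set X : ℝ := ∑ p ∈ P with Nat.log 2 p = j, ∑ r ∈ P with Nat.log 2 r = j, (if p ≠ r then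
          |∑ m ∈ Finset.Icc 1 (N / max p r), b (p * m) * b (r * m)| else 0) with hX
    have hXle : X ≤ ∑ p ∈ P with Nat.log 2 p = j, ∑ r ∈ P, (if p ≠ r then
          |∑ m ∈ Finset.Icc 1 (N / max p r), b (p * m) * b (r * m)| else 0) := by
      refine Finset.sum_le_sum fun p _ => ?_
      refine Finset.sum_le_sum_of_subset_of_nonneg (Finset.filter_subset _ _) fun r _ _ => ?_
      split_ifs
      · exact abs_nonneg _
      · exact le_rfl
    have hX0 : 0 ≤ X := by
      refine Finset.sum_nonneg fun p _ => Finset.sum_nonneg fun r _ => ?_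
      split_ifs
      · exact abs_nonneg _
      · exact le_rfl
    have h32 : (1 : ℝ) ≤ (3 / 2) ^ j := one_le_pow₀ (by norm_num)
    have hs2 : 1 ≤ 2 * (A * (3 / 2) ^ j) := by nlinarith
    have e1 : A * (3 / 2) ^ j / 2 * (N / 2 ^ j) = (A * N / 2) * (3 / 4) ^ j := by
      have : (3 / 4 : ℝ) ^ j = (3 / 2) ^ j / 2 ^ j := by
        rw [← div_pow]
        norm_num
      rw [this]
      ring
    have e2 : 1 / (2 * (A * (3 / 2) ^ j)) * (2 ^ j * (A ^ 2 * (N / 2 ^ j)))
        = (A * N / 2) * (2 / 3) ^ j := by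
      have : (2 / 3 : ℝ) ^ j = 1 / (3 / 2) ^ j := by
        rw [one_div, ← inv_pow]
        norm_num
      rw [this]
      field_simp
    have e3 : 1 / (2 * (A * (3 / 2) ^ j)) * X ≤ X := by
      have : 1 / (2 * (A * (3 / 2) ^ j)) ≤ 1 := by
        rw [div_le_one (by positivity)]
        exact hs2
      exact mul_le_of_le_one_left hX0 this
    rw [e1, mul_add, e2]
    linarith
  refine (Finset.sum_le_sum hcl).trans ?_
  rw [Finset.sum_add_distrib, Finset.sum_add_distrib, ← Finset.mul_sum, ← Finset.mul_sum,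
    Finset.sum_fiberwise_of_maps_to hmaps]
  have g1 := t17_geom (3 / 4) J 4 (by norm_num) (by norm_num) (by norm_num)
  have g2 := t17_geom (2 / 3) J 3 (by norm_num) (by norm_num) (by norm_num)
  have hAN : 0 ≤ A * N / 2 := by positivity
  have g3 := mul_le_mul_of_nonneg_left g1 hAN
  have g4 := mul_le_mul_of_nonneg_left g2 hAN
  have g5 : 0 ≤ A * N := by positivity
  have g6 : E N = ∑ p ∈ P, ∑ r ∈ P, (if p ≠ r then
          |∑ m ∈ Finset.Icc 1 (N / max p r), b (p * m) * b (r * m)| else 0) := rfl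
  rw [← g6]
  linarith

/-- the main inequality for a finite set of primes, uniformly in `b` -/
theorem KatFin_main {A : ℝ} (hA : 1 ≤ A) {P : Finset ℕ} (hP : ∀ p ∈ P, p.Prime)
    (hW : 1 ≤ ∑ p ∈ P, 1 / (p : ℝ)) :
    ∀ᶠ N : ℕ in atTop, ∀ b : ℕ → ℝ, (∀ n, |b n| ≤ A) →
      (∑ p ∈ P, ∑ r ∈ P, (if p ≠ r then
          |∑ m ∈ Finset.Icc 1 (N / max p r), b (p * m) * b (r * m)| else 0) ≤ N) →
      (∑ p ∈ P, 1 / (p : ℝ)) * |CesAvg (fun n => mu n * b n) N| ≤
      (A * (8 + ∑' n : ℕ, 1 / (n : ℝ) ^ 2)) * Real.sqrt (∑ p ∈ P, 1 / (p : ℝ)) := by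
  set W : ℝ := ∑ p ∈ P, 1 / (p : ℝ) with hWdef
  set Z : ℝ := ∑' n : ℕ, 1 / (n : ℝ) ^ 2 with hZdef
  have hZ0 : 0 ≤ Z := tsum_nonneg fun n => by positivity
  set s : ℝ := Real.sqrt W with hs
  have hs2 : s * s = W := Real.mul_self_sqrt (by linarith)
  have hs1 : 1 ≤ s := by
    rw [hs]
    exact Real.one_le_sqrt.mpr hW
  have hs0 : 0 < s := by linarith
  have hA0 : 0 < A := by linarith
  have E1 : ∀ᶠ N in atTop, CesAvg (fun _ => (1 : ℝ)) N ≤ 2 :=
    t17_one.eventually_le_const (by norm_num)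
  have E2 : ∀ᶠ N in atTop, CesAvg (fun n => (∑ p ∈ P, Gf p n) ^ 2) N ≤ W + 1 := by
    refine (t17_TK fun p hp => hP p hp).eventually_le_const ?_
    have : ∑ p ∈ P, (1 / (p:ℝ) - 1 / (p:ℝ) ^ 2) ≤ W := by
      refine Finset.sum_le_sum fun p _ => ?_
      have : (0 : ℝ) ≤ 1 / (p:ℝ) ^ 2 := by positivity
      linarith
    linarith
  filter_upwards [E1, E2, eventually_ge_atTop 1] with N e1 e2 hN
  intro b hb hE
  have e3 := KatFin_second hA hb abs_mu_le hP N hE
  set u : ℕ → ℝ := fun n => mu n * b n with hu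
  have hub : ∀ n, |u n| ≤ A := by
    intro n
    rw [hu]
    dsimp only
    rw [abs_mul]
    calc |mu n| * |b n| ≤ 1 * A := mul_le_mul (abs_mu_le n) (hb n) (abs_nonneg _) zero_le_one
      _ = A := one_mul A
  have hN0 : (0 : ℝ) < N := by exact_mod_cast hN
  -- decomposition
  have d1 : W * CesAvg u N = ∑ p ∈ P, CesAvg (fun n => if p ∣ n then u n else 0) N -
      CesAvg (fun n => (∑ p ∈ P, Gf p n) * u n) N := by
    rw [← CesAvg_const_mul, ← CesAvg_finset_sum, ← CesAvg_sub]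
    refine CesAvg_congr fun n _ _ => ?_
    rw [hWdef, Finset.sum_mul, Finset.sum_mul, ← Finset.sum_sub_distrib]
    refine Finset.sum_congr rfl fun p _ => ?_
    unfold Gf
    split_ifs <;> ring
  have d3 : |CesAvg (fun n => (∑ p ∈ P, Gf p n) * u n) N| ≤ A * (2 * s) := by
    refine (CesAvg_abs _ N).trans ?_
    have h1 : CesAvg (fun n => |(∑ p ∈ P, Gf p n) * u n|) N ≤
        CesAvg (fun n => A * (s / 2 * 1 + 1 / (2 * s) * (∑ p ∈ P, Gf p n) ^ 2)) N := by
      refine CesAvg_mono fun n _ => ?_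
      rw [abs_mul]
      have h2 : |∑ p ∈ P, Gf p n| * |u n| ≤ |∑ p ∈ P, Gf p n| * A :=
        mul_le_mul_of_nonneg_left (hub n) (abs_nonneg _)
      refine h2.trans ?_
      rw [mul_comm]
      refine mul_le_mul_of_nonneg_left ?_ hA0.le
      rw [mul_one, one_div, inv_mul_eq_div, ← sq_abs (∑ p ∈ P, Gf p n)]
      have h3 : |∑ p ∈ P, Gf p n| * (2 * s) ≤
          (s / 2 + |∑ p ∈ P, Gf p n| ^ 2 / (2 * s)) * (2 * s) := by
        rw [add_mul, div_mul_cancel₀ _ (by positivity)]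
        nlinarith [sq_nonneg (|∑ p ∈ P, Gf p n| - s)]
      exact le_of_mul_le_mul_right h3 (by positivity)
    refine h1.trans ?_
    rw [CesAvg_const_mul A (fun n => s / 2 * 1 + 1 / (2 * s) * (∑ p ∈ P, Gf p n) ^ 2),
      CesAvg_add (fun _ => s / 2 * 1) (fun n => 1 / (2 * s) * (∑ p ∈ P, Gf p n) ^ 2),
      CesAvg_const_mul (s / 2) (fun _ => 1), CesAvg_const_mul (1 / (2 * s))]
    refine mul_le_mul_of_nonneg_left ?_ hA0.le
    have h4 : 1 / (2 * s) * CesAvg (fun n => (∑ p ∈ P, Gf p n) ^ 2) N ≤ 1 / (2 * s) * (W + 1) :=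
      mul_le_mul_of_nonneg_left e2 (by positivity)
    have h5 : 1 / (2 * s) * (W + 1) ≤ s := by
      rw [one_div, inv_mul_eq_div, div_le_iff₀ (by positivity)]
      nlinarith
    nlinarith
  have d4 : |∑ p ∈ P, CesAvg (fun n => if p ∣ n then u n else 0) N| ≤ (4 * A + 1) + A * Z := by
    have h1 : ∑ p ∈ P, CesAvg (fun n => if p ∣ n then u n else 0) N =
        (- (∑ p ∈ P, ∑ m ∈ Finset.Icc 1 (N / p), mu m * b (p * m)) +
          ∑ p ∈ P, ∑ m ∈ Finset.Icc 1 (N / p), if p ∣ m then mu m * b (p * m) else 0) / N := by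
      rw [← Finset.sum_neg_distrib, ← Finset.sum_add_distrib, Finset.sum_div]
      refine Finset.sum_congr rfl fun p hp => ?_
      have hpp := hP p hp
      unfold CesAvg
      rw [t17_mult hpp.one_le, ← Finset.sum_neg_distrib, ← Finset.sum_add_distrib]
      congr 1
      refine Finset.sum_congr rfl fun n _ => ?_
      rw [hu]
      dsimp only
      rw [mu_mul]
      have hmu : mu p = -1 := by
        unfold mu
        rw [ArithmeticFunction.moebius_apply_prime hpp]
        norm_num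
      by_cases hd : p ∣ n
      · have : ¬ Nat.Coprime p n := by
          rw [hpp.coprime_iff_not_dvd]
          exact not_not.mpr hd
        rw [if_neg this, if_pos hd]
        ring
      · have : Nat.Coprime p n := hpp.coprime_iff_not_dvd.mpr hd
        rw [if_pos this, if_neg hd, hmu]
        ring
    have h2 : |∑ p ∈ P, ∑ m ∈ Finset.Icc 1 (N / p), if p ∣ m then mu m * b (p * m) else 0| ≤
        A * Z * N := by
      refine (Finset.abs_sum_le_sum_abs _ _).trans ?_
      have h3 : ∀ p ∈ P, |∑ m ∈ Finset.Icc 1 (N / p), if p ∣ m then mu m * b (p * m) else 0| ≤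
          A * N * (1 / (p : ℝ) ^ 2) := by
        intro p hp
        have hpp := hP p hp
        have hp0 : (0 : ℝ) < p := by exact_mod_cast hpp.pos
        rw [t17_mult hpp.one_le (fun m => mu m * b (p * m))]
        refine (Finset.abs_sum_le_sum_abs _ _).trans ?_
        calc ∑ m ∈ Finset.Icc 1 (N / p / p), |mu (p * m) * b (p * (p * m))|
            ≤ ∑ m ∈ Finset.Icc 1 (N / p / p), A := by
              refine Finset.sum_le_sum fun m _ => ?_
              rw [abs_mul]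
              calc |mu (p * m)| * |b (p * (p * m))| ≤ 1 * A :=
                    mul_le_mul (abs_mu_le _) (hb _) (abs_nonneg _) zero_le_one
                _ = A := one_mul A
          _ = ((N / p / p : ℕ) : ℝ) * A := by
              rw [Finset.sum_const, Nat.card_Icc, nsmul_eq_mul, Nat.add_sub_cancel]
          _ ≤ (N / (p : ℝ) ^ 2) * A := by
              refine mul_le_mul_of_nonneg_right ?_ hA0.le
              rw [Nat.div_div_eq_div_mul, le_div_iff₀ (by positivity), sq]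
              exact_mod_cast Nat.div_mul_le_self N (p * p)
          _ = A * N * (1 / (p : ℝ) ^ 2) := by ring
      refine (Finset.sum_le_sum h3).trans ?_
      rw [← Finset.mul_sum]
      have h4 := G_sq P
      have h5 := mul_le_mul_of_nonneg_left h4 (by positivity : 0 ≤ A * (N : ℝ))
      rw [← hZdef] at h5
      linarith
    rw [h1, abs_div, Nat.abs_cast, div_le_iff₀ hN0]
    refine (abs_add_le _ _).trans ?_
    rw [abs_neg]
    linarith
  -- combine
  have h1 : W * |CesAvg u N| = |W * CesAvg u N| := by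
    rw [abs_mul, abs_of_nonneg (by linarith : 0 ≤ W)]
  rw [h1, d1]
  refine (abs_sub _ _).trans ?_
  have h5 : (4 * A + 1) + A * Z + A * (2 * s) ≤ A * (8 + Z) * s := by
    nlinarith [mul_nonneg (mul_nonneg hA0.le hZ0) (by linarith : 0 ≤ s - 1),
      mul_nonneg hA0.le (by linarith : 0 ≤ s - 1)]
  linarith

end

/-- primes above `P0` with large sum of reciprocals -/
theorem exists_primes_above (P0 : ℕ) (T : ℝ) :
    ∃ P : Finset ℕ, (∀ p ∈ P, p.Prime ∧ P0 < p) ∧ T ≤ ∑ p ∈ P, 1 / (p : ℝ) := by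
  obtain ⟨P, hP, hT⟩ := Pool.Agent.Lib.MP_3e612f_nt.DS.G_exists_primes
    (T + ∑ p ∈ Finset.range (P0 + 1), 1 / (p : ℝ))
  refine ⟨P.filter (fun p => P0 < p), fun p hp => ?_, ?_⟩
  · rw [Finset.mem_filter] at hp
    exact ⟨(hP p hp.1).1, hp.2⟩
  · have h1 := Finset.sum_filter_add_sum_filter_not P (fun p => P0 < p) (fun p => 1 / (p : ℝ))
    have h2 : ∑ p ∈ P.filter (fun p => ¬ P0 < p), 1 / (p : ℝ) ≤
        ∑ p ∈ Finset.range (P0 + 1), 1 / (p : ℝ) := by
      refine Finset.sum_le_sum_of_subset_of_nonneg ?_ fun _ _ _ => by positivity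
      intro p hp
      rw [Finset.mem_filter] at hp
      rw [Finset.mem_range]
      omega
    linarith

theorem katai_fin {A : ℝ} (hA : 1 ≤ A) (P0 : ℕ) {ε : ℝ} (hε : 0 < ε) :
    ∃ (P : Finset ℕ) (δ : ℝ) (N0 : ℕ), (∀ p ∈ P, p.Prime ∧ P0 < p) ∧ 0 < δ ∧
      ∀ N ≥ N0, ∀ b : ℕ → ℝ, (∀ n, |b n| ≤ A) →
        (∀ p ∈ P, ∀ r ∈ P, p < r → |∑ m ∈ Icc 1 (N / r), b (p * m) * b (r * m)| ≤ δ * N) →
        |∑ n ∈ Icc 1 N, mu n * b n| ≤ ε * N := by
  set C : ℝ := A * (8 + ∑' n : ℕ, 1 / (n : ℝ) ^ 2) with hC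
  have hZ0 : 0 ≤ ∑' n : ℕ, 1 / (n : ℝ) ^ 2 := tsum_nonneg fun n => by positivity
  have hC0 : 0 < C := by positivity
  obtain ⟨P, hP, hT⟩ := exists_primes_above P0 (max 1 ((C / ε + 1) ^ 2))
  have hW : 1 ≤ ∑ p ∈ P, 1 / (p : ℝ) := (le_max_left _ _).trans hT
  obtain ⟨N0, hN0⟩ := Filter.eventually_atTop.1
    (KatFin_main hA (fun p hp => (hP p hp).1) hW)
  refine ⟨P, 1 / ((P.card : ℝ) ^ 2 + 1), max N0 1, hP, by positivity, ?_⟩
  intro N hN b hb hpair
  have hN1 : N0 ≤ N := (le_max_left _ _).trans hN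
  have hN2 : 1 ≤ N := (le_max_right _ _).trans hN
  have hNr : (0 : ℝ) < N := by exact_mod_cast hN2
  have hE : ∑ p ∈ P, ∑ r ∈ P, (if p ≠ r then
      |∑ m ∈ Finset.Icc 1 (N / max p r), b (p * m) * b (r * m)| else 0) ≤ (N : ℝ) := by
    have h1 : ∀ p ∈ P, ∀ r ∈ P, (if p ≠ r then
        |∑ m ∈ Finset.Icc 1 (N / max p r), b (p * m) * b (r * m)| else 0) ≤
        1 / ((P.card : ℝ) ^ 2 + 1) * N := by
      intro p hp r hr
      split_ifs with hpr
      · rcases Nat.lt_or_gt_of_ne hpr with h3 | h3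
        · rw [max_eq_right h3.le]
          exact hpair p hp r hr h3
        · rw [max_eq_left h3.le]
          refine le_trans (le_of_eq ?_) (hpair r hr p hp h3)
          congr 1
          exact Finset.sum_congr rfl fun m _ => mul_comm _ _
      · positivity
    refine (Finset.sum_le_sum fun p hp => Finset.sum_le_sum fun r hr => h1 p hp r hr).trans ?_
    rw [Finset.sum_const, Finset.sum_const, nsmul_eq_mul, nsmul_eq_mul, ← mul_assoc, ← mul_assoc,
      mul_one_div, ← sq]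
    have h2 : (P.card : ℝ) ^ 2 / ((P.card : ℝ) ^ 2 + 1) ≤ 1 := by
      rw [div_le_one (by positivity)]
      linarith
    calc (P.card : ℝ) ^ 2 / ((P.card : ℝ) ^ 2 + 1) * N ≤ 1 * N :=
          mul_le_mul_of_nonneg_right h2 hNr.le
      _ = N := one_mul _
  have hm := hN0 N hN1 b hb hE
  rw [← hC] at hm
  set W : ℝ := ∑ p ∈ P, 1 / (p : ℝ) with hWdef
  set s : ℝ := Real.sqrt W with hs
  have hs2 : s * s = W := Real.mul_self_sqrt (by linarith)
  have hs1 : C / ε + 1 ≤ s := Real.le_sqrt_of_sq_le ((le_max_right _ _).trans hT)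
  have hs0 : 0 < s := by
    have : 0 < C / ε := by positivity
    linarith
  rw [← hs2, mul_assoc] at hm
  have h1 : s * |CA.CesAvg (fun n => mu n * b n) N| ≤ C := by
    have h2 : s * (s * |CA.CesAvg (fun n => mu n * b n) N|) ≤ s * C := by linarith
    exact le_of_mul_le_mul_left h2 hs0
  have h2 : C < s * ε := by
    have : C / ε < s := by linarith
    rwa [div_lt_iff₀ hε] at this
  have h3 : |CA.CesAvg (fun n => mu n * b n) N| < ε := lt_of_mul_lt_mul_left (h1.trans_lt h2) hs0.le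
  unfold CA.CesAvg at h3
  rw [abs_div, Nat.abs_cast, div_lt_iff₀ hNr] at h3
  exact h3.le

end Pool.Agent.Lib.MP_3e612f_nt.PB
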