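import Pool.Agent.Lib.MP_3e612f_nt.PB.DigH

/-! hh and ee (blueprint, section Dig). -/

set_option autoImplicit false

namespace Pool.Agent.Lib.MP_3e612f_nt.PB

open Finset

variable {G : Type} [Group G] {q : ℕ → ℕ} {g : ℕ → ℕ → G} {B : ℕ}

theorem hh_eq (hq : Rad B q) (hg : Neu g) (j k : ℕ) {n : ℕ} (hn : n < Qr q j k) :
    hw q g j k n = hh q g j n := by
  have h1 : hw q g j (k + n) n = hw q g j k n := hw_extend hq hg j k n hn
  have h2 : hw q g j (n + k) n = hw q g j n n := hw_extend hq hg j n k (lt_Qr_self hq j n)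
  unfold hh
  rw [← h1, ← h2, Nat.add_comm]

theorem hh_append (hq : Rad B q) (hg : Neu g) (j k : ℕ) {a : ℕ} (ha : a < Qr q j k) (b : ℕ) :
    hh q g j (a + Qr q j k * b) = hh q g j a * hh q g (j + k) b := by
  have h1 : b + 1 ≤ Qr q (j + k) b := lt_Qr_self hq (j + k) b
  have h2 : a + Qr q j k * b < Qr q j (k + b) := by
    rw [Qr_add]
    calc a + Qr q j k * b < Qr q j k + Qr q j k * b := Nat.add_lt_add_right ha _
      _ = Qr q j k * (b + 1) := by ring
      _ ≤ Qr q j k * Qr q (j + k) b := Nat.mul_le_mul_left _ h1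
  rw [← hh_eq hq hg j (k + b) h2, hw_append hq j k b ha b, hh_eq hq hg j k ha]
  rfl

theorem hh_zero (q : ℕ → ℕ) (g : ℕ → ℕ → G) (j : ℕ) : hh q g j 0 = 1 := by
  unfold hh
  exact hw_zero_len q g j 0

theorem hh_shift (hq : Rad B q) (hg : Neu g) (j k b : ℕ) :
    hh q g j (Qr q j k * b) = hh q g (j + k) b := by
  have h := hh_append hq hg j k (Qr_pos hq j k) b
  rwa [Nat.zero_add, hh_zero, one_mul] at h

theorem hh_digit (hq : Rad B q) (hg : Neu g) (j : ℕ) {d : ℕ} (hd : d < q j) :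
    hh q g j d = g j d := by
  have hQ : Qr q j 1 = q j := by rw [Qr_succ', Qr_zero, Nat.mul_one]
  have hd' : d < Qr q j 1 := by rwa [hQ]
  rw [← hh_eq hq hg j 1 hd', hw_one_len, Nat.mod_eq_of_lt hd]

/-- `h_j(q j) = g (j+1) 1` -/
theorem hh_radix (hq : Rad B q) (hg : Neu g) (j : ℕ) : hh q g j (q j) = g (j + 1) 1 := by
  have hQ : Qr q j 1 = q j := by rw [Qr_succ', Qr_zero, Nat.mul_one]
  have h := hh_shift hq hg j 1 1
  rw [hQ, Nat.mul_one] at h
  rw [h]
  exact hh_digit hq hg (j + 1) (lt_of_lt_of_le (by norm_num) (hq (j + 1)).1)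

theorem ee_zero (q : ℕ → ℕ) (g : ℕ → ℕ → G) (p r α : ℕ) : ee q g p r α 0 = 1 := by
  unfold ee
  rw [Nat.mul_zero, Nat.mul_zero, hh_zero]
  rfl

theorem ee_append (hq : Rad B q) (hg : Neu g) {p r : ℕ} (α k : ℕ) {a : ℕ}
    (hp : p * a < Qr q α k) (hr : r * a < Qr q α k) (b : ℕ) :
    ee q g p r α (a + Qr q α k * b) = ee q g p r α a * ee q g p r (α + k) b := by
  unfold ee
  have h1 : p * (a + Qr q α k * b) = p * a + Qr q α k * (p * b) := by ring
  have h2 : r * (a + Qr q α k * b) = r * a + Qr q α k * (r * b) := by ring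
  rw [h1, h2, hh_append hq hg α k hp, hh_append hq hg α k hr]
  rfl

theorem ee_shift (hq : Rad B q) (hg : Neu g) (p r α k b : ℕ) :
    ee q g p r α (Qr q α k * b) = ee q g p r (α + k) b := by
  unfold ee
  have h1 : p * (Qr q α k * b) = Qr q α k * (p * b) := by ring
  have h2 : r * (Qr q α k * b) = Qr q α k * (r * b) := by ring
  rw [h1, h2, hh_shift hq hg, hh_shift hq hg]

end Pool.Agent.Lib.MP_3e612f_nt.PB
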