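import Pool.Agent.Lib.MP_3e612f_nt.PB.DigQ

/-! Digit products hw (blueprint, section Dig). -/

set_option autoImplicit false

namespace Pool.Agent.Lib.MP_3e612f_nt.PB

open Finset

variable {G : Type} [Group G] {q : ℕ → ℕ} {g : ℕ → ℕ → G} {B : ℕ}

theorem hw_zero_len (q : ℕ → ℕ) (g : ℕ → ℕ → G) (j n : ℕ) : hw q g j 0 n = 1 := rfl

theorem DigH_succ (q : ℕ → ℕ) (g : ℕ → ℕ → G) (j k n : ℕ) :
    hw q g j (k + 1) n = g j (n % q j) * hw q g (j + 1) k (n / q j) := rfl

theorem hw_one_len (q : ℕ → ℕ) (g : ℕ → ℕ → G) (j n : ℕ) : hw q g j 1 n = g j (n % q j) := by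
  rw [← Nat.zero_add 1, DigH_succ, hw_zero_len, mul_one]

theorem hw_add (q : ℕ → ℕ) (g : ℕ → ℕ → G) (j k l n : ℕ) :
    hw q g j (k + l) n = hw q g j k n * hw q g (j + k) l (n / Qr q j k) := by
  induction k generalizing j n with
  | zero => rw [hw_zero_len, Qr_zero, Nat.div_one, one_mul, Nat.zero_add, Nat.add_zero]
  | succ k ih =>
    rw [show k + 1 + l = k + l + 1 by omega, DigH_succ, DigH_succ, ih, Qr_succ', mul_assoc,
      Nat.div_div_eq_div_mul, show j + 1 + k = j + (k + 1) by omega]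

/-- only the residue modulo `Qr q j k` matters -/
theorem hw_mod (hq : Rad B q) (j k n : ℕ) : hw q g j k (n % Qr q j k) = hw q g j k n := by
  induction k generalizing j n with
  | zero => rw [hw_zero_len, hw_zero_len]
  | succ k ih =>
    rw [DigH_succ, DigH_succ, Qr_succ', Nat.mod_mul_right_mod, Nat.mod_mul_right_div_self, ih]

theorem hw_zero (hg : Neu g) (j k : ℕ) : hw q g j k 0 = 1 := by
  induction k generalizing j with
  | zero => exact hw_zero_len q g j 0
  | succ k ih => rw [DigH_succ, Nat.zero_mod, Nat.zero_div, ih, hg, one_mul]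

theorem hw_append (hq : Rad B q) (j k l : ℕ) {a : ℕ} (ha : a < Qr q j k) (b : ℕ) :
    hw q g j (k + l) (a + Qr q j k * b) = hw q g j k a * hw q g (j + k) l b := by
  have hpos : 0 < Qr q j k := by omega
  rw [hw_add, ← hw_mod hq j k (a + Qr q j k * b), Nat.add_mul_mod_self_left,
    Nat.mod_eq_of_lt ha, Nat.add_mul_div_left _ _ hpos, Nat.div_eq_of_lt ha, Nat.zero_add]

/-- leading zeros do not matter -/
theorem hw_extend (hq : Rad B q) (hg : Neu g) (j k l : ℕ) {n : ℕ} (hn : n < Qr q j k) :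
    hw q g j (k + l) n = hw q g j k n := by
  rw [hw_add, Nat.div_eq_of_lt hn, hw_zero hg, mul_one]

end Pool.Agent.Lib.MP_3e612f_nt.PB
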