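import Pool.Agent.Lib.MP_3e612f_nt.PB.Dig

/-! Linearity modulo `Nlin` (blueprint, section Lin). -/

set_option autoImplicit false

namespace Pool.Agent.Lib.MP_3e612f_nt.PB

open Finset

variable {G : Type} [Group G] {q : ℕ → ℕ} {g : ℕ → ℕ → G} {B : ℕ}

theorem Gam_mono {a b a' b' : ℕ} (h1 : a' ≤ a) (h2 : b ≤ b') : Gam q g a b ≤ Gam q g a' b' := by
  refine Subgroup.closure_mono ?_
  rintro x ⟨j, d, h3, h4, h5, h6⟩
  exact ⟨j, d, h1.trans h3, lt_of_lt_of_le h4 h2, h5, h6⟩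

theorem Lin_Xs_mono {a b a' b' : ℕ} (h1 : a' ≤ a) (h2 : b ≤ b') : Xs q g a b ⊆ Xs q g a' b' := by
  rintro x (⟨j, d, h3, h4, h5, h6⟩ | ⟨j, h3, h4, h5⟩)
  · exact Or.inl ⟨j, d, h1.trans h3, lt_of_lt_of_le h4 h2, h5, h6⟩
  · exact Or.inr ⟨j, h1.trans h3, lt_of_lt_of_le h4 h2, h5⟩

theorem Nlin_mono {a b a' b' : ℕ} (h1 : a' ≤ a) (h2 : b ≤ b') :
    Nlin q g a b ≤ Nlin q g a' b' := by
  refine Subgroup.closure_mono ?_
  rintro x ⟨γ, hγ, y, hy, hx⟩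
  exact ⟨γ, Gam_mono h1 h2 hγ, y, Lin_Xs_mono h1 h2 hy, hx⟩

theorem Lin_conj {a b : ℕ} {γ : G} (hγ : γ ∈ Gam q g a b) {y : G} (hy : y ∈ Nlin q g a b) :
    γ * y * γ⁻¹ ∈ Nlin q g a b := by
  unfold Nlin at hy ⊢
  induction hy using Subgroup.closure_induction with
  | mem x hx =>
    obtain ⟨γ', hγ', z, hz, hxz⟩ := hx
    refine Subgroup.subset_closure ⟨γ * γ', mul_mem hγ hγ', z, hz, ?_⟩
    rw [hxz]
    group
  | one =>
    have e : γ * 1 * γ⁻¹ = 1 := by group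
    rw [e]
    exact one_mem _
  | mul x y _ _ hx hy =>
    have e : γ * (x * y) * γ⁻¹ = (γ * x * γ⁻¹) * (γ * y * γ⁻¹) := by group
    rw [e]
    exact mul_mem hx hy
  | inv x _ hx =>
    have e : γ * x⁻¹ * γ⁻¹ = (γ * x * γ⁻¹)⁻¹ := by group
    rw [e]
    exact inv_mem hx

/-- `Gam a b` normalises `Nlin a b` -/
theorem Nlin_conj {a b : ℕ} {γ : G} (hγ : γ ∈ Gam q g a b) (y : G) :
    y ∈ Nlin q g a b ↔ γ * y * γ⁻¹ ∈ Nlin q g a b := by
  constructor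
  · exact fun h => Lin_conj hγ h
  · intro h
    have h1 := Lin_conj (inv_mem hγ) h
    have e : γ⁻¹ * (γ * y * γ⁻¹) * γ⁻¹⁻¹ = y := by group
    rwa [e] at h1

theorem hw_mem_Gam (hq : Rad B q) {a b i m : ℕ} (h1 : a ≤ i) (h2 : i + m ≤ b) (n : ℕ) :
    hw q g i m n ∈ Gam q g a b := by
  induction m generalizing i n with
  | zero =>
    show (1 : G) ∈ Gam q g a b
    exact one_mem _
  | succ m ih =>
    show g i (n % q i) * hw q g (i + 1) m (n / q i) ∈ Gam q g a b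
    refine mul_mem ?_ (ih (by omega) (by omega) _)
    exact Subgroup.subset_closure ⟨i, n % q i, h1, by omega,
      Nat.mod_lt _ (lt_of_lt_of_le (by norm_num) (hq i).1), rfl⟩

theorem Lin_g_mem {a b j d : ℕ} (h1 : a ≤ j) (h2 : j < b) (h3 : d < q j) :
    g j d ∈ Gam q g a b := Subgroup.subset_closure ⟨j, d, h1, h2, h3, rfl⟩

theorem Lin_Xs_mem {a b : ℕ} {x : G} (h : x ∈ Xs q g a b) : x ∈ Nlin q g a b :=
  Subgroup.subset_closure ⟨1, one_mem _, x, h, by group⟩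

theorem Lin_mul {a b : ℕ} {x y x' y' : G} (h : x⁻¹ * y ∈ Nlin q g a b)
    (h' : x'⁻¹ * y' ∈ Nlin q g a b) (hx' : x' ∈ Gam q g a b) :
    (x * x')⁻¹ * (y * y') ∈ Nlin q g a b := by
  have h1 := Lin_conj (inv_mem hx') h
  have e : (x * x')⁻¹ * (y * y') = (x'⁻¹ * (x⁻¹ * y) * x'⁻¹⁻¹) * (x'⁻¹ * y') := by group
  rw [e]
  exact mul_mem h1 h'

theorem Lin_trans {a b : ℕ} {x y z : G} (h : x⁻¹ * y ∈ Nlin q g a b)
    (h' : y⁻¹ * z ∈ Nlin q g a b) : x⁻¹ * z ∈ Nlin q g a b := by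
  have e : x⁻¹ * z = (x⁻¹ * y) * (y⁻¹ * z) := by group
  rw [e]
  exact mul_mem h h'

theorem Lin_pow {a b : ℕ} {x y : G} (h : x⁻¹ * y ∈ Nlin q g a b) (hx : x ∈ Gam q g a b) (M : ℕ) :
    (x ^ M)⁻¹ * y ^ M ∈ Nlin q g a b := by
  induction M with
  | zero =>
    have e : (x ^ 0)⁻¹ * y ^ 0 = 1 := by simp
    rw [e]
    exact one_mem _
  | succ M ih =>
    rw [pow_succ, pow_succ]
    exact Lin_mul ih h hx

theorem Lin_digit (hq : Rad B q) (hg : Neu g) {a b j : ℕ} (h1 : a ≤ j) (h2 : j < b) (d : ℕ)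
    (hd : d < q j) : (g j 1 ^ d)⁻¹ * g j d ∈ Nlin q g a b := by
  induction d with
  | zero =>
    have e : (g j 1 ^ 0)⁻¹ * g j 0 = 1 := by rw [hg j]; simp
    rw [e]
    exact one_mem _
  | succ d ih =>
    have h3 := ih (by omega)
    have h4 : (g j 1)⁻¹ * g j (d + 1) * (g j d)⁻¹ ∈ Nlin q g a b :=
      Lin_Xs_mem (Or.inl ⟨j, d, h1, h2, hd, rfl⟩)
    have h5 : g j 1 ∈ Gam q g a b := Lin_g_mem h1 h2 (lt_of_lt_of_le (by norm_num) (hq j).1)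
    have h6 : g j 1 ^ d ∈ Gam q g a b := pow_mem h5 d
    have h7 := Lin_conj (inv_mem h6) h4
    have e : (g j 1 ^ (d + 1))⁻¹ * g j (d + 1) =
        ((g j 1 ^ d)⁻¹ * ((g j 1)⁻¹ * g j (d + 1) * (g j d)⁻¹) * (g j 1 ^ d)⁻¹⁻¹) *
          ((g j 1 ^ d)⁻¹ * g j d) := by
      rw [pow_succ']
      group
    rw [e]
    exact mul_mem h7 h3

theorem Lin_radix (hq : Rad B q) (hg : Neu g) {a b j : ℕ} (h1 : a ≤ j) (h2 : j + 1 < b) :
    (g j 1 ^ q j)⁻¹ * g (j + 1) 1 ∈ Nlin q g a b := by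
  have hq2 := (hq j).1
  have h3 := Lin_digit hq hg h1 (lt_trans (Nat.lt_succ_self j) h2) (q j - 1) (by omega)
  have h4 : (g j 1)⁻¹ * g (j + 1) 1 * (g j (q j - 1))⁻¹ ∈ Nlin q g a b :=
    Lin_Xs_mem (Or.inr ⟨j, h1, h2, rfl⟩)
  have h5 : g j 1 ∈ Gam q g a b := Lin_g_mem h1 (by omega) (lt_of_lt_of_le (by norm_num) (hq j).1)
  have h6 : g j 1 ^ (q j - 1) ∈ Gam q g a b := pow_mem h5 _
  have h7 := Lin_conj (inv_mem h6) h4
  have h8 : g j 1 ^ q j = g j 1 * g j 1 ^ (q j - 1) := by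
    rw [← pow_succ']
    congr 1
    omega
  have e : (g j 1 ^ q j)⁻¹ * g (j + 1) 1 =
      ((g j 1 ^ (q j - 1))⁻¹ * ((g j 1)⁻¹ * g (j + 1) 1 * (g j (q j - 1))⁻¹) *
        (g j 1 ^ (q j - 1))⁻¹⁻¹) * ((g j 1 ^ (q j - 1))⁻¹ * g j (q j - 1)) := by
    rw [h8]
    group
  rw [e]
  exact mul_mem h7 h3

theorem Lin_hw (hq : Rad B q) (hg : Neu g) {a b : ℕ} (m : ℕ) : ∀ j n : ℕ, a ≤ j → j + m = b →
    (g j 1 ^ (n % Qr q j m))⁻¹ * hw q g j m n ∈ Nlin q g a b := by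
  induction m with
  | zero =>
    intro j n _ _
    have e : (g j 1 ^ (n % Qr q j 0))⁻¹ * hw q g j 0 n = 1 := by
      rw [Qr_zero, Nat.mod_one, pow_zero, inv_one, one_mul]
      rfl
    rw [e]
    exact one_mem _
  | succ m ih =>
    intro j n h1 h2
    have h3 : n % Qr q j (m + 1) = n % q j + q j * (n / q j % Qr q (j + 1) m) := by
      rw [Qr_succ', Nat.mod_mul]
    have h4 : hw q g j (m + 1) n = g j (n % q j) * hw q g (j + 1) m (n / q j) := rfl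
    have h5 : g j 1 ∈ Gam q g a b :=
      Lin_g_mem h1 (by omega) (lt_of_lt_of_le (by norm_num) (hq j).1)
    rw [h3, h4, pow_add, pow_mul]
    refine Lin_mul (Lin_digit hq hg h1 (by omega) _
      (Nat.mod_lt _ (lt_of_lt_of_le (by norm_num) (hq j).1))) ?_ (pow_mem (pow_mem h5 _) _)
    rcases Nat.eq_zero_or_pos m with h6 | h6
    · subst h6
      have e : ((g j 1 ^ q j) ^ (n / q j % Qr q (j + 1) 0))⁻¹ * hw q g (j + 1) 0 (n / q j) = 1 := by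
        rw [Qr_zero, Nat.mod_one, pow_zero, inv_one, one_mul]
        rfl
      rw [e]
      exact one_mem _
    · refine Lin_trans (Lin_pow (Lin_radix hq hg h1 (by omega)) (pow_mem h5 _) _) ?_
      exact ih (j + 1) (n / q j) (by omega) (by omega)

/-- modulo `Nlin a b` the product over `[a,b)` is a power of `g a 1` -/
theorem hw_linear (hq : Rad B q) (hg : Neu g) {a b : ℕ} (hab : a ≤ b) (n : ℕ) :
    (g a 1 ^ (n % Qr q a (b - a)))⁻¹ * hw q g a (b - a) n ∈ Nlin q g a b :=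
  Lin_hw hq hg (b - a) a n le_rfl (by omega)

end Pool.Agent.Lib.MP_3e612f_nt.PB
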