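import Pool.Agent.Lib.MP_3e612f_nt.PB.Defs

/-! Spacing out (blueprint, section Dec). -/

set_option autoImplicit false

namespace Pool.Agent.Lib.MP_3e612f_nt.PB

open Finset Filter Topology

/-- spacing out the subintervals of a rich interval -/
theorem spaced_of_rich {L : Type} {Nf : ℕ → ℕ → L} {k a b κ κ' : ℕ}
    (h : Rich Nf a b κ) (hκ : (5 * k + 1) * (κ' + 1) ≤ κ) : Spaced Nf k a b κ' := by
  obtain ⟨s, t, h1, h2⟩ := h
  -- the left end points increase strictly
  have hs : ∀ i m, i + m < κ → s i + m ≤ s (i + m) := by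
    intro i m
    induction m with
    | zero => intro _; exact le_rfl
    | succ m ih =>
        intro hm
        have h3 := ih (by omega)
        have h4 := (h1 (i + m) (by omega)).2.1
        have h5 := h2 (i + m) (by omega)
        have h6 : i + (m + 1) = i + m + 1 := rfl
        rw [h6]
        omega
  have ht : ∀ i m, i + 1 + m < κ → t i + m ≤ s (i + 1 + m) := by
    intro i m hm
    have h3 := hs (i + 1) m hm
    have h4 := h2 i (by omega)
    omega
  -- the indices used
  have hidx : ∀ i, i < κ' → (5 * k + 1) * i + 2 * k + 1 + 3 * k < κ := by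
    intro i hi
    have h3 : (5 * k + 1) * (i + 1) < (5 * k + 1) * (κ' + 1) :=
      Nat.mul_lt_mul_of_pos_left (by omega) (by omega)
    have h4 : (5 * k + 1) * (i + 1) = (5 * k + 1) * i + 5 * k + 1 := by ring
    omega
  refine ⟨fun i => s ((5 * k + 1) * i + 2 * k), fun i => t ((5 * k + 1) * i + 2 * k), ?_, ?_⟩
  · intro i hi
    have h3 := hidx i hi
    obtain ⟨h4, h5, h6, h7⟩ := h1 ((5 * k + 1) * i + 2 * k) (by omega)
    refine ⟨?_, h5, ?_, h7⟩
    · have h8 := hs 0 ((5 * k + 1) * i + 2 * k) (by omega)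
      rw [Nat.zero_add] at h8
      have h9 := (h1 0 (by omega)).1
      show a + 2 * k ≤ s ((5 * k + 1) * i + 2 * k)
      have h10 : 2 * k ≤ (5 * k + 1) * i + 2 * k := Nat.le_add_left _ _
      omega
    · have h8 := ht ((5 * k + 1) * i + 2 * k) (3 * k) h3
      have h9 := h1 ((5 * k + 1) * i + 2 * k + 1 + 3 * k) h3
      show t ((5 * k + 1) * i + 2 * k) + 3 * k ≤ b
      omega
  · intro i hi
    have h3 := hidx (i + 1) hi
    have h4 : (5 * k + 1) * (i + 1) = (5 * k + 1) * i + 5 * k + 1 := by ring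
    have h5 := ht ((5 * k + 1) * i + 2 * k) (5 * k) (by omega)
    have h6 : (5 * k + 1) * i + 2 * k + 1 + 5 * k = (5 * k + 1) * (i + 1) + 2 * k := by omega
    rw [h6] at h5
    exact h5

end Pool.Agent.Lib.MP_3e612f_nt.PB
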