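import Pool.Agent.Lib.MP_3e612f_nt.PB.Dig

/-! Reduction to neutral digit zero (blueprint, section Gauge). -/

set_option autoImplicit false

namespace Pool.Agent.Lib.MP_3e612f_nt.PB

open Finset

variable {G : Type} [Group G]

theorem Gauge_list (q : ℕ → ℕ) (g : ℕ → ℕ → G) (L : ℕ) : ∀ j n : ℕ,
    ((List.range L).map fun i => g (j + i) (n / (∏ k ∈ range i, q (j + k)) % q (j + i))).prod =
      hw q g j L n := by
  induction L with
  | zero =>
    intro j n
    simp [hw]
  | succ L ih =>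
    intro j n
    rw [List.range_succ_eq_map, List.map_cons, List.prod_cons, List.map_map]
    have h0 : g (j + 0) (n / (∏ k ∈ range 0, q (j + k)) % q (j + 0)) = g j (n % q j) := by
      simp
    rw [h0]
    have h1 : hw q g j (L + 1) n = g j (n % q j) * hw q g (j + 1) L (n / q j) := rfl
    rw [h1, ← ih (j + 1) (n / q j)]
    congr 2
    refine List.map_congr_left ?_
    intro i _
    have e1 : j + 1 + i = j + (i + 1) := by omega
    have e2 : ∏ k ∈ range (i + 1), q (j + k) = q j * ∏ k ∈ range i, q (j + 1 + k) := by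
      rw [prod_range_succ', mul_comm]
      congr 1
      refine prod_congr rfl ?_
      intro k _
      congr 1
      omega
    show g (j + (i + 1)) (n / (∏ k ∈ range (i + 1), q (j + k)) % q (j + (i + 1))) =
      g (j + 1 + i) (n / q j / (∏ k ∈ range i, q (j + 1 + k)) % q (j + 1 + i))
    rw [e1, e2, Nat.div_div_eq_div_mul]

theorem list_eq_hw (q : ℕ → ℕ) (g : ℕ → ℕ → G) (L n : ℕ) :
    ((List.range L).map fun j => g j (n / (∏ i ∈ range j, q i) % q j)).prod = hw q g 0 L n := by
  have h := Gauge_list q g L 0 n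
  simpa using h

/-- partial products of the values of the digit zero -/
def Gauge_S (g : ℕ → ℕ → G) : ℕ → G
  | 0 => 1
  | j + 1 => Gauge_S g j * g j 0

theorem Gauge_hw (q : ℕ → ℕ) (g : ℕ → ℕ → G) (k : ℕ) : ∀ j n : ℕ,
    Gauge_S g j * hw q g j k n =
      hw q (fun j d => Gauge_S g j * g j d * (g j 0)⁻¹ * (Gauge_S g j)⁻¹) j k n *
        Gauge_S g (j + k) := by
  induction k with
  | zero =>
    intro j n
    simp [hw]
  | succ k ih =>
    intro j n
    have h1 : hw q g j (k + 1) n = g j (n % q j) * hw q g (j + 1) k (n / q j) := rfl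
    have h2 : hw q (fun j d => Gauge_S g j * g j d * (g j 0)⁻¹ * (Gauge_S g j)⁻¹) j (k + 1) n =
        (Gauge_S g j * g j (n % q j) * (g j 0)⁻¹ * (Gauge_S g j)⁻¹) *
          hw q (fun j d => Gauge_S g j * g j d * (g j 0)⁻¹ * (Gauge_S g j)⁻¹) (j + 1) k
            (n / q j) := rfl
    have h3 := ih (j + 1) (n / q j)
    have h4 : Gauge_S g (j + 1) = Gauge_S g j * g j 0 := rfl
    have e : j + (k + 1) = j + 1 + k := by omega
    rw [h1, h2, e, mul_assoc _ (hw q _ (j + 1) k (n / q j)) _, ← h3, h4]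
    group

theorem gauge (q : ℕ → ℕ) (g : ℕ → ℕ → G) (L : ℕ) :
    ∃ (g' : ℕ → ℕ → G) (s : G), Neu g' ∧ ∀ n, hw q g 0 L n = hw q g' 0 L n * s := by
  refine ⟨fun j d => Gauge_S g j * g j d * (g j 0)⁻¹ * (Gauge_S g j)⁻¹, Gauge_S g L, ?_, ?_⟩
  · intro j
    show Gauge_S g j * g j 0 * (g j 0)⁻¹ * (Gauge_S g j)⁻¹ = 1
    group
  · intro n
    have h := Gauge_hw q g L 0 n
    have h0 : Gauge_S g 0 = 1 := rfl
    rw [h0, one_mul, zero_add] at h
    exact h

end Pool.Agent.Lib.MP_3e612f_nt.PB
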