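import Pool.Agent.Lib.MP_3e612f_nt.PB.NonStr
import Pool.Agent.Lib.MP_3e612f_nt.PB.Dec
import Pool.Agent.Lib.MP_3e612f_nt.PB.Floor
import Pool.Agent.Lib.MP_3e612f_nt.PB.Gauge

/-! Assembly. -/

set_option autoImplicit false

namespace Pool.Agent.Lib.MP_3e612f_nt.PB

open Finset Filter Topology

/-- extension of a decomposition of `[0,K)` by single positions up to `L` -/
theorem extend_dec {c : ℕ → ℕ} {n K L : ℕ} (hc0 : c 0 = 0) (hcn : c n = K) (hc : Monotone c)
    (hKL : K ≤ L) (S : Finset ℕ) (hSn : S ⊆ range n)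
    (hS : ∀ i < n, i ∉ S → c (i + 1) ≤ c i + 1) :
    ∃ c' : ℕ → ℕ, c' 0 = 0 ∧ c' (n + (L - K)) = L ∧ Monotone c' ∧
      (∀ i ≤ n, c' i = c i) ∧ (∀ i < n + (L - K), i ∉ S → c' (i + 1) ≤ c' i + 1) := by
  refine ⟨fun i => if i ≤ n then c i else K + (i - n), ?_, ?_, ?_, ?_, ?_⟩
  · simp [hc0]
  · by_cases h : L = K
    · subst h; simp [hcn]
    · have : ¬ (n + (L - K) ≤ n) := by omega
      simp only [this, if_false]
      omega
  · intro i j hij
    dsimp only
    by_cases hi : i ≤ n <;> by_cases hj : j ≤ n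
    · rw [if_pos hi, if_pos hj]; exact hc hij
    · rw [if_pos hi, if_neg hj]
      have := hc hi
      omega
    · omega
    · rw [if_neg hi, if_neg hj]; omega
  · intro i hi
    simp [hi]
  · intro i hi hiS
    dsimp only
    by_cases h1 : i < n
    · rw [if_pos (by omega : i + 1 ≤ n), if_pos h1.le]
      exact hS i h1 hiS
    · by_cases h2 : i ≤ n
      · have : i = n := by omega
        subst this
        rw [if_neg (by omega), if_pos le_rfl, hcn]
        omega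
      · rw [if_neg (by omega), if_neg h2]
        omega

theorem beta_tendsto (C : ℝ) {ρ : ℝ} (h0 : 0 ≤ ρ) (h1 : ρ < 1) (k : ℕ) :
    Tendsto (fun κ : ℕ => C * Real.sqrt (ρ ^ (κ / (5 * k + 1) - 1))) atTop (𝓝 0) := by
  have h2 : Tendsto (fun κ : ℕ => κ / (5 * k + 1) - 1) atTop atTop := by
    have h3 : Tendsto (fun κ : ℕ => κ / (5 * k + 1)) atTop atTop :=
      Nat.tendsto_div_const_atTop (by omega)
    exact (tendsto_sub_atTop_nat 1).comp h3
  have h4 := ((tendsto_pow_atTop_nhds_zero_of_lt_one h0 h1).comp h2)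
  have h5 := (Real.continuous_sqrt.tendsto 0).comp h4
  rw [Real.sqrt_zero] at h5
  have h6 := h5.const_mul C
  rw [mul_zero] at h6
  exact h6

theorem main_real (G : Type) [Group G] [Fintype G] (B : ℕ) {ε : ℝ} (hε : 0 < ε) :
    ∃ N0 : ℕ, ∀ N ≥ N0, ∀ q : ℕ → ℕ, Rad B q → ∀ g : ℕ → ℕ → G, Neu g → ∀ (L : ℕ)
      (F : G → ℝ), (∀ x, |F x| ≤ 1) → |∑ n ∈ Icc 1 N, mu n * F (hw q g 0 L n)| ≤ ε * N := by
  classical
  by_cases hB : 2 ≤ B
  swap
  · refine ⟨0, fun N _ q hq => ?_⟩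
    have := hq 0
    omega
  obtain ⟨P, δ, N1, hP, hδ, hkat⟩ := katai_fin (A := 2) (by norm_num) (max B (Fintype.card G))
    (half_pos hε)
  -- the parameter k
  obtain ⟨k, hk⟩ : ∃ k : ℕ, ∀ p ∈ P, ∀ r ∈ P, p * r < 2 ^ k := by
    refine ⟨P.sup id * P.sup id, fun p hp r hr => ?_⟩
    have h1 : p ≤ P.sup id := Finset.le_sup (f := id) hp
    have h2 : r ≤ P.sup id := Finset.le_sup (f := id) hr
    calc p * r ≤ P.sup id * P.sup id := Nat.mul_le_mul h1 h2
      _ < 2 ^ (P.sup id * P.sup id) := Nat.lt_two_pow_self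
  obtain ⟨η, hη0, hη1, hcon⟩ := contraction G B k
  set ρ : ℝ := 1 - η / (B : ℝ) ^ (2 * k) with hρ
  have hB1 : (1 : ℝ) ≤ (B : ℝ) ^ (2 * k) := by
    have : (1 : ℝ) ≤ B := by exact_mod_cast (by omega : 1 ≤ B)
    exact one_le_pow₀ this
  have hBpos : (0 : ℝ) < (B : ℝ) ^ (2 * k) := by linarith
  have hρ1 : ρ < 1 := by
    have : 0 < η / (B : ℝ) ^ (2 * k) := div_pos hη0 hBpos
    linarith
  have hρ0 : 0 ≤ ρ := by
    have : η / (B : ℝ) ^ (2 * k) ≤ 1 := by
      rw [div_le_one hBpos]; linarith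
    linarith
  set β : ℕ → ℝ := fun κ => (4 * (Fintype.card G : ℝ)) * Real.sqrt (ρ ^ (κ / (5 * k + 1) - 1))
    with hβ
  have hβt : Tendsto β atTop (𝓝 0) := beta_tendsto _ hρ0 hρ1 k
  have hβ0 : ∀ n, 0 ≤ β n := fun n => by
    rw [hβ]
    positivity
  obtain ⟨R, hR⟩ := exists_dec G β hβ0 hβt (δ := δ / 4) (by linarith)
  obtain ⟨w, hww⟩ : ∃ w : ℕ, 16 / δ < 2 ^ w := pow_unbounded_of_one_lt _ one_lt_two
  have hM : 1 ≤ Fintype.card G * B.factorial :=
    Nat.mul_pos Fintype.card_pos (Nat.factorial_pos B)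
  obtain ⟨N2, hfl⟩ := floor_mu (Fintype.card G * B.factorial) hM (R + w + 3) (half_pos hε)
  obtain ⟨N3, hN3⟩ := exists_nat_gt (16 / δ)
  refine ⟨max (max N1 N2) (max N3 1), fun N hN q hq g hg L F hF => ?_⟩
  have hNN1 : N1 ≤ N := le_trans (le_trans (le_max_left _ _) (le_max_left _ _)) hN
  have hNN2 : N2 ≤ N := le_trans (le_trans (le_max_right _ _) (le_max_left _ _)) hN
  have hNN3 : N3 ≤ N := le_trans (le_trans (le_max_left _ _) (le_max_right _ _)) hN
  have hNN4 : 1 ≤ N := le_trans (le_trans (le_max_right _ _) (le_max_right _ _)) hN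
  have hNpos : (0 : ℝ) < N := by exact_mod_cast hNN4
  have hδN : 1 ≤ δ / 16 * N := by
    have h1 : (16 / δ : ℝ) < N := lt_of_lt_of_le hN3 (by exact_mod_cast hNN3)
    rw [div_lt_iff₀ hδ] at h1
    linarith
  -- the number of positions
  have hex : ∃ l, N < Qr q 0 l := ⟨N, lt_Qr_self hq 0 N⟩
  set L' := Nat.find hex with hL'
  have hL'1 : N < Qr q 0 L' := Nat.find_spec hex
  have hL'2 : ∀ l, l < L' → Qr q 0 l ≤ N := fun l hl => not_lt.1 (Nat.find_min hex hl)
  set L1 := min L L' with hL1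
  have hwL : ∀ n ≤ N, hw q g 0 L n = hw q g 0 L1 n := by
    intro n hn
    by_cases h : L ≤ L'
    · rw [hL1, min_eq_left h]
    · push Not at h
      rw [hL1, min_eq_right h.le]
      have h1 : L = L' + (L - L') := by omega
      rw [h1]
      exact hw_extend hq hg 0 L' (L - L') (lt_of_le_of_lt hn hL'1)
  -- the inner number of positions
  set K := Nat.findGreatest (fun l => (Qr q 0 l : ℝ) ≤ δ / 16 * N) L1 with hK
  have hK0 : (Qr q 0 K : ℝ) ≤ δ / 16 * N := by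
    have := Nat.findGreatest_spec (P := fun l => (Qr q 0 l : ℝ) ≤ δ / 16 * N) (m := 0) (n := L1)
      (Nat.zero_le _) (by rw [Qr_zero]; simpa using hδN)
    exact this
  have hKL : K ≤ L1 := Nat.findGreatest_le _
  have hKw : L1 - K ≤ w + 2 := by
    by_contra hcon'
    push Not at hcon'
    have h1 : ¬ ((Qr q 0 (K + 1) : ℝ) ≤ δ / 16 * N) :=
      Nat.findGreatest_is_greatest (P := fun l => (Qr q 0 l : ℝ) ≤ δ / 16 * N)
        (Nat.lt_succ_self K) (by omega)
    push Not at h1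
    have h2 : Qr q 0 (L1 - 1) ≤ N := hL'2 _ (by omega)
    have h3 : Qr q 0 (L1 - 1) = Qr q 0 (K + 1) * Qr q (0 + (K + 1)) (L1 - 1 - (K + 1)) := by
      rw [← Qr_add]
      congr 1
      omega
    have h4 : 2 ^ (L1 - 1 - (K + 1)) ≤ Qr q (0 + (K + 1)) (L1 - 1 - (K + 1)) :=
      two_pow_le_Qr hq _ _
    have h5 : 2 ^ w ≤ 2 ^ (L1 - 1 - (K + 1)) := Nat.pow_le_pow_right (by norm_num) (by omega)
    have h6 : Qr q 0 (K + 1) * 2 ^ w ≤ N := by
      calc Qr q 0 (K + 1) * 2 ^ w ≤ Qr q 0 (K + 1) * Qr q (0 + (K + 1)) (L1 - 1 - (K + 1)) :=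
            Nat.mul_le_mul_left _ (h5.trans h4)
        _ = Qr q 0 (L1 - 1) := h3.symm
        _ ≤ N := h2
    have h7 : (Qr q 0 (K + 1) : ℝ) * 2 ^ w ≤ N := by exact_mod_cast h6
    have h8 : δ / 16 * N * 2 ^ w < N := by
      refine lt_of_lt_of_le ?_ h7
      exact mul_lt_mul_of_pos_right h1 (by positivity)
    have h9 : 1 < δ / 16 * 2 ^ w := by
      rw [div_lt_iff₀ hδ] at hww
      linarith
    have h10 : (N : ℝ) < δ / 16 * N * 2 ^ w := by
      calc (N : ℝ) = 1 * N := (one_mul _).symm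
        _ < (δ / 16 * 2 ^ w) * N := mul_lt_mul_of_pos_right h9 hNpos
        _ = δ / 16 * N * 2 ^ w := by ring
    linarith
  -- the decomposition
  obtain ⟨n, hnR, c, hc0, hcn, hc, S, κ, hSn, hSs, hSr, hSβ⟩ :=
    hR (Nlin q g) (fun a b a' b' h1 h2 => Nlin_mono h1 h2) K
  obtain ⟨c', hc'0, hc'n, hc', hc'e, hc's⟩ := extend_dec hc0 hcn hc hKL S hSn hSs
  set n' := n + (L1 - K) with hn'
  have hSn' : S ⊆ range n' := fun i hi => by
    have := Finset.mem_range.1 (hSn hi)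
    rw [Finset.mem_range]; omega
  have hSK : ∀ i ∈ S, c' (i + 1) ≤ K := by
    intro i hi
    have h1 := Finset.mem_range.1 (hSn hi)
    rw [hc'e (i + 1) (by omega), ← hcn]
    exact hc (by omega)
  have hSsp : ∀ i ∈ S, Spaced (Nlin q g) k (c' i) (c' (i + 1)) (κ i / (5 * k + 1) - 1) := by
    intro i hi
    have h1 := Finset.mem_range.1 (hSn hi)
    rw [hc'e (i + 1) (by omega), hc'e i (by omega)]
    by_cases h2 : κ i / (5 * k + 1) = 0
    · rw [h2]
      exact ⟨fun _ => 0, fun _ => 0, fun i hi => absurd hi (by omega),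
        fun i hi => absurd hi (by omega)⟩
    · refine spaced_of_rich (hSr i hi) ?_
      have h3 : κ i / (5 * k + 1) - 1 + 1 = κ i / (5 * k + 1) :=
        Nat.sub_add_cancel (Nat.one_le_iff_ne_zero.2 h2)
      rw [h3, mul_comm]
      exact Nat.div_mul_le_self _ _
  -- splitting
  obtain ⟨We, Δ, hWe, hinv, hsum, hΔ, hbal, hzero⟩ := exists_split (n := n')
    (fun i => if (i : ℕ) ∈ S then Nlin q g (c' i) (c' (i + 1)) else ⊥)
    (fun ω => F (List.ofFn ω).prod) (fun ω => hF _)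
  set z : ℕ → Fin n' → G := fun x j => zz q g c' j x with hz
  have hval : ∀ m ≤ N, F (hw q g 0 L m) = We (z m) + ∑ i, Δ i (z m) := by
    intro m hm
    rw [hwL m hm, ← hsum (z m), ← hc'n, ← zz_prod q g hc'0 hc' n' m]
  -- the structured part
  obtain ⟨Ψ, hΨ, hΨe⟩ := str_rep hq hg hc'0 hc' (n := n') S hc's We hWe (by
    intro i hi
    have := hinv i
    rwa [if_pos hi] at this)
  have hstr : |∑ m ∈ Icc 1 N, mu m * We (z m)| ≤ ε / 2 * N := by
    have h1 : ∀ m, We (z m) = Ψ (fun j => m / Qr q 0 (c' j) % (Fintype.card G * B.factorial)) :=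
      hΨe
    simp only [h1]
    exact hfl N hNN2 (n' + 1) (by omega) (fun j => Qr q 0 (c' j)) (fun j => Qr_pos hq _ _) Ψ hΨ
  -- the unstructured part
  have hV2 : ∀ ω, |∑ i, Δ i ω| ≤ 2 := by
    intro ω
    have h1 := hsum ω
    have h2 : ∑ i, Δ i ω = F (List.ofFn ω).prod - We ω := by linarith
    rw [h2]
    have h3 := hF (List.ofFn ω).prod
    have h4 := hWe ω
    exact (abs_sub _ _).trans (by linarith)
  have huns : |∑ m ∈ Icc 1 N, mu m * ∑ i, Δ i (z m)| ≤ ε / 2 * N := by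
    refine hkat N hNN1 (fun m => ∑ i, Δ i (z m)) (fun m => hV2 _) ?_
    intro p hp r hr hpr
    have hpp := hP p hp
    have hrr := hP r hr
    have hrq : ∀ j, ¬ r ∣ q j := by
      intro j hd
      have h1 := Nat.le_of_dvd (by have := (hq j).1; omega) hd
      have h2 := (hq j).2
      have h3 := le_max_left B (Fintype.card G)
      omega
    have hGr : Fintype.card G < r := lt_of_le_of_lt (le_max_right _ _) hrr.2
    have hτ0 : 0 ≤ ∑ i ∈ S, 4 * (Fintype.card G : ℝ) *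
        Real.sqrt ((1 - η / (B : ℝ) ^ (2 * k)) ^ (κ i / (5 * k + 1) - 1)) :=
      Finset.sum_nonneg fun i _ => by positivity
    have hblock := fun y => pair_block hq hg hpp.1.one_le hpr hrr.1 hrq (hk p hp r hr) hGr hη0.le
      hη1 (hcon p r hpp.1.one_le hrr.1.one_le (hk p hp r hr) q g hq hg) hc'0 hc' (n := n') (K := K)
      S hSn' hSK (fun i => κ i / (5 * k + 1) - 1) hSsp (fun ω => ∑ i, Δ i ω) Δ hV2 hΔ
      (fun _ => rfl)
      (by
        intro i hi
        have := hbal i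
        rwa [if_pos hi] at this)
      (by
        intro i hi ω
        exact hzero i (if_neg hi) ω) y
    have h1 := sum_of_blocks (fun m => (∑ i, Δ i (z (p * m))) * ∑ i, Δ i (z (r * m)))
      (by
        intro m
        rw [abs_mul]
        have h2 := hV2 (z (p * m))
        have h3 := hV2 (z (r * m))
        calc |∑ i, Δ i (z (p * m))| * |∑ i, Δ i (z (r * m))| ≤ 2 * 2 :=
              mul_le_mul h2 h3 (abs_nonneg _) (by norm_num)
          _ = 4 := by norm_num)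
      (Qr_pos hq 0 K) hτ0 hblock (N / r)
    refine h1.trans ?_
    have h2 : ∑ i ∈ S, 4 * (Fintype.card G : ℝ) *
        Real.sqrt ((1 - η / (B : ℝ) ^ (2 * k)) ^ (κ i / (5 * k + 1) - 1)) ≤ δ / 4 := hSβ
    have h3 : ((N / r : ℕ) : ℝ) ≤ N := by exact_mod_cast Nat.div_le_self N r
    have h4 : (1 : ℝ) ≤ N := by exact_mod_cast hNN4
    have h5 : (∑ i ∈ S, 4 * (Fintype.card G : ℝ) *
        Real.sqrt ((1 - η / (B : ℝ) ^ (2 * k)) ^ (κ i / (5 * k + 1) - 1))) * (((N / r : ℕ) : ℝ) + 1)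
        ≤ δ / 4 * (N + N) := by
      refine mul_le_mul h2 (by linarith) (by positivity) (by linarith)
    linarith
  have hfin : ∑ m ∈ Icc 1 N, mu m * F (hw q g 0 L m) =
      (∑ m ∈ Icc 1 N, mu m * We (z m)) + ∑ m ∈ Icc 1 N, mu m * ∑ i, Δ i (z m) := by
    rw [← Finset.sum_add_distrib]
    refine Finset.sum_congr rfl fun m hm => ?_
    rw [Finset.mem_Icc] at hm
    rw [hval m hm.2]
    ring
  rw [hfin]
  refine (abs_add_le _ _).trans ?_
  linarith

theorem main_complex (G : Type) [Group G] [Finite G] (B : ℕ) {ε : ℝ} (hε : 0 < ε) :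
    ∃ N0 : ℕ, ∀ N ≥ N0, ∀ q : ℕ → ℕ, (∀ j, 2 ≤ q j ∧ q j ≤ B) → ∀ (g : ℕ → ℕ → G) (L : ℕ)
      (F : G → ℂ), (∀ x, ‖F x‖ ≤ 1) →
      ‖∑ n ∈ Icc 1 N, ((ArithmeticFunction.moebius n : ℤ) : ℂ) *
        F ((List.range L).map fun j => g j (n / (∏ i ∈ range j, q i) % q j)).prod‖ ≤ ε * N := by
  have := Fintype.ofFinite G
  obtain ⟨N0, hN0⟩ := main_real G B (half_pos hε)
  refine ⟨N0, fun N hN q hq g L F hF => ?_⟩
  obtain ⟨g', s, hg', hgs⟩ := gauge q g L
  have h1 := hN0 N hN q hq g' hg' L (fun x => (F (x * s)).re)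
    (fun x => (Complex.abs_re_le_norm _).trans (hF _))
  have h2 := hN0 N hN q hq g' hg' L (fun x => (F (x * s)).im)
    (fun x => (Complex.abs_im_le_norm _).trans (hF _))
  have e : ∑ n ∈ Icc 1 N, ((ArithmeticFunction.moebius n : ℤ) : ℂ) *
        F ((List.range L).map fun j => g j (n / (∏ i ∈ range j, q i) % q j)).prod =
      ((∑ n ∈ Icc 1 N, mu n * (F (hw q g' 0 L n * s)).re : ℝ) : ℂ) +
        ((∑ n ∈ Icc 1 N, mu n * (F (hw q g' 0 L n * s)).im : ℝ) : ℂ) * Complex.I := by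
    push_cast
    rw [Finset.sum_mul, ← Finset.sum_add_distrib]
    refine Finset.sum_congr rfl fun n _ => ?_
    rw [list_eq_hw, hgs]
    conv_lhs => rw [← Complex.re_add_im (F (hw q g' 0 L n * s))]
    unfold mu
    push_cast
    ring
  rw [e]
  refine (norm_add_le _ _).trans ?_
  rw [norm_mul, Complex.norm_I, mul_one, Complex.norm_real, Complex.norm_real, Real.norm_eq_abs,
    Real.norm_eq_abs]
  linarith

end Pool.Agent.Lib.MP_3e612f_nt.PB
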