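import Pool.Agent.Lib.MP_3e612f_nt.PB.Trans

/-! Correlations over a block of numbers (blueprint, section Mix). -/

set_option autoImplicit false

namespace Pool.Agent.Lib.MP_3e612f_nt.PB

open Finset

theorem Mix_sum (X Y : ℕ) (f : ℕ → ℝ) :
    ∑ v ∈ range (X * Y), f v = ∑ v0 ∈ range X, ∑ v1 ∈ range Y, f (v0 + X * v1) := by
  induction Y with
  | zero => simp
  | succ Y ih =>
    have h1 : ∑ v0 ∈ range X, ∑ v1 ∈ range (Y + 1), f (v0 + X * v1) =
        ∑ v0 ∈ range X, ∑ v1 ∈ range Y, f (v0 + X * v1) + ∑ v0 ∈ range X, f (v0 + X * Y) := by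
      rw [← Finset.sum_add_distrib]
      exact Finset.sum_congr rfl fun v0 _ => Finset.sum_range_succ _ _
    rw [h1, Nat.mul_succ, Finset.sum_range_add, ih]
    congr 1
    exact Finset.sum_congr rfl fun v0 _ => by rw [add_comm]

section

variable {G : Type} [Group G] {q : ℕ → ℕ} {g : ℕ → ℕ → G} {B : ℕ}

/-- digits of a multiple -/
theorem Mix_x (hq : Rad B q) {a m : ℕ} (Φ : ℕ → G → ℕ → ℝ) (p v0 v1 w : ℕ) :
    Φ (p * (v0 + Qr q 0 a * (v1 + Qr q a m * w)) % Qr q 0 a)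
      (hw q g a m (p * (v0 + Qr q 0 a * (v1 + Qr q a m * w)) / Qr q 0 a))
      (p * (v0 + Qr q 0 a * (v1 + Qr q a m * w)) / (Qr q 0 a * Qr q a m)) =
    Φ (p * v0 % Qr q 0 a) (hw q g a m (p * v1 + p * v0 / Qr q 0 a))
      (p * w + (p * v1 + p * v0 / Qr q 0 a) / Qr q a m) := by
  have hX := Qr_pos hq 0 a
  have hY := Qr_pos hq a m
  have hm := fun n => hw_mod (g := g) hq a m n
  generalize Qr q 0 a = X at *
  generalize Qr q a m = Y at *
  have e1 : p * (v0 + X * (v1 + Y * w)) = p * v0 + X * (p * (v1 + Y * w)) := by ring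
  have e2 : (p * v0 + X * (p * (v1 + Y * w))) % X = p * v0 % X := Nat.add_mul_mod_self_left _ _ _
  have e3 : (p * v0 + X * (p * (v1 + Y * w))) / X = (p * v1 + p * v0 / X) + Y * (p * w) := by
    rw [Nat.add_mul_div_left _ _ hX]
    ring
  have e4 : hw q g a m ((p * v1 + p * v0 / X) + Y * (p * w)) =
      hw q g a m (p * v1 + p * v0 / X) := by
    rw [← hm ((p * v1 + p * v0 / X) + Y * (p * w)), ← hm (p * v1 + p * v0 / X),
      Nat.add_mul_mod_self_left]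
  have e5 : ((p * v1 + p * v0 / X) + Y * (p * w)) / Y = p * w + (p * v1 + p * v0 / X) / Y := by
    rw [Nat.add_mul_div_left _ _ hY]
    ring
  rw [e1, ← Nat.div_div_eq_div_mul, e2, e3, e4, e5]

variable [Fintype G]

/-- the average over the top digits -/
noncomputable def Mix_A (Φ Ψ : ℕ → G → ℕ → ℝ) (p r l l' Z y : ℕ) (c : ℕ × ℕ) (z : G × G) : ℝ :=
  (∑ v2 ∈ range Z, Φ l z.1 (p * (v2 + Z * y) + c.1) * Ψ l' z.2 (r * (v2 + Z * y) + c.2)) / (Z : ℝ)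

theorem Mix_A_abs {Φ Ψ : ℕ → G → ℕ → ℝ} (hΦ : ∀ l γ u, |Φ l γ u| ≤ 2)
    (hΨ : ∀ l γ u, |Ψ l γ u| ≤ 2) (p r l l' : ℕ) {Z : ℕ} (hZ : 0 < Z) (y : ℕ) (c : ℕ × ℕ)
    (z : G × G) : |Mix_A Φ Ψ p r l l' Z y c z| ≤ 4 := by
  have hZ' : (0 : ℝ) < Z := by exact_mod_cast hZ
  unfold Mix_A
  rw [abs_div, abs_of_pos hZ', div_le_iff₀ hZ']
  refine (Finset.abs_sum_le_sum_abs _ _).trans ?_
  have h1 : ∀ v2 ∈ range Z, |Φ l z.1 (p * (v2 + Z * y) + c.1) *
      Ψ l' z.2 (r * (v2 + Z * y) + c.2)| ≤ 4 := by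
    intro v2 _
    rw [abs_mul]
    have := mul_le_mul (hΦ l z.1 (p * (v2 + Z * y) + c.1))
      (hΨ l' z.2 (r * (v2 + Z * y) + c.2)) (abs_nonneg _) (by norm_num)
    linarith
  refine (Finset.sum_le_sum h1).trans (le_of_eq ?_)
  rw [Finset.sum_const, card_range, nsmul_eq_mul]
  ring

open Classical in
theorem Mix_A_good {Φ Ψ : ℕ → G → ℕ → ℝ} (hΦ : ∀ l γ u, |Φ l γ u| ≤ 2)
    (hΨ : ∀ l γ u, |Ψ l γ u| ≤ 2) (N : Subgroup G)
    (hbal : ∀ l γ u, ∑ ν : G, (if ν ∈ N then Ψ l (γ * ν) u else 0) = 0)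
    (p r l l' : ℕ) {Z : ℕ} (hZ : 0 < Z) (y : ℕ) :
    Good p r N (16 * (Fintype.card G : ℝ) ^ 2) (Mix_A Φ Ψ p r l l' Z y) := by
  intro c _ _
  constructor
  · unfold nrm
    have h1 : ∀ z ∈ (Finset.univ : Finset (G × G)), Mix_A Φ Ψ p r l l' Z y c z ^ 2 ≤ 16 := by
      intro z _
      have h := Mix_A_abs hΦ hΨ p r l l' hZ y c z
      have h2 := sq_le_sq' (neg_le_of_abs_le h) (le_of_abs_le h)
      linarith
    refine (Finset.sum_le_sum h1).trans (le_of_eq ?_)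
    rw [Finset.sum_const, Finset.card_univ, Fintype.card_prod, nsmul_eq_mul]
    push_cast
    ring
  · intro z
    have h1 : ∀ x2 : G, (if ((1 : G), x2) ∈ (⊥ : Subgroup G).prod N then
        Mix_A Φ Ψ p r l l' Z y c (z * (1, x2)) else 0) =
        (∑ v2 ∈ range Z, Φ l z.1 (p * (v2 + Z * y) + c.1) *
          (if x2 ∈ N then Ψ l' (z.2 * x2) (r * (v2 + Z * y) + c.2) else 0)) / (Z : ℝ) := by
      intro x2
      by_cases hx : x2 ∈ N
      · have hx' : ((1 : G), x2) ∈ (⊥ : Subgroup G).prod N := by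
          rw [Subgroup.mem_prod]
          exact ⟨Subgroup.mem_bot.2 rfl, hx⟩
        rw [if_pos hx']
        simp only [if_pos hx]
        unfold Mix_A
        simp
      · have hx' : ¬ ((1 : G), x2) ∈ (⊥ : Subgroup G).prod N := by
          rw [Subgroup.mem_prod]
          exact fun h => hx h.2
        rw [if_neg hx']
        simp [hx]
    have h2 : ∑ x2 : G, (if ((1 : G), x2) ∈ (⊥ : Subgroup G).prod N then
        Mix_A Φ Ψ p r l l' Z y c (z * (1, x2)) else 0) = 0 := by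
      rw [Finset.sum_congr rfl fun x2 _ => h1 x2, ← Finset.sum_div, Finset.sum_comm]
      have h3 : ∑ v2 ∈ range Z, ∑ x2 : G, Φ l z.1 (p * (v2 + Z * y) + c.1) *
          (if x2 ∈ N then Ψ l' (z.2 * x2) (r * (v2 + Z * y) + c.2) else 0) = 0 := by
        refine Finset.sum_eq_zero fun v2 _ => ?_
        rw [← Finset.mul_sum, hbal, mul_zero]
      rw [h3, zero_div]
    have h3 : ∑ x : G × G, (if x ∈ (⊥ : Subgroup G).prod N then
        Mix_A Φ Ψ p r l l' Z y c (z * x) else 0) =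
        ∑ x1 : G, ∑ x2 : G, (if (x1, x2) ∈ (⊥ : Subgroup G).prod N then
        Mix_A Φ Ψ p r l l' Z y c (z * (x1, x2)) else 0) := Fintype.sum_prod_type _
    rw [h3, Finset.sum_eq_single (1 : G)]
    · exact h2
    · intro x1 _ hx1
      refine Finset.sum_eq_zero fun x2 _ => ?_
      rw [if_neg]
      rw [Subgroup.mem_prod]
      exact fun h => hx1 (Subgroup.mem_bot.1 h.1)
    · intro h
      exact absurd (Finset.mem_univ _) h

end

variable {G : Type} [Group G] [Fintype G] {q : ℕ → ℕ} {g : ℕ → ℕ → G} {B : ℕ} {p r k : ℕ}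

open Classical in
theorem mix (hq : Rad B q) (hg : Neu g) (hp : 1 ≤ p) (hpr : p < r) (hr : r.Prime)
    (hrq : ∀ j, ¬ r ∣ q j) (hk : p * r < 2 ^ k) (hG : Fintype.card G < r)
    {η : ℝ} (hη0 : 0 ≤ η) (hη1 : η ≤ 1)
    (hη : ∀ α m : ℕ, ∀ Θ : G × G → ℝ, Bal (Lam q g p r α m) Θ →
      nrm (av (range (Qr q α m)) (ee q g p r α) Θ) ≤ (1 - η) * nrm Θ)
    {a b K κ : ℕ} (hab : a ≤ b) (hbK : b ≤ K) (hS : Spaced (Nlin q g) k a b κ)
    (Φ Ψ : ℕ → G → ℕ → ℝ) (hΦ : ∀ l γ u, |Φ l γ u| ≤ 2) (hΨ : ∀ l γ u, |Ψ l γ u| ≤ 2)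
    (hbal : ∀ l γ u, ∑ ν : G, (if ν ∈ Nlin q g a b then Ψ l (γ * ν) u else 0) = 0)
    (φ ψ : ℕ → ℝ)
    (hφ : ∀ x, φ x = Φ (x % Qr q 0 a) (hw q g a (b - a) (x / Qr q 0 a)) (x / Qr q 0 b))
    (hψ : ∀ x, ψ x = Ψ (x % Qr q 0 a) (hw q g a (b - a) (x / Qr q 0 a)) (x / Qr q 0 b))
    (y : ℕ) :
    |∑ v ∈ range (Qr q 0 K), φ (p * (v + Qr q 0 K * y)) * ψ (r * (v + Qr q 0 K * y))| ≤
      4 * Fintype.card G * Real.sqrt ((1 - η / (B : ℝ) ^ (2 * k)) ^ κ) * Qr q 0 K := by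
  have hB2 : 2 ≤ B := le_trans (hq 0).1 (hq 0).2
  have hBk : (1 : ℝ) ≤ (B : ℝ) ^ (2 * k) := by
    apply one_le_pow₀
    have : (2 : ℝ) ≤ B := by exact_mod_cast hB2
    linarith
  have hρ0 : 0 ≤ 1 - η / (B : ℝ) ^ (2 * k) := by
    have : η / (B : ℝ) ^ (2 * k) ≤ 1 := by
      rw [div_le_one (by linarith)]
      linarith
    linarith
  have hX := Qr_pos hq 0 a
  have hY := Qr_pos hq a (b - a)
  have hZ := Qr_pos hq b (K - b)
  have hb : Qr q 0 b = Qr q 0 a * Qr q a (b - a) := by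
    have := Qr_add q 0 a (b - a)
    rwa [Nat.add_sub_cancel' hab, Nat.zero_add] at this
  have hK : Qr q 0 K = Qr q 0 a * (Qr q a (b - a) * Qr q b (K - b)) := by
    have := Qr_add q 0 b (K - b)
    rw [Nat.add_sub_cancel' hbK, Nat.zero_add, hb] at this
    rw [this, mul_assoc]
  -- the inner sums
  have hinner : ∀ v0 ∈ range (Qr q 0 a),
      |∑ v1 ∈ range (Qr q a (b - a) * Qr q b (K - b)),
        φ (p * (v0 + Qr q 0 a * v1 + Qr q 0 K * y)) * ψ (r * (v0 + Qr q 0 a * v1 + Qr q 0 K * y))|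
      ≤ 4 * Fintype.card G * Real.sqrt ((1 - η / (B : ℝ) ^ (2 * k)) ^ κ) *
        ((Qr q a (b - a) : ℝ) * Qr q b (K - b)) := by
    intro v0 hv0
    rw [mem_range] at hv0
    set A := Mix_A Φ Ψ p r (p * v0 % Qr q 0 a) (r * v0 % Qr q 0 a) (Qr q b (K - b)) y with hA
    have hgood := Mix_A_good hΦ hΨ (Nlin q g a b) hbal p r (p * v0 % Qr q 0 a)
      (r * v0 % Qr q 0 a) hZ y
    rw [← hA] at hgood
    have hgain := TT_gains hq hg hp hpr hr hrq hk hG hη0 hη1 hη hab hS hgood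
      (p * v0 / Qr q 0 a, r * v0 / Qr q 0 a)
      (by
        rw [Nat.div_lt_iff_lt_mul hX]
        exact Nat.mul_lt_mul_of_pos_left hv0 (by omega))
      (by
        rw [Nat.div_lt_iff_lt_mul hX]
        exact Nat.mul_lt_mul_of_pos_left hv0 (by omega))
    have habs := (abs_le_sqrt_nrm (TT q g p r a (b - a) A
      (p * v0 / Qr q 0 a, r * v0 / Qr q 0 a)) 1).trans (Real.sqrt_le_sqrt hgain.1)
    have hsq : Real.sqrt ((1 - η / (B : ℝ) ^ (2 * k)) ^ κ * (16 * (Fintype.card G : ℝ) ^ 2)) =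
        4 * Fintype.card G * Real.sqrt ((1 - η / (B : ℝ) ^ (2 * k)) ^ κ) := by
      rw [Real.sqrt_mul (pow_nonneg hρ0 κ)]
      have e : (16 : ℝ) * (Fintype.card G : ℝ) ^ 2 = (4 * (Fintype.card G : ℝ)) ^ 2 := by ring
      rw [e, Real.sqrt_sq (by positivity)]
      ring
    rw [hsq] at habs
    have heq : ∑ v1 ∈ range (Qr q a (b - a) * Qr q b (K - b)),
        φ (p * (v0 + Qr q 0 a * v1 + Qr q 0 K * y)) *
          ψ (r * (v0 + Qr q 0 a * v1 + Qr q 0 K * y)) =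
        ((Qr q a (b - a) : ℝ) * Qr q b (K - b)) * TT q g p r a (b - a) A
          (p * v0 / Qr q 0 a, r * v0 / Qr q 0 a) 1 := by
      rw [Mix_sum]
      have hY' : (Qr q a (b - a) : ℝ) ≠ 0 := by exact_mod_cast hY.ne'
      have hZ' : (Qr q b (K - b) : ℝ) ≠ 0 := by exact_mod_cast hZ.ne'
      unfold TT
      rw [mul_comm (Qr q a (b - a) : ℝ), mul_assoc, mul_div_cancel₀ _ hY', Finset.mul_sum]
      refine Finset.sum_congr rfl fun v1 _ => ?_
      rw [hA]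
      unfold Mix_A
      rw [mul_div_cancel₀ _ hZ']
      refine Finset.sum_congr rfl fun v2 _ => ?_
      have e1 : v0 + Qr q 0 a * (v1 + Qr q a (b - a) * v2) + Qr q 0 K * y =
          v0 + Qr q 0 a * (v1 + Qr q a (b - a) * (v2 + Qr q b (K - b) * y)) := by
        rw [hK]
        ring
      rw [e1, hφ, hψ, hb, Mix_x hq Φ, Mix_x hq Ψ]
      simp
    rw [heq, abs_mul, abs_of_nonneg (by positivity), mul_comm]
    exact mul_le_mul_of_nonneg_right habs (by positivity)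
  have hsum : ∑ v ∈ range (Qr q 0 K), φ (p * (v + Qr q 0 K * y)) * ψ (r * (v + Qr q 0 K * y)) =
      ∑ v0 ∈ range (Qr q 0 a), ∑ v1 ∈ range (Qr q a (b - a) * Qr q b (K - b)),
        φ (p * (v0 + Qr q 0 a * v1 + Qr q 0 K * y)) *
          ψ (r * (v0 + Qr q 0 a * v1 + Qr q 0 K * y)) := by
    rw [← Mix_sum (Qr q 0 a) (Qr q a (b - a) * Qr q b (K - b))
      (fun v => φ (p * (v + Qr q 0 K * y)) * ψ (r * (v + Qr q 0 K * y))), ← hK]
  rw [hsum]
  refine (Finset.abs_sum_le_sum_abs _ _).trans ((Finset.sum_le_sum hinner).trans (le_of_eq ?_))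
  rw [Finset.sum_const, card_range, nsmul_eq_mul]
  have hK' : (Qr q 0 K : ℝ) = (Qr q 0 a : ℝ) * ((Qr q a (b - a) : ℝ) * Qr q b (K - b)) := by
    rw [hK]
    push_cast
    ring
  rw [hK']
  ring

end Pool.Agent.Lib.MP_3e612f_nt.PB
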