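import Pool.Agent.Lib.MP_3e612f_nt.PB.OperB

/-! Almost invariance from contraction (blueprint, section Oper). -/

set_option autoImplicit false

namespace Pool.Agent.Lib.MP_3e612f_nt.PB

open Finset

variable {K : Type} [Group K] [Fintype K]

open Classical in
/-- projection on the right invariant functions -/
private noncomputable def OperC_P (Λ : Subgroup K) (Θ : K → ℝ) : K → ℝ :=
  fun z => (∑ x : K, (if x ∈ Λ then Θ (z * x) else 0)) /
    (((Finset.univ : Finset K).filter (fun x => x ∈ Λ)).card : ℝ)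

open Classical in
private theorem OperC_card (Λ : Subgroup K) :
    0 < (((Finset.univ : Finset K).filter (fun x => x ∈ Λ)).card : ℝ) := by
  have : 0 < ((Finset.univ : Finset K).filter (fun x => x ∈ Λ)).card :=
    Finset.card_pos.2 ⟨1, by simp [Λ.one_mem]⟩
  exact_mod_cast this

private theorem OperC_inv (Λ : Subgroup K) (Θ : K → ℝ) (z : K) {y : K} (hy : y ∈ Λ) :
    OperC_P Λ Θ (z * y) = OperC_P Λ Θ z := by
  classical
  unfold OperC_P
  congr 1
  refine Fintype.sum_equiv (Equiv.mulLeft y) _ _ (fun x => ?_)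
  have h : y * x ∈ Λ ↔ x ∈ Λ := Subgroup.mul_mem_cancel_left Λ hy
  simp only [Equiv.coe_mulLeft, h, mul_assoc]

private theorem OperC_bal (Λ : Subgroup K) (Θ : K → ℝ) :
    Bal Λ (fun z => Θ z - OperC_P Λ Θ z) := by
  classical
  intro z
  have hc := OperC_card Λ
  have h1 : ∀ x : K, (if x ∈ Λ then Θ (z * x) - OperC_P Λ Θ (z * x) else 0) =
      (if x ∈ Λ then Θ (z * x) else 0) - (if x ∈ Λ then OperC_P Λ Θ z else 0) := by
    intro x
    by_cases hx : x ∈ Λ
    · simp only [hx, if_true, OperC_inv Λ Θ z hx]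
    · simp [hx]
  have h2 : ∑ x : K, (if x ∈ Λ then OperC_P Λ Θ z else 0) =
      (((Finset.univ : Finset K).filter (fun x => x ∈ Λ)).card : ℝ) * OperC_P Λ Θ z := by
    rw [← Finset.sum_filter, Finset.sum_const, nsmul_eq_mul]
  have h3 : (((Finset.univ : Finset K).filter (fun x => x ∈ Λ)).card : ℝ) * OperC_P Λ Θ z =
      ∑ x : K, (if x ∈ Λ then Θ (z * x) else 0) := by
    unfold OperC_P
    rw [mul_div_cancel₀ _ hc.ne']
  have h4 : ∑ x : K, (if x ∈ Λ then Θ (z * x) - OperC_P Λ Θ (z * x) else 0) = 0 := by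
    rw [Finset.sum_congr rfl (fun x _ => h1 x), Finset.sum_sub_distrib, h2, h3, sub_self]
  convert h4

private theorem OperC_orth (Λ : Subgroup K) (P T : K → ℝ) (hP : ∀ z, ∀ y ∈ Λ, P (z * y) = P z)
    (hT : Bal Λ T) : ∑ z : K, P z * T z = 0 := by
  classical
  have hc := OperC_card Λ
  have h1 : ∀ x ∈ (Finset.univ : Finset K).filter (fun x => x ∈ Λ),
      ∑ z : K, P z * T (z * x) = ∑ z : K, P z * T z := by
    intro x hx
    have hx' : x ∈ Λ := (Finset.mem_filter.1 hx).2
    refine Fintype.sum_equiv (Equiv.mulRight x) _ _ (fun z => ?_)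
    simp only [Equiv.coe_mulRight]
    rw [hP z x hx']
  have h2 : ∑ x ∈ (Finset.univ : Finset K).filter (fun x => x ∈ Λ), ∑ z : K, P z * T (z * x) = 0 := by
    rw [Finset.sum_comm]
    refine Finset.sum_eq_zero (fun z _ => ?_)
    rw [← Finset.mul_sum, Finset.sum_filter]
    have h3 : ∑ x : K, (if x ∈ Λ then T (z * x) else 0) = 0 := by
      have := hT z
      convert this
    rw [h3, mul_zero]
  rw [Finset.sum_congr rfl h1, Finset.sum_const, nsmul_eq_mul] at h2
  rcases mul_eq_zero.1 h2 with h | h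
  · exact absurd h hc.ne'
  · exact h

private theorem OperC_pyth (Λ : Subgroup K) (P T : K → ℝ) (hP : ∀ z, ∀ y ∈ Λ, P (z * y) = P z)
    (hT : Bal Λ T) : nrm (fun z => P z + T z) = nrm P + nrm T := by
  have h := OperC_orth Λ P T hP hT
  unfold nrm
  have h1 : ∀ z : K, (P z + T z) ^ 2 = P z ^ 2 + T z ^ 2 + 2 * (P z * T z) := fun z => by ring
  rw [Finset.sum_congr rfl (fun z _ => h1 z), Finset.sum_add_distrib, Finset.sum_add_distrib,
    ← Finset.mul_sum, h]
  ring

/-- from balanced functions to all functions: if the average contracts balanced functions then an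
arbitrary function with small defect is almost invariant under `Λ` -/
theorem almost_inv {Λ : Subgroup K} {V : Finset ℕ} (hV : V.Nonempty) {e : ℕ → K}
    (he : ∀ u ∈ V, e u ∈ Λ) {η : ℝ} (hη : 0 < η)
    (hc : ∀ Θ : K → ℝ, Bal Λ Θ → nrm (av V e Θ) ≤ (1 - η) * nrm Θ) (Θ : K → ℝ) {x : K}
    (hx : x ∈ Λ) :
    nrm (fun z => Θ (z * x) - Θ z) ≤ 4 / η * (nrm Θ - nrm (av V e Θ)) := by
  obtain ⟨P, hPd⟩ : ∃ P : K → ℝ, P = OperC_P Λ Θ := ⟨_, rfl⟩
  obtain ⟨T, hTd⟩ : ∃ T : K → ℝ, T = fun z => Θ z - OperC_P Λ Θ z := ⟨_, rfl⟩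
  have hP : ∀ z, ∀ y ∈ Λ, P (z * y) = P z := fun z y hy => by
    rw [hPd]
    exact OperC_inv Λ Θ z hy
  have hT : Bal Λ T := by
    rw [hTd]
    exact OperC_bal Λ Θ
  have hsum : ∀ z, Θ z = P z + T z := fun z => by
    simp only [hPd, hTd]
    ring
  have h1 : nrm Θ = nrm P + nrm T := by
    rw [← OperC_pyth Λ P T hP hT]
    congr 1
    funext z
    exact hsum z
  have hVc : (V.card : ℝ) ≠ 0 := by
    have h0 : 0 < V.card := Finset.card_pos.2 hV
    exact Nat.cast_ne_zero.2 h0.ne'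
  have h2 : av V e Θ = fun z => P z + av V e T z := by
    funext z
    unfold av
    have h3 : ∑ u ∈ V, Θ (z * e u) = (V.card : ℝ) * P z + ∑ u ∈ V, T (z * e u) := by
      rw [← nsmul_eq_mul, ← Finset.sum_const, ← Finset.sum_add_distrib]
      refine Finset.sum_congr rfl (fun u hu => ?_)
      rw [hsum, hP z _ (he u hu)]
    rw [h3, add_div, mul_div_cancel_left₀ _ hVc]
  have hbav : Bal Λ (av V e T) := Bal_av (fun u hu y => by
    have hu' := he u hu
    constructor
    · intro hy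
      exact Λ.mul_mem (Λ.mul_mem hu' hy) (Λ.inv_mem hu')
    · intro hy
      have := Λ.mul_mem (Λ.mul_mem (Λ.inv_mem hu') hy) hu'
      have h3 : (e u)⁻¹ * (e u * y * (e u)⁻¹) * e u = y := by group
      rwa [h3] at this) hT
  have h3 : nrm (av V e Θ) = nrm P + nrm (av V e T) := by
    rw [h2]
    exact OperC_pyth Λ P (av V e T) hP hbav
  have h4 := hc T hT
  have h5 : η * nrm T ≤ nrm Θ - nrm (av V e Θ) := by
    rw [h1, h3]
    linarith
  have h6 : nrm (fun z => Θ (z * x) - Θ z) ≤ 4 * nrm T := by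
    have h7 : nrm (tr x T) = nrm T := nrm_tr x T
    have h8 : nrm (fun z => Θ (z * x) - Θ z) ≤ 2 * nrm (tr x T) + 2 * nrm T := by
      unfold nrm
      rw [Finset.mul_sum, Finset.mul_sum, ← Finset.sum_add_distrib]
      refine Finset.sum_le_sum (fun z _ => ?_)
      show (Θ (z * x) - Θ z) ^ 2 ≤ 2 * T (z * x) ^ 2 + 2 * T z ^ 2
      rw [hsum (z * x), hsum z, hP z x hx]
      nlinarith [sq_nonneg (T (z * x) + T z)]
    linarith
  have h9 : nrm T ≤ (nrm Θ - nrm (av V e Θ)) / η := by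
    rw [le_div_iff₀ hη]
    linarith
  calc nrm (fun z => Θ (z * x) - Θ z) ≤ 4 * nrm T := h6
    _ ≤ 4 * ((nrm Θ - nrm (av V e Θ)) / η) := by linarith
    _ = 4 / η * (nrm Θ - nrm (av V e Θ)) := by ring

end Pool.Agent.Lib.MP_3e612f_nt.PB
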