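import Pool.Agent.Lib.MP_3e612f_nt.PB.OperA

/-! Almost invariance under words (blueprint, section Oper). -/

set_option autoImplicit false

namespace Pool.Agent.Lib.MP_3e612f_nt.PB

open Finset

variable {K : Type} [Group K] [Fintype K]

/-- triangle inequality for the square root of `nrm` -/
theorem OperD_sqrt_add (f g : K → ℝ) :
    Real.sqrt (nrm (fun z => f z + g z)) ≤ Real.sqrt (nrm f) + Real.sqrt (nrm g) := by
  have key : ∀ h : K → ℝ, Real.sqrt (nrm h) = ‖(WithLp.toLp 2 h : EuclideanSpace ℝ K)‖ := by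
    intro h
    rw [EuclideanSpace.norm_eq]
    congr 1
    unfold nrm
    refine Finset.sum_congr rfl fun z _ => ?_
    simp
  rw [key, key, key]
  have : (WithLp.toLp 2 (fun z => f z + g z) : EuclideanSpace ℝ K) =
      WithLp.toLp 2 f + WithLp.toLp 2 g := rfl
  rw [this]
  exact norm_add_le _ _

theorem OperD_nrm_comp (x : K) (f : K → ℝ) : nrm (fun z => f (z * x)) = nrm f := by
  unfold nrm
  exact Fintype.sum_equiv (Equiv.mulRight x) _ _ (fun z => rfl)

/-- the displacement of `Θ` under the right translation by `x` -/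
noncomputable def OperD_N (Θ : K → ℝ) (x : K) : ℝ := Real.sqrt (nrm (fun z => Θ (z * x) - Θ z))

theorem OperD_N_mul (Θ : K → ℝ) (x y : K) : OperD_N Θ (x * y) ≤ OperD_N Θ x + OperD_N Θ y := by
  unfold OperD_N
  have h1 : (fun z => Θ (z * (x * y)) - Θ z) =
      fun z => (Θ (z * x) - Θ z) + (Θ (z * x * y) - Θ (z * x)) := by
    funext z; rw [mul_assoc]; ring
  rw [h1]
  refine (OperD_sqrt_add _ _).trans ?_
  have h2 := OperD_nrm_comp x (fun z => Θ (z * y) - Θ z)
  rw [h2]

theorem OperD_N_inv (Θ : K → ℝ) (x : K) : OperD_N Θ x⁻¹ = OperD_N Θ x := by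
  unfold OperD_N
  rw [← OperD_nrm_comp x (fun z => Θ (z * x⁻¹) - Θ z)]
  congr 1
  unfold nrm
  refine Finset.sum_congr rfl fun z _ => ?_
  change (Θ (z * x * x⁻¹) - Θ (z * x)) ^ 2 = (Θ (z * x) - Θ z) ^ 2
  rw [mul_inv_cancel_right]
  ring

/-- almost invariance under generators -/
theorem word_bound {S : Set K} {Θ : K → ℝ} {τ : ℝ} (hτ : 0 ≤ τ)
    (hS : ∀ x ∈ S, nrm (fun z => Θ (z * x) - Θ z) ≤ τ) {x : K} (hx : x ∈ Subgroup.closure S) :
    nrm (fun z => Θ (z * x) - Θ z) ≤ (Fintype.card K : ℝ) ^ 2 * τ := by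
  classical
  set A : ℕ → Finset K := fun i => Finset.univ.filter (fun x => OperD_N Θ x ≤ i * Real.sqrt τ)
    with hA
  have hmemA : ∀ i x, x ∈ A i ↔ OperD_N Θ x ≤ i * Real.sqrt τ := by
    intro i x; simp [hA]
  have hSN : ∀ s ∈ S, OperD_N Θ s ≤ Real.sqrt τ := fun s hs => Real.sqrt_le_sqrt (hS s hs)
  have hmono : ∀ i, A i ⊆ A (i + 1) := by
    intro i y hy
    rw [hmemA] at hy ⊢
    refine hy.trans ?_
    have := Real.sqrt_nonneg τ
    push_cast
    nlinarith
  have hN1 : OperD_N Θ (1 : K) = 0 := by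
    unfold OperD_N nrm
    simp
  have claim : ∀ i : ℕ, (∀ y ∈ Subgroup.closure S, y ∈ A i) ∨ i + 1 ≤ (A i).card := by
    intro i
    induction i with
    | zero =>
        right
        have : (1 : K) ∈ A 0 := by rw [hmemA, hN1]; simp
        exact Finset.card_pos.mpr ⟨1, this⟩
    | succ i ih =>
        by_cases hc : i + 1 + 1 ≤ (A (i + 1)).card
        · exact Or.inr hc
        left
        rcases ih with ih | ih
        · exact fun y hy => hmono i (ih y hy)
        have heq : A i = A (i + 1) := Finset.eq_of_subset_of_card_le (hmono i) (by omega)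
        intro y hy
        have step : ∀ a ∈ A (i + 1), ∀ b : K, OperD_N Θ b ≤ Real.sqrt τ → a * b ∈ A (i + 1) := by
          intro a ha b hb
          rw [← heq, hmemA] at ha
          rw [hmemA]
          refine (OperD_N_mul Θ a b).trans ?_
          push_cast
          linarith
        induction hy using Subgroup.closure_induction_right with
        | one =>
            rw [hmemA, hN1]
            have := Real.sqrt_nonneg τ
            positivity
        | mul_right a _ b hb iha => exact step a iha b (hSN b hb)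
        | mul_inv_cancel a _ b hb iha =>
            exact step a iha b⁻¹ (by rw [OperD_N_inv]; exact hSN b hb)
  have hfin : x ∈ A (Fintype.card K) := by
    rcases claim (Fintype.card K) with h | h
    · exact h x hx
    · have := Finset.card_le_univ (A (Fintype.card K))
      omega
  rw [hmemA] at hfin
  have h0 : 0 ≤ nrm (fun z => Θ (z * x) - Θ z) := by
    unfold nrm
    exact Finset.sum_nonneg fun _ _ => sq_nonneg _
  have h1 : nrm (fun z => Θ (z * x) - Θ z) = OperD_N Θ x ^ 2 := by
    unfold OperD_N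
    rw [Real.sq_sqrt h0]
  rw [h1]
  have h2 : OperD_N Θ x ^ 2 ≤ ((Fintype.card K : ℝ) * Real.sqrt τ) ^ 2 := by
    apply pow_le_pow_left₀ (Real.sqrt_nonneg _) hfin
  refine h2.trans_eq ?_
  rw [mul_pow, Real.sq_sqrt hτ]

end Pool.Agent.Lib.MP_3e612f_nt.PB
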