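import Pool.Agent.Lib.MP_3e612f_nt.PB.OperB
import Pool.Agent.Lib.MP_3e612f_nt.PB.OperC
import Pool.Agent.Lib.MP_3e612f_nt.PB.OperD

/-! Umbrella file: OperB, OperC, OperD. -/
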