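import Pool.Agent.Lib.MP_3e612f_nt.PB.Gen
import Pool.Agent.Lib.MP_3e612f_nt.PB.Oper

/-! Bounded windows and splitting (blueprint, section Contr). -/

set_option autoImplicit false

namespace Pool.Agent.Lib.MP_3e612f_nt.PB

open Finset

variable {G : Type} [Group G] [Fintype G]

/-- bounded windows -/
theorem small_window (q : ℕ → ℕ) (g : ℕ → ℕ → G) {B : ℕ} (hq : Rad B q) (p r α m T : ℕ)
    (hm : m ≤ T) (Θ : G × G → ℝ) (hb : Bal (Lam q g p r α m) Θ) :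
    nrm (av (range (Qr q α m)) (ee q g p r α) Θ) ≤
      (1 - 2 / ((Fintype.card (G × G) : ℝ) ^ 2 * (B : ℝ) ^ (2 * T))) * nrm Θ := by
  obtain ⟨V, hV⟩ : ∃ V : Finset ℕ, V = range (Qr q α m) := ⟨_, rfl⟩
  rw [← hV]
  have hB1 : 1 ≤ B := le_trans (by norm_num) (le_trans (hq 0).1 (hq 0).2)
  have hBr : (1 : ℝ) ≤ B := by exact_mod_cast hB1
  have hQ := Qr_pos hq α m
  have h0 : 0 ∈ V := by rw [hV]; exact mem_range.2 hQ
  have hne : V.Nonempty := ⟨0, h0⟩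
  obtain ⟨D, hD⟩ : ∃ D : ℝ, D = nrm Θ - nrm (av V (ee q g p r α) Θ) := ⟨_, rfl⟩
  have hD0 : 0 ≤ D := by
    have := nrm_av_le hne (ee q g p r α) Θ
    rw [hD]; linarith
  have hVc : (V.card : ℝ) = (Qr q α m : ℝ) := by rw [hV, card_range]
  have hVpos : (0 : ℝ) < V.card := by rw [hVc]; exact_mod_cast hQ
  have hVle : (V.card : ℝ) ≤ (B : ℝ) ^ T := by
    rw [hVc]
    calc (Qr q α m : ℝ) ≤ ((B ^ m : ℕ) : ℝ) := by exact_mod_cast Qr_le_pow hq α m
      _ = (B : ℝ) ^ m := by push_cast; ring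
      _ ≤ (B : ℝ) ^ T := pow_le_pow_right₀ hBr hm
  have hS : ∀ x ∈ {x | ∃ u, u < Qr q α m ∧ x = ee q g p r α u},
      nrm (fun z => Θ (z * x) - Θ z) ≤ (V.card : ℝ) ^ 2 * D := by
    rintro x ⟨u, hu, rfl⟩
    have huV : u ∈ V := by rw [hV]; exact mem_range.2 hu
    have h1 := nrm_av_defect (V := V) (ee q g p r α) Θ huV h0
    rw [ee_zero, ← hD] at h1
    simp only [mul_one] at h1
    have h2 : (0 : ℝ) < (V.card : ℝ) ^ 2 := by positivity
    rw [one_div, inv_mul_le_iff₀ h2] at h1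
    exact h1
  obtain ⟨x, hx, h3⟩ := Bal_exists hb
  have h4 := word_bound (K := G × G) (mul_nonneg (sq_nonneg (V.card : ℝ)) hD0) hS hx
  have h5 : 2 * nrm Θ ≤ (Fintype.card (G × G) : ℝ) ^ 2 * (B : ℝ) ^ (2 * T) * D := by
    refine (h3.trans h4).trans ?_
    have h6 : (V.card : ℝ) ^ 2 ≤ (B : ℝ) ^ (2 * T) := by
      rw [mul_comm 2 T, pow_mul]
      exact pow_le_pow_left₀ hVpos.le hVle 2
    have h7 : (0 : ℝ) ≤ (Fintype.card (G × G) : ℝ) ^ 2 := by positivity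
    calc (Fintype.card (G × G) : ℝ) ^ 2 * ((V.card : ℝ) ^ 2 * D)
        ≤ (Fintype.card (G × G) : ℝ) ^ 2 * ((B : ℝ) ^ (2 * T) * D) :=
          mul_le_mul_of_nonneg_left (mul_le_mul_of_nonneg_right h6 hD0) h7
      _ = (Fintype.card (G × G) : ℝ) ^ 2 * (B : ℝ) ^ (2 * T) * D := by ring
  have hcard : (0 : ℝ) < (Fintype.card (G × G) : ℝ) := by
    have : 0 < Fintype.card (G × G) := Fintype.card_pos
    exact_mod_cast this
  have hC : (0 : ℝ) < (Fintype.card (G × G) : ℝ) ^ 2 * (B : ℝ) ^ (2 * T) := by positivity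
  have h8 : 2 / ((Fintype.card (G × G) : ℝ) ^ 2 * (B : ℝ) ^ (2 * T)) * nrm Θ ≤ D := by
    rw [div_mul_eq_mul_div, div_le_iff₀ hC]
    linarith
  rw [hD] at h8
  linarith

/-- the average over `m` digits contains the average over the numbers `u₀ + Qr α s * u₁` with
`u₀` of `s - k` digits, with weight at least `B⁻ᵏ` -/
theorem split_at {q : ℕ → ℕ} {g : ℕ → ℕ → G} {B : ℕ} (hq : Rad B q) (hg : Neu g) {p r k : ℕ}
    (hp : p ≤ 2 ^ k) (hr : r ≤ 2 ^ k) (α : ℕ) {m s : ℕ} (hks : k ≤ s) (hsm : s ≤ m)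
    (Θ : G × G → ℝ) :
    nrm (av (range (Qr q α m)) (ee q g p r α) Θ) ≤
      1 / (B : ℝ) ^ k * nrm (av (range (Qr q α (s - k))) (ee q g p r α)
        (av (range (Qr q (α + s) (m - s))) (ee q g p r (α + s)) Θ)) +
      (1 - 1 / (B : ℝ) ^ k) * nrm Θ := by
  have hB1 : 1 ≤ B := le_trans (by norm_num) (le_trans (hq 0).1 (hq 0).2)
  have hBr : (1 : ℝ) ≤ B := by exact_mod_cast hB1
  have hs : Qr q α s = Qr q α (s - k) * Qr q (α + (s - k)) k := by
    rw [← Qr_add]; congr 1; omega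
  have hm : Qr q α m = Qr q α s * Qr q (α + s) (m - s) := by
    rw [← Qr_add]; congr 1; omega
  have h2k : 2 ^ k ≤ Qr q (α + (s - k)) k := two_pow_le_Qr hq _ _
  have hk2 : (0 : ℕ) < 2 ^ k := by positivity
  have hQs := Qr_pos hq α s
  have hlt : ∀ {t u : ℕ}, t ≤ 2 ^ k → u < Qr q α (s - k) → t * u < Qr q α s := by
    intro t u ht hu
    calc t * u ≤ 2 ^ k * u := Nat.mul_le_mul_right u ht
      _ < 2 ^ k * Qr q α (s - k) := Nat.mul_lt_mul_of_pos_left hu hk2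
      _ = Qr q α (s - k) * 2 ^ k := mul_comm _ _
      _ ≤ Qr q α s := by rw [hs]; exact Nat.mul_le_mul_left _ h2k
  have hle : Qr q α (s - k) ≤ Qr q α s := Qr_mono hq α (Nat.sub_le s k)
  obtain ⟨φ, hφ⟩ : ∃ φ : ℕ × ℕ → ℕ, φ = fun x => x.1 + Qr q α s * x.2 := ⟨_, rfl⟩
  obtain ⟨P, hP⟩ : ∃ P : Finset (ℕ × ℕ), P = range (Qr q α (s - k)) ×ˢ
    range (Qr q (α + s) (m - s)) := ⟨_, rfl⟩
  have hinj : Set.InjOn φ (P : Set (ℕ × ℕ)) := by
    rintro ⟨a, b⟩ hab ⟨c, d⟩ hcd h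
    rw [hP, Finset.mem_coe, mem_product, mem_range, mem_range] at hab hcd
    rw [hφ] at h
    simp only at h hab hcd
    have ha : a < Qr q α s := lt_of_lt_of_le hab.1 hle
    have hc : c < Qr q α s := lt_of_lt_of_le hcd.1 hle
    have h1 : a = c := by
      have h2 := congrArg (fun t => t % Qr q α s) h
      simp only [Nat.add_mul_mod_self_left] at h2
      rwa [Nat.mod_eq_of_lt ha, Nat.mod_eq_of_lt hc] at h2
    have h2 : b = d := by
      rw [h1] at h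
      exact Nat.eq_of_mul_eq_mul_left hQs (Nat.add_left_cancel h)
    rw [h1, h2]
  obtain ⟨U, hU⟩ : ∃ U : Finset ℕ, U = P.image φ := ⟨_, rfl⟩
  have hUc : U.card = Qr q α (s - k) * Qr q (α + s) (m - s) := by
    rw [hU, card_image_of_injOn hinj, hP, card_product, card_range, card_range]
  have hUV : U ⊆ range (Qr q α m) := by
    intro u hu
    rw [hU, mem_image] at hu
    obtain ⟨⟨a, b⟩, hab, rfl⟩ := hu
    rw [hP, mem_product, mem_range, mem_range] at hab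
    simp only at hab
    rw [mem_range, hm, hφ]
    show a + Qr q α s * b < Qr q α s * Qr q (α + s) (m - s)
    have ha : a < Qr q α s := lt_of_lt_of_le hab.1 hle
    calc a + Qr q α s * b < Qr q α s + Qr q α s * b := Nat.add_lt_add_right ha _
      _ = Qr q α s * (b + 1) := by ring
      _ ≤ Qr q α s * Qr q (α + s) (m - s) := Nat.mul_le_mul_left _ hab.2
  have hUpos : 0 < U.card := by
    rw [hUc]; exact Nat.mul_pos (Qr_pos hq _ _) (Qr_pos hq _ _)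
  have hUne : U.Nonempty := card_pos.1 hUpos
  have h1 := nrm_av_split hUV hUne (ee q g p r α) Θ
  have hav : av U (ee q g p r α) Θ = av (range (Qr q α (s - k))) (ee q g p r α)
      (av (range (Qr q (α + s) (m - s))) (ee q g p r (α + s)) Θ) := by
    funext z
    unfold av
    rw [hUc, card_range, card_range, hU, sum_image hinj, hP, sum_product]
    have e1 : ∀ a ∈ range (Qr q α (s - k)),
        ∑ b ∈ range (Qr q (α + s) (m - s)), Θ (z * ee q g p r α (φ (a, b))) =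
        (Qr q (α + s) (m - s) : ℝ) * ((∑ b ∈ range (Qr q (α + s) (m - s)),
          Θ (z * ee q g p r α a * ee q g p r (α + s) b)) / (Qr q (α + s) (m - s) : ℝ)) := by
      intro a ha
      have hQ0 : ((Qr q (α + s) (m - s) : ℕ) : ℝ) ≠ 0 :=
        Nat.cast_ne_zero.2 (Qr_pos hq _ _).ne'
      rw [mul_div_cancel₀ _ hQ0]
      refine sum_congr rfl fun b _ => ?_
      rw [hφ]
      show Θ (z * ee q g p r α (a + Qr q α s * b)) = _
      rw [ee_append hq hg α s (hlt hp (mem_range.1 ha)) (hlt hr (mem_range.1 ha)), mul_assoc]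
    rw [sum_congr rfl e1, ← mul_sum]
    have hQ1 : ((Qr q (α + s) (m - s) : ℕ) : ℝ) ≠ 0 :=
      Nat.cast_ne_zero.2 (Qr_pos hq _ _).ne'
    have hQ2 : ((Qr q α (s - k) : ℕ) : ℝ) ≠ 0 :=
      Nat.cast_ne_zero.2 (Qr_pos hq _ _).ne'
    push_cast
    rw [mul_comm ((Qr q α (s - k) : ℕ) : ℝ), mul_div_mul_left _ _ hQ1]
  rw [hav] at h1
  rw [card_range] at h1
  obtain ⟨N1, hN1⟩ : ∃ N1 : ℝ, N1 = nrm (av (range (Qr q α (s - k))) (ee q g p r α)
      (av (range (Qr q (α + s) (m - s))) (ee q g p r (α + s)) Θ)) := ⟨_, rfl⟩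
  rw [← hN1] at h1 ⊢
  have hN1le : N1 ≤ nrm Θ := by
    rw [hN1, ← hav]
    exact nrm_av_le hUne _ Θ
  obtain ⟨ρ, hρ⟩ : ∃ ρ : ℝ, ρ = (U.card : ℝ) / (Qr q α m : ℝ) := ⟨_, rfl⟩
  rw [← hρ] at h1
  have hρge : 1 / (B : ℝ) ^ k ≤ ρ := by
    have hQm : (0 : ℝ) < (Qr q α m : ℝ) := by exact_mod_cast Qr_pos hq α m
    have hBk : (0 : ℝ) < (B : ℝ) ^ k := by positivity
    rw [hρ, div_le_div_iff₀ hBk hQm, one_mul]
    have h3 : Qr q α m ≤ U.card * B ^ k := by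
      rw [hUc, hm, hs]
      calc Qr q α (s - k) * Qr q (α + (s - k)) k * Qr q (α + s) (m - s)
          ≤ Qr q α (s - k) * B ^ k * Qr q (α + s) (m - s) :=
            Nat.mul_le_mul_right _ (Nat.mul_le_mul_left _ (Qr_le_pow hq _ _))
        _ = Qr q α (s - k) * Qr q (α + s) (m - s) * B ^ k := by ring
    exact_mod_cast h3
  have h4 : ρ * N1 + (1 - ρ) * nrm Θ ≤ 1 / (B : ℝ) ^ k * N1 + (1 - 1 / (B : ℝ) ^ k) * nrm Θ := by
    have h5 : (ρ - 1 / (B : ℝ) ^ k) * (N1 - nrm Θ) ≤ 0 :=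
      mul_nonpos_of_nonneg_of_nonpos (by linarith) (by linarith)
    nlinarith
  exact h1.trans h4

end Pool.Agent.Lib.MP_3e612f_nt.PB
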