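import Pool.Agent.Lib.MP_3e612f_nt.PB.ContrA

/-! Uniform contraction, the induction step (blueprint, section Contr). -/

set_option autoImplicit false

namespace Pool.Agent.Lib.MP_3e612f_nt.PB

open Finset

private theorem ContrB_av_one {G : Type} [Group G] (q : ℕ → ℕ) (g : ℕ → ℕ → G)
    (p r j l : ℕ) (hl : l = 0) (Θ : G × G → ℝ) :
    av (range (Qr q j l)) (ee q g p r j) Θ = Θ := by
  subst hl
  funext z
  rw [av, Qr_zero, range_one, sum_singleton, ee_zero, mul_one, card_singleton]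
  simp

private theorem ContrB_inv_pow {B k : ℕ} (hB : 2 ≤ B) : 0 < 1 / (B : ℝ) ^ k ∧ 1 / (B : ℝ) ^ k ≤ 1 := by
  have h1 : (1 : ℝ) ≤ (B : ℝ) := by exact_mod_cast (by omega : 1 ≤ B)
  have h2 : (1 : ℝ) ≤ (B : ℝ) ^ k := one_le_pow₀ h1
  refine ⟨by positivity, ?_⟩
  rw [div_le_one (by positivity)]
  exact h2

private theorem ContrB_caseA {G : Type} [Group G] [Fintype G] {B k n : ℕ} (hB : 2 ≤ B)
    (η η0 N : ℝ) (hη : 0 < η) (hN : N = (Fintype.card (G × G) : ℝ)) (hN1 : 1 ≤ N)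
    (hη0 : η0 = 2 / (N ^ 2 * (B : ℝ) ^ (2 * (3 * k))))
    (p r : ℕ) (hp : 1 ≤ p) (hr : 1 ≤ r) (hpr : p * r < 2 ^ k) (hk : 1 ≤ k)
    (q : ℕ → ℕ) (g : ℕ → ℕ → G) (hq : Rad B q) (hg : Neu g) (α m : ℕ)
    (ih : ∀ m', Nat.card (Lam q g p r α m') ≤ n → ∀ Θ : G × G → ℝ, Bal (Lam q g p r α m') Θ →
      nrm (av (range (Qr q α m')) (ee q g p r α) Θ) ≤ (1 - η) * nrm Θ)
    (hcard : Nat.card (Lam q g p r α m) ≤ n + 1)
    (hmin : ∀ m' < m, Lam q g p r α m' ≠ Lam q g p r α m)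
    (Θ : G × G → ℝ) (hb : Bal (Lam q g p r α m) Θ) :
    nrm (av (range (Qr q α m)) (ee q g p r α) Θ) ≤
      (1 - min η η0 / (2 * N ^ 2 * (B : ℝ) ^ k)) * nrm Θ := by
  have hBr : (1 : ℝ) ≤ (B : ℝ) := by exact_mod_cast (by omega : 1 ≤ B)
  have hBk : (1 : ℝ) ≤ (B : ℝ) ^ k := one_le_pow₀ hBr
  have hBk0 : (0 : ℝ) < (B : ℝ) ^ k := by linarith
  have hη00 : 0 < η0 := by rw [hη0]; positivity
  have hmn : 0 < min η η0 := lt_min hη hη00
  have hnn := nrm_nonneg Θ
  have hN2 : (1 : ℝ) ≤ N ^ 2 := one_le_pow₀ hN1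
  have hc : min η η0 / (2 * N ^ 2 * (B : ℝ) ^ k) ≤ η0 := by
    rw [div_le_iff₀ (by positivity)]
    have h1 : (1 : ℝ) ≤ 2 * N ^ 2 * (B : ℝ) ^ k := by nlinarith
    calc min η η0 ≤ η0 := min_le_right _ _
      _ = η0 * 1 := (mul_one _).symm
      _ ≤ η0 * (2 * N ^ 2 * (B : ℝ) ^ k) := mul_le_mul_of_nonneg_left h1 hη00.le
  by_cases hm : m ≤ 3 * k
  · have h1 := small_window q g hq p r α m (3 * k) hm Θ hb
    rw [← hN, ← hη0] at h1
    refine h1.trans (mul_le_mul_of_nonneg_right (by linarith) hnn)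
  · push Not at hm
    have hp2 : p ≤ 2 ^ k := (Nat.le_mul_of_pos_right p hr).trans hpr.le
    have hr2 : r ≤ 2 ^ k := (Nat.le_mul_of_pos_left r hp).trans hpr.le
    set D : ℝ := nrm Θ - nrm (av (range (Qr q α m)) (ee q g p r α) Θ) with hD
    have hD0 : 0 ≤ D := by
      have := nrm_av_le (V := range (Qr q α m)) (by
        rw [nonempty_range_iff]; exact (Qr_pos hq α m).ne') (ee q g p r α) Θ
      rw [hD]; linarith
    -- the two almost invariances
    have s1 : nrm Θ - nrm (av (range (Qr q α (m - k))) (ee q g p r α) Θ) ≤ (B : ℝ) ^ k * D := by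
      have h1 := split_at hq hg hp2 hr2 α (m := m) (s := m) (by omega) le_rfl Θ
      rw [ContrB_av_one q g p r (α + m) (m - m) (by omega)] at h1
      have h2 : 1 / (B : ℝ) ^ k *
          (nrm Θ - nrm (av (range (Qr q α (m - k))) (ee q g p r α) Θ)) ≤ D := by
        rw [hD]; linarith
      rw [one_div, inv_mul_le_iff₀ hBk0] at h2
      exact h2
    have s2 : nrm Θ - nrm (av (range (Qr q (α + (m - 2 * k)) (2 * k)))
        (ee q g p r (α + (m - 2 * k))) Θ) ≤ (B : ℝ) ^ k * D := by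
      have h1 := split_at hq hg hp2 hr2 α (m := m) (s := m - 2 * k) (by omega) (by omega) Θ
      rw [show m - (m - 2 * k) = 2 * k by omega] at h1
      have h3 := nrm_av_le (V := range (Qr q α (m - 2 * k - k))) (by
        rw [nonempty_range_iff]; exact (Qr_pos hq α _).ne') (ee q g p r α)
        (av (range (Qr q (α + (m - 2 * k)) (2 * k))) (ee q g p r (α + (m - 2 * k))) Θ)
      have h4 := mul_le_mul_of_nonneg_left h3 (ContrB_inv_pow (k := k) hB).1.le
      have h2 : 1 / (B : ℝ) ^ k *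
          (nrm Θ - nrm (av (range (Qr q (α + (m - 2 * k)) (2 * k)))
            (ee q g p r (α + (m - 2 * k))) Θ)) ≤ D := by
        rw [hD]; linarith
      rw [one_div, inv_mul_le_iff₀ hBk0] at h2
      exact h2
    have hle : Lam q g p r α (m - k) ≤ Lam q g p r α m := Lam_mono hq hg le_rfl (by omega)
    have hcard' : Nat.card (Lam q g p r α (m - k)) ≤ n := by
      by_contra hcon
      push Not at hcon
      exact hmin (m - k) (by omega) (Subgroup.eq_of_le_of_card_ge hle (by omega))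
    have t1 : ∀ x ∈ Lam q g p r α (m - k), nrm (fun z => Θ (z * x) - Θ z) ≤
        4 / min η η0 * ((B : ℝ) ^ k * D) := by
      intro x hx
      have h1 := almost_inv (Λ := Lam q g p r α (m - k)) (V := range (Qr q α (m - k))) (by
        rw [nonempty_range_iff]; exact (Qr_pos hq α _).ne') (e := ee q g p r α)
        (fun u hu => ee_mem q g p r α (m - k) (mem_range.mp hu)) hη (ih (m - k) hcard') Θ hx
      refine h1.trans ?_
      have h2 : 4 / η ≤ 4 / min η η0 :=
        div_le_div_of_nonneg_left (by norm_num) hmn (min_le_left _ _)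
      calc 4 / η * (nrm Θ - nrm (av (range (Qr q α (m - k))) (ee q g p r α) Θ))
          ≤ 4 / η * ((B : ℝ) ^ k * D) := mul_le_mul_of_nonneg_left s1 (by positivity)
        _ ≤ 4 / min η η0 * ((B : ℝ) ^ k * D) := mul_le_mul_of_nonneg_right h2 (by positivity)
    have t2 : ∀ x ∈ Lam q g p r (α + (m - 2 * k)) (2 * k), nrm (fun z => Θ (z * x) - Θ z) ≤
        4 / min η η0 * ((B : ℝ) ^ k * D) := by
      intro x hx
      have h1 := almost_inv (Λ := Lam q g p r (α + (m - 2 * k)) (2 * k))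
        (V := range (Qr q (α + (m - 2 * k)) (2 * k))) (by
        rw [nonempty_range_iff]; exact (Qr_pos hq _ _).ne') (e := ee q g p r (α + (m - 2 * k)))
        (fun u hu => ee_mem q g p r (α + (m - 2 * k)) (2 * k) (mem_range.mp hu)) hη00
        (fun Θ' hΘ' => by
          have h1 := small_window q g hq p r (α + (m - 2 * k)) (2 * k) (3 * k) (by omega) Θ' hΘ'
          rw [← hN, ← hη0] at h1
          exact h1) Θ hx
      refine h1.trans ?_
      have h2 : 4 / η0 ≤ 4 / min η η0 :=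
        div_le_div_of_nonneg_left (by norm_num) hmn (min_le_right _ _)
      calc 4 / η0 * (nrm Θ - nrm (av (range (Qr q (α + (m - 2 * k)) (2 * k)))
            (ee q g p r (α + (m - 2 * k))) Θ))
          ≤ 4 / η0 * ((B : ℝ) ^ k * D) := mul_le_mul_of_nonneg_left s2 (by positivity)
        _ ≤ 4 / min η η0 * ((B : ℝ) ^ k * D) := mul_le_mul_of_nonneg_right h2 (by positivity)
    obtain ⟨x, hx, hx2⟩ := Bal_exists hb
    have hgen := Lam_gen (α := α) (m := m) (m' := m - k) hq hg hp hr hpr (by omega) (by omega)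
    rw [show m - k - k = m - 2 * k by omega, show m - (m - k) + k = 2 * k by omega] at hgen
    have hxc : x ∈ Subgroup.closure
        ((Lam q g p r α (m - k) : Set (G × G)) ∪ (Lam q g p r (α + (m - 2 * k)) (2 * k) : Set (G × G))) := by
      rw [Subgroup.closure_union, Subgroup.closure_eq, Subgroup.closure_eq]
      exact hgen hx
    have h5 := word_bound (τ := 4 / min η η0 * ((B : ℝ) ^ k * D)) (by positivity)
      (fun y hy => by
        rcases hy with hy | hy
        · exact t1 y hy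
        · exact t2 y hy) hxc
    rw [← hN] at h5
    have h6 := hx2.trans h5
    have h7 : min η η0 / (2 * N ^ 2 * (B : ℝ) ^ k) * nrm Θ ≤ D := by
      rw [div_mul_eq_mul_div, div_le_iff₀ (by positivity)]
      have h8 : min η η0 * (2 * nrm Θ) ≤ min η η0 * (N ^ 2 * (4 / min η η0 * ((B : ℝ) ^ k * D))) :=
        mul_le_mul_of_nonneg_left h6 hmn.le
      have h9 : min η η0 * (N ^ 2 * (4 / min η η0 * ((B : ℝ) ^ k * D))) =
          4 * (N ^ 2 * ((B : ℝ) ^ k * D)) := by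
        field_simp
      rw [h9] at h8
      nlinarith
    rw [hD] at h7
    linarith

/-- the induction step -/
theorem contraction_step {G : Type} [Group G] [Fintype G] {B k n : ℕ}
    (η : ℝ) (hη : 0 < η) (hη1 : η ≤ 1)
    (ih : ∀ p r : ℕ, 1 ≤ p → 1 ≤ r → p * r < 2 ^ k →
      ∀ (q : ℕ → ℕ) (g : ℕ → ℕ → G), Rad B q → Neu g → ∀ α m : ℕ,
      Nat.card (Lam q g p r α m) ≤ n → ∀ Θ : G × G → ℝ, Bal (Lam q g p r α m) Θ →
      nrm (av (range (Qr q α m)) (ee q g p r α) Θ) ≤ (1 - η) * nrm Θ) :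
    ∃ η' : ℝ, 0 < η' ∧ η' ≤ 1 ∧ ∀ p r : ℕ, 1 ≤ p → 1 ≤ r → p * r < 2 ^ k →
      ∀ (q : ℕ → ℕ) (g : ℕ → ℕ → G), Rad B q → Neu g → ∀ α m : ℕ,
      Nat.card (Lam q g p r α m) ≤ n + 1 → ∀ Θ : G × G → ℝ, Bal (Lam q g p r α m) Θ →
      nrm (av (range (Qr q α m)) (ee q g p r α) Θ) ≤ (1 - η') * nrm Θ := by
  by_cases hB : 2 ≤ B
  swap
  · refine ⟨1, one_pos, le_rfl, fun p r _ _ _ q g hq => ?_⟩
    have := hq 0
    omega
  set N : ℝ := (Fintype.card (G × G) : ℝ) with hN
  have hN1 : 1 ≤ N := by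
    rw [hN]
    exact_mod_cast Fintype.card_pos
  set η0 : ℝ := 2 / (N ^ 2 * (B : ℝ) ^ (2 * (3 * k))) with hη0
  set c : ℝ := min η η0 / (2 * N ^ 2 * (B : ℝ) ^ k) with hc
  have hBr : (1 : ℝ) ≤ (B : ℝ) := by exact_mod_cast (by omega : 1 ≤ B)
  have hBk : (1 : ℝ) ≤ (B : ℝ) ^ k := one_le_pow₀ hBr
  have hη00 : 0 < η0 := by rw [hη0]; positivity
  have hmn : 0 < min η η0 := lt_min hη hη00
  have hN2 : (1 : ℝ) ≤ N ^ 2 := one_le_pow₀ hN1
  have hc0 : 0 < c := by rw [hc]; positivity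
  have hc1 : c ≤ 1 := by
    rw [hc, div_le_one (by positivity)]
    calc min η η0 ≤ η := min_le_left _ _
      _ ≤ 1 := hη1
      _ ≤ 2 * N ^ 2 * (B : ℝ) ^ k := by nlinarith
  obtain ⟨hi0, hi1⟩ := ContrB_inv_pow (B := B) (k := k) hB
  refine ⟨1 / (B : ℝ) ^ k * c, by positivity, by nlinarith, ?_⟩
  intro p r hp hr hpr q g hq hg α m hcard Θ hb
  have hk : 1 ≤ k := by
    rcases Nat.eq_zero_or_pos k with h | h
    · subst h
      have : 1 ≤ p * r := Nat.mul_pos hp hr
      simp at hpr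
      omega
    · exact h
  have hnn := nrm_nonneg Θ
  have hp2 : p ≤ 2 ^ k := (Nat.le_mul_of_pos_right p hr).trans hpr.le
  have hr2 : r ≤ 2 ^ k := (Nat.le_mul_of_pos_left r hp).trans hpr.le
  classical
  have hex : ∃ m', Lam q g p r α m' = Lam q g p r α m := ⟨m, rfl⟩
  set m1 := Nat.find hex with hm1
  have hm1e : Lam q g p r α m1 = Lam q g p r α m := Nat.find_spec hex
  have hm1m : m1 ≤ m := Nat.find_min' hex rfl
  have hmin : ∀ m' < m1, Lam q g p r α m' ≠ Lam q g p r α m1 := by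
    intro m' hm'
    rw [hm1e]
    exact Nat.find_min hex hm'
  have caseA : ∀ Θ' : G × G → ℝ, Bal (Lam q g p r α m) Θ' →
      nrm (av (range (Qr q α m1)) (ee q g p r α) Θ') ≤ (1 - c) * nrm Θ' := by
    intro Θ' hb'
    exact ContrB_caseA (n := n) hB η η0 N hη hN hN1 hη0 p r hp hr hpr hk q g hq hg α m1
      (fun m' => ih p r hp hr hpr q g hq hg α m') (by rw [hm1e]; exact hcard) hmin Θ'
      (by rw [hm1e]; exact hb')
  by_cases hmk : m1 + k ≤ m
  · have h1 := split_at hq hg hp2 hr2 α (m := m) (s := m1 + k) (by omega) hmk Θ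
    rw [show m1 + k - k = m1 by omega] at h1
    set Y := av (range (Qr q (α + (m1 + k)) (m - (m1 + k)))) (ee q g p r (α + (m1 + k))) Θ with hY
    have hYb : Bal (Lam q g p r α m) Y := by
      refine Bal_av (fun u hu y => ?_) hb
      have hu' : ee q g p r (α + (m1 + k)) u ∈ Lam q g p r α m :=
        Lam_mono (α := α + (m1 + k)) (m := m - (m1 + k)) hq hg (by omega) (by omega)
          (ee_mem q g p r _ _ (mem_range.mp hu))
      constructor
      · intro hy
        exact Subgroup.mul_mem _ (Subgroup.mul_mem _ hu' hy) (Subgroup.inv_mem _ hu')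
      · intro hy
        have h2 := Subgroup.mul_mem _ (Subgroup.mul_mem _ (Subgroup.inv_mem _ hu') hy) hu'
        have h3 : (ee q g p r (α + (m1 + k)) u)⁻¹ *
            (ee q g p r (α + (m1 + k)) u * y * (ee q g p r (α + (m1 + k)) u)⁻¹) *
            ee q g p r (α + (m1 + k)) u = y := by group
        rwa [h3] at h2
    have h2 := caseA Y hYb
    have h3 : nrm Y ≤ nrm Θ := nrm_av_le (by
      rw [nonempty_range_iff]; exact (Qr_pos hq _ _).ne') _ _
    have h4 : nrm (av (range (Qr q α m1)) (ee q g p r α) Y) ≤ (1 - c) * nrm Θ :=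
      h2.trans (mul_le_mul_of_nonneg_left h3 (by linarith))
    have h5 := mul_le_mul_of_nonneg_left h4 hi0.le
    calc nrm (av (range (Qr q α m)) (ee q g p r α) Θ)
        ≤ 1 / (B : ℝ) ^ k * nrm (av (range (Qr q α m1)) (ee q g p r α) Y) +
          (1 - 1 / (B : ℝ) ^ k) * nrm Θ := h1
      _ ≤ 1 / (B : ℝ) ^ k * ((1 - c) * nrm Θ) + (1 - 1 / (B : ℝ) ^ k) * nrm Θ := by linarith
      _ = (1 - 1 / (B : ℝ) ^ k * c) * nrm Θ := by ring
  · push Not at hmk
    have h1 := nrm_av_split (U := range (Qr q α m1)) (V := range (Qr q α m))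
      (range_subset_range.mpr (Qr_mono hq α hm1m)) (by
        rw [nonempty_range_iff]; exact (Qr_pos hq _ _).ne') (ee q g p r α) Θ
    rw [card_range, card_range] at h1
    have hA := caseA Θ hb
    have hQ1 : (0 : ℝ) < (Qr q α m1 : ℝ) := by exact_mod_cast Qr_pos hq α m1
    have hQ2 : (0 : ℝ) < (Qr q (α + m1) (m - m1) : ℝ) := by exact_mod_cast Qr_pos hq (α + m1) (m - m1)
    have hρ : (Qr q α m1 : ℝ) / (Qr q α m : ℝ) = 1 / (Qr q (α + m1) (m - m1) : ℝ) := by
      have : Qr q α m = Qr q α m1 * Qr q (α + m1) (m - m1) := by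
        rw [← Qr_add]
        congr 1
        omega
      rw [this]
      push_cast
      field_simp
    have hρ1 : 1 / (B : ℝ) ^ k ≤ (Qr q α m1 : ℝ) / (Qr q α m : ℝ) := by
      rw [hρ]
      refine one_div_le_one_div_of_le hQ2 ?_
      calc (Qr q (α + m1) (m - m1) : ℝ) ≤ (B : ℝ) ^ (m - m1) := by
            exact_mod_cast Qr_le_pow hq (α + m1) (m - m1)
        _ ≤ (B : ℝ) ^ k := pow_le_pow_right₀ hBr (by omega)
    set ρ : ℝ := (Qr q α m1 : ℝ) / (Qr q α m : ℝ) with hρdef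
    have hρ0 : 0 ≤ ρ := hi0.le.trans hρ1
    have h5 := mul_le_mul_of_nonneg_left hA hρ0
    have h6 : 1 / (B : ℝ) ^ k * (c * nrm Θ) ≤ ρ * (c * nrm Θ) :=
      mul_le_mul_of_nonneg_right hρ1 (by positivity)
    calc nrm (av (range (Qr q α m)) (ee q g p r α) Θ)
        ≤ ρ * nrm (av (range (Qr q α m1)) (ee q g p r α) Θ) + (1 - ρ) * nrm Θ := h1
      _ ≤ ρ * ((1 - c) * nrm Θ) + (1 - ρ) * nrm Θ := by linarith
      _ = nrm Θ - ρ * (c * nrm Θ) := by ring
      _ ≤ nrm Θ - 1 / (B : ℝ) ^ k * (c * nrm Θ) := by linarith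
      _ = (1 - 1 / (B : ℝ) ^ k * c) * nrm Θ := by ring

end Pool.Agent.Lib.MP_3e612f_nt.PB
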