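import Pool.Agent.Lib.MP_3e612f_nt.PB.ContrB

/-! Uniform contraction (blueprint, section Contr). -/

set_option autoImplicit false

namespace Pool.Agent.Lib.MP_3e612f_nt.PB

open Finset

private theorem ContrC_iter (G : Type) [Group G] [Fintype G] (B k n : ℕ) :
    ∃ η : ℝ, 0 < η ∧ η ≤ 1 ∧ ∀ p r : ℕ, 1 ≤ p → 1 ≤ r → p * r < 2 ^ k →
      ∀ (q : ℕ → ℕ) (g : ℕ → ℕ → G), Rad B q → Neu g → ∀ α m : ℕ,
      Nat.card (Lam q g p r α m) ≤ n → ∀ Θ : G × G → ℝ, Bal (Lam q g p r α m) Θ →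
      nrm (av (range (Qr q α m)) (ee q g p r α) Θ) ≤ (1 - η) * nrm Θ := by
  induction n with
  | zero =>
    refine ⟨1, one_pos, le_refl _, ?_⟩
    intro p r _ _ _ q g _ _ α m hcard
    have h : 0 < Nat.card (Lam q g p r α m) := Nat.card_pos
    omega
  | succ n ih =>
    obtain ⟨η, h0, h1, h2⟩ := ih
    exact contraction_step η h0 h1 h2

theorem contraction (G : Type) [Group G] [Fintype G] (B k : ℕ) :
    ∃ η : ℝ, 0 < η ∧ η ≤ 1 ∧ ∀ p r : ℕ, 1 ≤ p → 1 ≤ r → p * r < 2 ^ k →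
      ∀ (q : ℕ → ℕ) (g : ℕ → ℕ → G), Rad B q → Neu g → ∀ α m : ℕ,
      ∀ Θ : G × G → ℝ, Bal (Lam q g p r α m) Θ →
      nrm (av (range (Qr q α m)) (ee q g p r α) Θ) ≤ (1 - η) * nrm Θ := by
  obtain ⟨η, h0, h1, h2⟩ := ContrC_iter G B k (Nat.card (G × G))
  refine ⟨η, h0, h1, ?_⟩
  intro p r hp hr hpr q g hq hg α m Θ hb
  exact h2 p r hp hr hpr q g hq hg α m (Subgroup.card_le_card_group _) Θ hb

end Pool.Agent.Lib.MP_3e612f_nt.PB
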