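import Pool.Agent.Lib.MP_3e612f_nt.PB.KatFin
import Pool.Agent.Lib.MP_3e612f_nt.MuPNT

/-! Moebius in residue classes over intervals; cosine sums (blueprint, section Dav). -/

set_option autoImplicit false

namespace Pool.Agent.Lib.MP_3e612f_nt.PB

open Finset

private theorem DavA_init (b : ℕ) (hb : 1 ≤ b) {ε : ℝ} (hε : 0 < ε) :
    ∃ N0 : ℕ, ∀ N ≥ N0, ∀ x : ℕ, x ≤ N → ∀ c : ℕ,
      |∑ n ∈ Icc 1 x, (if n % b = c then mu n else 0)| ≤ ε * N := by
  have h : ∀ᶠ x : ℕ in Filter.atTop, ∀ c ∈ range b,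
      |(∑ n ∈ Icc 1 x, (if n % b = c then mu n else 0)) / (x : ℝ)| ≤ ε := by
    rw [Filter.eventually_all_finset]
    intro c _
    have h1 := (SA.mu_ap b c hb).eventually (Metric.closedBall_mem_nhds (0 : ℝ) hε)
    filter_upwards [h1] with x hx
    rwa [Real.dist_eq, sub_zero] at hx
  obtain ⟨x0, hx0⟩ := Filter.eventually_atTop.1 h
  refine ⟨⌈(x0 : ℝ) / ε⌉₊, fun N hN x hx c => ?_⟩
  have hN' : (x0 : ℝ) ≤ ε * N := by
    have h1 : (x0 : ℝ) / ε ≤ N := (Nat.le_ceil _).trans (by exact_mod_cast hN)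
    rw [div_le_iff₀ hε] at h1
    linarith
  have hxN : (x : ℝ) ≤ N := by exact_mod_cast hx
  have hε0 : 0 ≤ ε * N := by positivity
  by_cases hc : c < b
  · by_cases hx1 : x0 ≤ x
    · rcases Nat.eq_zero_or_pos x with h0 | h0
      · subst h0
        simpa using hε0
      have h2 := hx0 x hx1 c (mem_range.2 hc)
      have hxp : (0 : ℝ) < x := by exact_mod_cast h0
      rw [abs_div, abs_of_pos hxp, div_le_iff₀ hxp] at h2
      exact h2.trans (mul_le_mul_of_nonneg_left hxN hε.le)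
    · push Not at hx1
      have h3 : |∑ n ∈ Icc 1 x, (if n % b = c then mu n else 0)| ≤ x := by
        refine (abs_sum_le_sum_abs _ _).trans ?_
        calc ∑ n ∈ Icc 1 x, |if n % b = c then mu n else 0| ≤ ∑ n ∈ Icc 1 x, (1 : ℝ) := by
              apply sum_le_sum
              intro n _
              split_ifs
              · exact abs_mu_le n
              · simp
          _ = x := by simp
      have h4 : (x : ℝ) ≤ x0 := by exact_mod_cast hx1.le
      linarith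
  · rw [sum_eq_zero]
    · simpa using hε0
    · intro n _
      rw [if_neg]
      intro hn
      have := Nat.mod_lt n (show b > 0 by omega)
      omega

/-- sums in residue classes over intervals -/
theorem mu_interval (b : ℕ) (hb : 1 ≤ b) {ε : ℝ} (hε : 0 < ε) :
    ∃ N0 : ℕ, ∀ N ≥ N0, ∀ x y : ℕ, x ≤ y → y ≤ N → ∀ c : ℕ,
      |∑ n ∈ Ioc x y, (if n % b = c then mu n else 0)| ≤ ε * N := by
  obtain ⟨N0, h⟩ := DavA_init b hb (half_pos hε)
  refine ⟨N0, fun N hN x y hxy hy c => ?_⟩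
  have h1 := h N hN x (hxy.trans hy) c
  have h2 := h N hN y hy c
  have h3 : ∑ n ∈ Icc 1 y, (if n % b = c then mu n else 0) =
      ∑ n ∈ Icc 1 x, (if n % b = c then mu n else 0) +
      ∑ n ∈ Ioc x y, (if n % b = c then mu n else 0) := by
    rw [← sum_union]
    · congr 1
      ext n
      simp only [mem_union, mem_Icc, mem_Ioc]
      omega
    · rw [disjoint_left]
      intro n hn hn'
      simp only [mem_Icc, mem_Ioc] at hn hn'
      omega
  rw [abs_le] at h1 h2 ⊢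
  constructor <;> linarith [h1.1, h1.2, h2.1, h2.2]

private theorem DavA_sin {ϑ s : ℝ} (h : ∀ m : ℤ, s ≤ |ϑ - m|) :
    2 * s ≤ |Real.sin (Real.pi * ϑ)| := by
  obtain ⟨t, ht⟩ : ∃ t, t = ϑ - round ϑ := ⟨_, rfl⟩
  have h1 : s ≤ |t| := by rw [ht]; exact h _
  have h2 : |t| ≤ 1 / 2 := by rw [ht]; exact abs_sub_round ϑ
  have h3 : |Real.sin (Real.pi * ϑ)| = |Real.sin (Real.pi * t)| := by
    have e : Real.pi * t = Real.pi * ϑ - (round ϑ : ℤ) * Real.pi := by rw [ht]; ring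
    rw [e, Real.sin_sub_int_mul_pi, abs_mul]
    have : |((-1 : ℝ) ^ (round ϑ))| = 1 := by
      rw [abs_zpow, abs_neg, abs_one, one_zpow]
    rw [this, one_mul]
  have h4 : |Real.sin (Real.pi * t)| = Real.sin (Real.pi * |t|) := by
    rcases abs_cases t with ⟨e, h0⟩ | ⟨e, h0⟩
    · rw [e, abs_of_nonneg]
      apply Real.sin_nonneg_of_nonneg_of_le_pi
      · positivity
      · rw [e] at h2
        nlinarith [Real.pi_pos]
    · rw [e, mul_neg, Real.sin_neg, abs_of_nonpos]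
      have : 0 ≤ Real.sin (Real.pi * (-t)) := by
        apply Real.sin_nonneg_of_nonneg_of_le_pi
        · nlinarith [Real.pi_pos]
        · rw [e] at h2
          nlinarith [Real.pi_pos]
      rw [mul_neg, Real.sin_neg] at this
      linarith
  rw [h3, h4]
  have h5 : 2 / Real.pi * (Real.pi * |t|) ≤ Real.sin (Real.pi * |t|) := by
    apply Real.mul_le_sin
    · positivity
    · nlinarith [Real.pi_pos]
  have h6 : 2 / Real.pi * (Real.pi * |t|) = 2 * |t| := by
    field_simp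
  linarith

/-- cosine sums away from the integers -/
theorem cos_sum_bound {ϑ φ s : ℝ} (hs : 0 < s) (h : ∀ m : ℤ, s ≤ |ϑ - m|) (X : ℕ) :
    |∑ m ∈ Icc 1 X, Real.cos (2 * Real.pi * (m * ϑ + φ))| ≤ 1 / s := by
  have h1 := DavA_sin h
  have key : ∀ X : ℕ, 2 * Real.sin (Real.pi * ϑ) *
      ∑ m ∈ Icc 1 X, Real.cos (2 * Real.pi * (m * ϑ + φ)) =
      Real.sin (2 * Real.pi * ((X + 1 / 2) * ϑ + φ)) - Real.sin (2 * Real.pi * (1 / 2 * ϑ + φ)) := by
    intro X
    induction X with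
    | zero => simp
    | succ X ih =>
      rw [sum_Icc_succ_top (by omega), mul_add, ih]
      have e1 : 2 * Real.pi * ((((X + 1 : ℕ) : ℝ) + 1 / 2) * ϑ + φ) =
        2 * Real.pi * (((X + 1 : ℕ) : ℝ) * ϑ + φ) + Real.pi * ϑ := by ring
      have e2 : 2 * Real.pi * (((X : ℝ) + 1 / 2) * ϑ + φ) =
        2 * Real.pi * (((X + 1 : ℕ) : ℝ) * ϑ + φ) - Real.pi * ϑ := by push_cast; ring
      rw [e1, e2, Real.sin_add, Real.sin_sub]
      ring
  have h2 := key X
  obtain ⟨W, hW⟩ : ∃ W, W = ∑ m ∈ Icc 1 X, Real.cos (2 * Real.pi * (m * ϑ + φ)) := ⟨_, rfl⟩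
  rw [← hW] at h2 ⊢
  have h3 : |2 * Real.sin (Real.pi * ϑ) * W| ≤ 2 := by
    rw [h2]
    have a1 := Real.abs_sin_le_one (2 * Real.pi * ((X + 1 / 2) * ϑ + φ))
    have a2 := Real.abs_sin_le_one (2 * Real.pi * (1 / 2 * ϑ + φ))
    rw [abs_le] at a1 a2 ⊢
    constructor <;> linarith [a1.1, a1.2, a2.1, a2.2]
  rw [abs_mul, abs_mul, abs_two] at h3
  rw [le_div_iff₀ hs]
  have h4 : 2 * s * |W| ≤ |Real.sin (Real.pi * ϑ)| * |W| :=
    mul_le_mul_of_nonneg_right h1 (abs_nonneg _)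
  have h5 : 0 ≤ |W| * s := by positivity
  linarith

end Pool.Agent.Lib.MP_3e612f_nt.PB
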