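import Pool.Agent.Lib.MP_3e612f_nt.PB.DavA

/-! Frequencies with small denominators (blueprint, section Dav). -/

set_option autoImplicit false

namespace Pool.Agent.Lib.MP_3e612f_nt.PB

open Finset

/-- splitting into residue classes -/
theorem DavB_res (b : ℕ) (hb : 1 ≤ b) (a : ℤ) (φ : ℝ) (s : Finset ℕ) :
    ∑ n ∈ s, mu n * Real.cos (2 * Real.pi * (n * ((a : ℝ) / b) + φ)) =
      ∑ c ∈ range b, Real.cos (2 * Real.pi * (c * ((a : ℝ) / b) + φ)) *
        ∑ n ∈ s, (if n % b = c then mu n else 0) := by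
  have h1 : ∀ n : ℕ, Real.cos (2 * Real.pi * (n * ((a : ℝ) / b) + φ)) =
      Real.cos (2 * Real.pi * (((n % b : ℕ) : ℝ) * ((a : ℝ) / b) + φ)) := by
    intro n
    have hb0 : (b : ℝ) ≠ 0 := by
      have : 0 < b := hb
      exact_mod_cast this.ne'
    obtain ⟨m, hm⟩ : ∃ m, m = n / b := ⟨_, rfl⟩
    have h2 : (n : ℝ) = (b : ℝ) * (m : ℝ) + ((n % b : ℕ) : ℝ) := by
      rw [hm]
      exact_mod_cast (Nat.div_add_mod n b).symm
    have h3 : 2 * Real.pi * (n * ((a : ℝ) / b) + φ) =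
        2 * Real.pi * (((n % b : ℕ) : ℝ) * ((a : ℝ) / b) + φ) +
          (((m : ℤ) * a : ℤ) : ℝ) * (2 * Real.pi) := by
      rw [h2]
      push_cast
      field_simp
      ring
    rw [h3, Real.cos_add_int_mul_two_pi]
  simp only [Finset.mul_sum]
  rw [Finset.sum_comm]
  refine Finset.sum_congr rfl fun n _ => ?_
  have h4 : ∀ c ∈ range b, Real.cos (2 * Real.pi * (c * ((a : ℝ) / b) + φ)) *
      (if n % b = c then mu n else 0) =
      if n % b = c then mu n * Real.cos (2 * Real.pi * (n * ((a : ℝ) / b) + φ)) else 0 := by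
    intro c _
    split_ifs with h
    · rw [h1 n, h, mul_comm]
    · rw [mul_zero]
  rw [Finset.sum_congr rfl h4, Finset.sum_ite_eq, if_pos]
  rw [Finset.mem_range]
  exact Nat.mod_lt _ hb

/-- one block -/
theorem DavB_block (b : ℕ) (hb : 1 ≤ b) (a : ℤ) (θ φ : ℝ) (x y : ℕ) (hxy : x ≤ y) {E : ℝ}
    (hE : ∀ c : ℕ, |∑ n ∈ Ioc x y, (if n % b = c then mu n else 0)| ≤ E) :
    |∑ n ∈ Ioc x y, mu n * Real.cos (2 * Real.pi * (n * θ + φ))| ≤
      b * E + ((y : ℝ) - x) * (2 * Real.pi * (((y : ℝ) - x) * |θ - a / b|)) := by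
  set φ' : ℝ := φ + x * (θ - a / b) with hφ'
  have hyx : (x : ℝ) ≤ y := by exact_mod_cast hxy
  have h1 : |∑ n ∈ Ioc x y, mu n * Real.cos (2 * Real.pi * (n * ((a : ℝ) / b) + φ'))| ≤ b * E := by
    rw [DavB_res b hb a φ' (Ioc x y)]
    refine (Finset.abs_sum_le_sum_abs _ _).trans ?_
    have h2 : ∀ c ∈ range b, |Real.cos (2 * Real.pi * (c * ((a : ℝ) / b) + φ')) *
        ∑ n ∈ Ioc x y, (if n % b = c then mu n else 0)| ≤ E := by
      intro c _
      rw [abs_mul]
      calc |Real.cos (2 * Real.pi * (c * ((a : ℝ) / b) + φ'))| *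
            |∑ n ∈ Ioc x y, (if n % b = c then mu n else 0)| ≤ 1 * E :=
            mul_le_mul (Real.abs_cos_le_one _) (hE c) (abs_nonneg _) zero_le_one
        _ = E := one_mul E
    refine (Finset.sum_le_sum h2).trans (le_of_eq ?_)
    rw [Finset.sum_const, Finset.card_range, nsmul_eq_mul]
  have h3 : |∑ n ∈ Ioc x y, mu n * (Real.cos (2 * Real.pi * (n * θ + φ)) -
      Real.cos (2 * Real.pi * (n * ((a : ℝ) / b) + φ')))| ≤
      ((y : ℝ) - x) * (2 * Real.pi * (((y : ℝ) - x) * |θ - a / b|)) := by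
    refine (Finset.abs_sum_le_sum_abs _ _).trans ?_
    have h4 : ∀ n ∈ Ioc x y, |mu n * (Real.cos (2 * Real.pi * (n * θ + φ)) -
        Real.cos (2 * Real.pi * (n * ((a : ℝ) / b) + φ')))| ≤
        2 * Real.pi * (((y : ℝ) - x) * |θ - a / b|) := by
      intro n hn
      rw [Finset.mem_Ioc] at hn
      have hn1 : (x : ℝ) ≤ n := by exact_mod_cast hn.1.le
      have hn2 : (n : ℝ) ≤ y := by exact_mod_cast hn.2
      rw [abs_mul]
      have h5 := Real.abs_cos_sub_cos_le (2 * Real.pi * (n * θ + φ))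
        (2 * Real.pi * (n * ((a : ℝ) / b) + φ'))
      have h6 : 2 * Real.pi * (n * θ + φ) - 2 * Real.pi * (n * ((a : ℝ) / b) + φ') =
          2 * Real.pi * (((n : ℝ) - x) * (θ - a / b)) := by
        rw [hφ']
        ring
      have h7 : |2 * Real.pi * (((n : ℝ) - x) * (θ - a / b))| ≤
          2 * Real.pi * (((y : ℝ) - x) * |θ - a / b|) := by
        rw [abs_mul (2 * Real.pi), abs_of_nonneg (by positivity : (0 : ℝ) ≤ 2 * Real.pi),
          abs_mul, abs_of_nonneg (by linarith : (0 : ℝ) ≤ (n : ℝ) - x)]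
        refine mul_le_mul_of_nonneg_left ?_ (by positivity)
        exact mul_le_mul_of_nonneg_right (by linarith) (abs_nonneg _)
      rw [h6] at h5
      calc |mu n| * |Real.cos (2 * Real.pi * (n * θ + φ)) -
            Real.cos (2 * Real.pi * (n * ((a : ℝ) / b) + φ'))| ≤
            1 * (2 * Real.pi * (((y : ℝ) - x) * |θ - a / b|)) :=
            mul_le_mul (abs_mu_le n) (h5.trans h7) (abs_nonneg _) zero_le_one
        _ = _ := one_mul _
    refine (Finset.sum_le_sum h4).trans (le_of_eq ?_)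
    rw [Finset.sum_const, Nat.card_Ioc, nsmul_eq_mul, Nat.cast_sub hxy]
  have h8 : ∑ n ∈ Ioc x y, mu n * Real.cos (2 * Real.pi * (n * θ + φ)) =
      ∑ n ∈ Ioc x y, mu n * Real.cos (2 * Real.pi * (n * ((a : ℝ) / b) + φ')) +
      ∑ n ∈ Ioc x y, mu n * (Real.cos (2 * Real.pi * (n * θ + φ)) -
        Real.cos (2 * Real.pi * (n * ((a : ℝ) / b) + φ'))) := by
    rw [← Finset.sum_add_distrib]
    refine Finset.sum_congr rfl fun n _ => ?_
    ring
  rw [h8]
  exact (abs_add_le _ _).trans (add_le_add h1 h3)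

/-- consecutive blocks -/
theorem DavB_blocks (f : ℕ → ℝ) (x : ℕ → ℕ) (hx : Monotone x) (R : ℕ) :
    ∑ i ∈ range R, ∑ n ∈ Ioc (x i) (x (i + 1)), f n = ∑ n ∈ Ioc (x 0) (x R), f n := by
  induction R with
  | zero => simp
  | succ R ih =>
    rw [Finset.sum_range_succ, ih, Finset.sum_Ioc_consecutive f (hx (Nat.zero_le R))
      (hx (Nat.le_succ R))]

/-- frequencies with small denominators -/
theorem dav_major (B0 : ℕ) (C : ℝ) {ε : ℝ} (hε : 0 < ε) :
    ∃ N0 : ℕ, ∀ N ≥ N0, ∀ θ φ : ℝ, (∃ b : ℕ, 1 ≤ b ∧ b ≤ B0 ∧ ∃ a : ℤ, |θ - a / b| ≤ C / N) →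
      |∑ n ∈ Icc 1 N, mu n * Real.cos (2 * Real.pi * (n * θ + φ))| ≤ ε * N := by
  set C' : ℝ := |C| + 1 with hC'
  have hC'0 : 0 < C' := by positivity
  have hpi := Real.pi_pos
  set R : ℕ := ⌈8 * Real.pi * C' / ε⌉₊ + 1 with hR
  have hR1 : 1 ≤ R := by omega
  have hR0 : (0 : ℝ) < R := by exact_mod_cast hR1
  have hRε : 8 * Real.pi * C' / ε ≤ R := by
    rw [hR]
    push_cast
    have := Nat.le_ceil (8 * Real.pi * C' / ε)
    linarith
  have hRε' : 2 * Real.pi * C' ≤ ε / 4 * R := by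
    rw [div_le_iff₀ hε] at hRε
    linarith
  set ε' : ℝ := ε / (2 * R * (B0 + 1)) with hε'
  have hε'0 : 0 < ε' := by positivity
  have hM : ∀ b : ℕ, ∃ N0 : ℕ, 1 ≤ b → ∀ N ≥ N0, ∀ x y : ℕ, x ≤ y → y ≤ N → ∀ c : ℕ,
      |∑ n ∈ Ioc x y, (if n % b = c then mu n else 0)| ≤ ε' * N := by
    intro b
    by_cases hb : 1 ≤ b
    · obtain ⟨N0, h⟩ := mu_interval b hb hε'0
      exact ⟨N0, fun _ => h⟩
    · exact ⟨0, fun h => absurd h hb⟩
  choose M hM using hM
  refine ⟨R + ∑ b ∈ range (B0 + 1), M b, ?_⟩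
  rintro N hN θ φ ⟨b, hb1, hb2, a, hab⟩
  have hNR : R ≤ N := le_trans (Nat.le_add_right _ _) hN
  have hNM : M b ≤ N := by
    have h1 : M b ≤ ∑ b ∈ range (B0 + 1), M b :=
      Finset.single_le_sum (f := M) (fun i _ => Nat.zero_le _)
        (Finset.mem_range.2 (by omega))
    omega
  have hN0 : (0 : ℝ) < N := by
    have : 0 < N := by omega
    exact_mod_cast this
  have hNRr : (R : ℝ) ≤ N := by exact_mod_cast hNR
  have hD : |θ - a / b| ≤ C' / N := by
    refine hab.trans ?_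
    refine div_le_div_of_nonneg_right ?_ hN0.le
    rw [hC']
    linarith [le_abs_self C]
  -- the blocks
  set x : ℕ → ℕ := fun i => i * N / R with hx
  have hxm : Monotone x := by
    intro i j hij
    exact Nat.div_le_div_right (Nat.mul_le_mul_right N hij)
  have hx0 : x 0 = 0 := by simp [hx]
  have hxR : x R = N := by
    simp only [hx]
    exact Nat.mul_div_cancel_left N (by omega)
  have hlen : ∀ i, ((x (i + 1) : ℕ) : ℝ) - (x i : ℕ) ≤ N / R + 1 := by
    intro i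
    have h1 : ((x (i + 1) : ℕ) : ℝ) ≤ ((i + 1 : ℕ) : ℝ) * N / R := by
      have h2 := Nat.cast_div_le (α := ℝ) (m := (i + 1) * N) (n := R)
      simp only [hx]
      refine h2.trans (le_of_eq ?_)
      push_cast
      ring
    have h3 : ((i : ℝ) * N / R) - 1 < (x i : ℕ) := by
      have h4 : i * N < R * (x i) + R := by
        have h5 := Nat.div_add_mod (i * N) R
        have h6 := Nat.mod_lt (i * N) (by omega : 0 < R)
        simp only [hx]
        omega
      have h7 : (i : ℝ) * N < R * ((x i : ℕ) : ℝ) + R := by exact_mod_cast h4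
      rw [sub_lt_iff_lt_add, div_lt_iff₀ hR0]
      linarith
    push_cast at h1
    have h8 : ((i : ℝ) + 1) * N / R = (i : ℝ) * N / R + N / R := by ring
    linarith
  have hIcc : Icc 1 N = Ioc (x 0) (x R) := by
    rw [hx0, hxR]
    ext n
    rw [Finset.mem_Icc, Finset.mem_Ioc]
    omega
  rw [hIcc, ← DavB_blocks _ x hxm R]
  refine (Finset.abs_sum_le_sum_abs _ _).trans ?_
  have hblk : ∀ i ∈ range R, |∑ n ∈ Ioc (x i) (x (i + 1)),
      mu n * Real.cos (2 * Real.pi * (n * θ + φ))| ≤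
      (B0 + 1) * (ε' * N) + (((x (i + 1) : ℕ) : ℝ) - (x i : ℕ)) *
        (2 * Real.pi * ((N / R + 1) * (C' / N))) := by
    intro i hi
    rw [Finset.mem_range] at hi
    have h0 : x i ≤ x (i + 1) := hxm (Nat.le_succ i)
    have h1 : x (i + 1) ≤ N := by
      rw [← hxR]
      exact hxm hi
    refine (DavB_block b hb1 a θ φ (x i) (x (i + 1)) h0
      (fun c => hM b hb1 N hNM (x i) (x (i + 1)) h0 h1 c)).trans ?_
    have h2 : (0 : ℝ) ≤ ((x (i + 1) : ℕ) : ℝ) - (x i : ℕ) := by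
      have : ((x i : ℕ) : ℝ) ≤ (x (i + 1) : ℕ) := by exact_mod_cast h0
      linarith
    refine add_le_add ?_ ?_
    · refine mul_le_mul_of_nonneg_right ?_ (by positivity)
      have : (b : ℝ) ≤ B0 := by exact_mod_cast hb2
      linarith
    · refine mul_le_mul_of_nonneg_left ?_ h2
      refine mul_le_mul_of_nonneg_left ?_ (by positivity)
      exact mul_le_mul (hlen i) hD (abs_nonneg _) (by positivity)
  refine (Finset.sum_le_sum hblk).trans ?_
  rw [Finset.sum_add_distrib, Finset.sum_const, Finset.card_range, nsmul_eq_mul,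
    ← Finset.sum_mul, Finset.sum_range_sub (fun i => ((x i : ℕ) : ℝ)), hx0, hxR]
  have h1 : (R : ℝ) * ((B0 + 1) * (ε' * N)) = ε / 2 * N := by
    rw [hε']
    have : (0 : ℝ) < (B0 : ℝ) + 1 := by positivity
    field_simp
  have h2 : ((N : ℝ) - ((0 : ℕ) : ℝ)) * (2 * Real.pi * ((N / R + 1) * (C' / N))) =
      2 * Real.pi * C' * (N / R) + 2 * Real.pi * C' := by
    push_cast
    field_simp
    ring
  have h3 : 2 * Real.pi * C' * (N / R) ≤ ε / 4 * N := by
    have h4 : 2 * Real.pi * C' * (N / R) ≤ ε / 4 * R * (N / R) :=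
      mul_le_mul_of_nonneg_right hRε' (by positivity)
    refine h4.trans (le_of_eq ?_)
    field_simp
  have h5 : 2 * Real.pi * C' ≤ ε / 4 * N := by
    refine hRε'.trans ?_
    exact mul_le_mul_of_nonneg_left hNRr (by positivity)
  rw [h1, h2]
  linarith

end Pool.Agent.Lib.MP_3e612f_nt.PB
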