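import Pool.Agent.Lib.MP_3e612f_nt.PB.DavB

/-! Davenport, qualitative and uniform in the frequency (blueprint, section Dav). -/

set_option autoImplicit false

namespace Pool.Agent.Lib.MP_3e612f_nt.PB

open Finset

/-- product to sum -/
theorem DavC_prod (p r m : ℕ) (θ φ : ℝ) :
    Real.cos (2 * Real.pi * (((p * m : ℕ) : ℝ) * θ + φ)) *
      Real.cos (2 * Real.pi * (((r * m : ℕ) : ℝ) * θ + φ)) =
    (Real.cos (2 * Real.pi * (m * (((r : ℝ) - p) * θ) + 0)) +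
      Real.cos (2 * Real.pi * (m * (((r : ℝ) + p) * θ) + 2 * φ))) / 2 := by
  have h1 : 2 * Real.pi * ((m : ℝ) * (((r : ℝ) - p) * θ) + 0) =
      2 * Real.pi * (((r * m : ℕ) : ℝ) * θ + φ) - 2 * Real.pi * (((p * m : ℕ) : ℝ) * θ + φ) := by
    push_cast
    ring
  have h2 : 2 * Real.pi * ((m : ℝ) * (((r : ℝ) + p) * θ) + 2 * φ) =
      2 * Real.pi * (((r * m : ℕ) : ℝ) * θ + φ) + 2 * Real.pi * (((p * m : ℕ) : ℝ) * θ + φ) := by
    push_cast
    ring
  rw [h1, h2, Real.cos_sub, Real.cos_add]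
  ring

/-- a frequency near a fraction -/
theorem DavC_near {C : ℝ} {N : ℕ} (b : ℕ) (hb : 1 ≤ b) (θ : ℝ) (m : ℤ)
    (h : |(b : ℝ) * θ - m| < C / N) : |θ - m / b| ≤ C / N := by
  have hb1 : (1 : ℝ) ≤ b := by exact_mod_cast hb
  have hb0 : (0 : ℝ) < b := by linarith
  have h1 : (b : ℝ) * θ - m = b * (θ - m / b) := by
    field_simp
  rw [h1, abs_mul, abs_of_pos hb0] at h
  have h2 : |θ - m / b| ≤ b * |θ - m / b| := by
    have := mul_le_mul_of_nonneg_right hb1 (abs_nonneg (θ - m / b))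
    linarith
  linarith

theorem dav_cos {ε : ℝ} (hε : 0 < ε) :
    ∃ N0 : ℕ, ∀ N ≥ N0, ∀ θ φ : ℝ,
      |∑ n ∈ Icc 1 N, mu n * Real.cos (2 * Real.pi * (n * θ + φ))| ≤ ε * N := by
  obtain ⟨P, δ, N1, hP, hδ, hkat⟩ := katai_fin (A := 1) le_rfl 2 hε
  obtain ⟨N2, hmaj⟩ := dav_major (2 * ∑ p ∈ P, p) (1 / δ) hε
  refine ⟨N1 + N2 + 1, ?_⟩
  intro N hN θ φ
  have hN0 : (0 : ℝ) < N := by
    have : 0 < N := by omega
    exact_mod_cast this
  have hs : (0 : ℝ) < 1 / δ / N := by positivity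
  by_cases hex : ∃ b : ℕ, 1 ≤ b ∧ b ≤ 2 * ∑ p ∈ P, p ∧ ∃ a : ℤ, |θ - a / b| ≤ 1 / δ / N
  · exact hmaj N (by omega) θ φ hex
  · refine hkat N (by omega) (fun n => Real.cos (2 * Real.pi * (n * θ + φ)))
      (fun n => Real.abs_cos_le_one _) ?_
    intro p hp r hr hpr
    have hpS : p ≤ ∑ p ∈ P, p := Finset.single_le_sum (f := fun p => p)
      (fun i _ => Nat.zero_le _) hp
    have hrS : r ≤ ∑ p ∈ P, p := Finset.single_le_sum (f := fun p => p)
      (fun i _ => Nat.zero_le _) hr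
    have hfar : ∀ b : ℕ, 1 ≤ b → b ≤ 2 * ∑ p ∈ P, p → ∀ m : ℤ,
        1 / δ / N ≤ |(b : ℝ) * θ - m| := by
      intro b hb1 hb2 m
      by_contra hcon
      push Not at hcon
      exact hex ⟨b, hb1, hb2, m, DavC_near b hb1 θ m hcon⟩
    have h1 : ∀ m : ℤ, 1 / δ / N ≤ |((r : ℝ) - p) * θ - m| := by
      intro m
      have h := hfar (r - p) (by omega) (by omega) m
      rw [Nat.cast_sub hpr.le] at h
      exact h
    have h2 : ∀ m : ℤ, 1 / δ / N ≤ |((r : ℝ) + p) * θ - m| := by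
      intro m
      have h := hfar (r + p) (by omega) (by omega) m
      rw [Nat.cast_add] at h
      exact h
    have h3 := cos_sum_bound (φ := 0) hs h1 (N / r)
    have h4 := cos_sum_bound (φ := 2 * φ) hs h2 (N / r)
    have h5 : 1 / (1 / δ / N) = δ * N := by
      field_simp
    rw [h5] at h3 h4
    simp only [DavC_prod]
    rw [← Finset.sum_div, Finset.sum_add_distrib, abs_div, abs_two]
    have h6 := abs_add_le (∑ m ∈ Icc 1 (N / r), Real.cos (2 * Real.pi * (m * (((r : ℝ) - p) * θ) + 0)))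
      (∑ m ∈ Icc 1 (N / r), Real.cos (2 * Real.pi * (m * (((r : ℝ) + p) * θ) + 2 * φ)))
    linarith

theorem davenport_unif {ε : ℝ} (hε : 0 < ε) :
    ∃ N0 : ℕ, ∀ N ≥ N0, ∀ θ : ℝ,
      ‖∑ n ∈ Icc 1 N, (mu n : ℂ) * Complex.exp (2 * Real.pi * Complex.I * (n * θ))‖ ≤ ε * N := by
  obtain ⟨N0, h⟩ := dav_cos (half_pos hε)
  refine ⟨N0, ?_⟩
  intro N hN θ
  have h1 := h N hN θ 0
  have h2 := h N hN θ (-(1 / 4))
  have e1 : ∀ n : ℕ, (mu n : ℂ) * Complex.exp (2 * Real.pi * Complex.I * (n * θ)) =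
      (mu n : ℂ) * Complex.exp (((2 * Real.pi * (n * θ) : ℝ) : ℂ) * Complex.I) := by
    intro n
    congr 2
    push_cast
    ring
  have hre : (∑ n ∈ Icc 1 N, (mu n : ℂ) * Complex.exp (2 * Real.pi * Complex.I * (n * θ))).re =
      ∑ n ∈ Icc 1 N, mu n * Real.cos (2 * Real.pi * (n * θ + 0)) := by
    rw [Complex.re_sum]
    refine Finset.sum_congr rfl fun n _ => ?_
    rw [e1, Complex.re_ofReal_mul, Complex.exp_ofReal_mul_I_re, add_zero]
  have him : (∑ n ∈ Icc 1 N, (mu n : ℂ) * Complex.exp (2 * Real.pi * Complex.I * (n * θ))).im =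
      ∑ n ∈ Icc 1 N, mu n * Real.cos (2 * Real.pi * (n * θ + -(1 / 4))) := by
    rw [Complex.im_sum]
    refine Finset.sum_congr rfl fun n _ => ?_
    rw [e1, Complex.im_ofReal_mul, Complex.exp_ofReal_mul_I_im]
    congr 1
    have h3 : 2 * Real.pi * (n * θ + -(1 / 4)) = 2 * Real.pi * (n * θ) - Real.pi / 2 := by ring
    rw [h3, Real.cos_sub_pi_div_two]
  refine (Complex.norm_le_abs_re_add_abs_im _).trans ?_
  rw [hre, him]
  linarith

end Pool.Agent.Lib.MP_3e612f_nt.PB
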