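import Pool.Agent.Lib.MP_3e612f_nt.PB.Defs

/-! Cutting an interval (blueprint, section Dec). -/

set_option autoImplicit false

namespace Pool.Agent.Lib.MP_3e612f_nt.PB

open Finset Filter Topology

variable {G : Type} [Group G] [Fintype G]

private theorem DecA_card {H K : Subgroup G} (h : H ≤ K) (hne : H ≠ K) :
    Nat.card H < Nat.card K := by
  by_contra hcon
  exact hne (Subgroup.eq_of_le_of_card_ge h (not_lt.1 hcon))

private theorem DecA_aux (Nf : ℕ → ℕ → Subgroup G)
    (hN : ∀ a b a' b', a' ≤ a → b ≤ b' → Nf a b ≤ Nf a' b') (a b : ℕ) (κ : ℕ) :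
    ∀ a1 : ℕ, a ≤ a1 → a1 ≤ b →
      (∃ s t : ℕ → ℕ, (∀ i, i < κ → a1 ≤ s i ∧ s i < t i ∧ t i ≤ b ∧ Nf (s i) (t i) = Nf a b) ∧
        ∀ i, i + 1 < κ → t i ≤ s (i + 1)) ∨
      (∃ n ≤ 2 * κ + 1, ∃ c : ℕ → ℕ, c 0 = a1 ∧ c n = b ∧ Monotone c ∧
        ∀ i < n, c (i + 1) ≤ c i + 1 ∨
          Nat.card (Nf (c i) (c (i + 1))) < Nat.card (Nf a b)) := by
  induction κ with
  | zero =>
    intro a1 _ _
    left
    exact ⟨fun _ => 0, fun _ => 0, fun i hi => absurd hi (Nat.not_lt_zero i),
      fun i hi => absurd hi (Nat.not_lt_zero _)⟩
  | succ κ ih =>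
    intro a1 h1 h2
    rcases Nat.eq_or_lt_of_le h2 with h3 | h3
    · right
      exact ⟨0, by omega, fun _ => a1, rfl, h3, monotone_const, fun i hi =>
        absurd hi (Nat.not_lt_zero i)⟩
    · by_cases h4 : Nf a1 b = Nf a b
      · classical
        have hex : ∃ t, a1 < t ∧ t ≤ b ∧ Nf a1 t = Nf a b := ⟨b, h3, le_rfl, h4⟩
        obtain ⟨t1, t2, t3⟩ := Nat.find_spec hex
        have tmin : ∀ t', t' < Nat.find hex → ¬ (a1 < t' ∧ t' ≤ b ∧ Nf a1 t' = Nf a b) :=
          fun t' ht' => Nat.find_min hex ht'
        generalize Nat.find hex = t at t1 t2 t3 tmin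
        rcases ih t (by omega) t2 with ⟨s', t', hs, ht⟩ | ⟨n', hn', c', c0, cn, cm, hc⟩
        · left
          refine ⟨fun i => Nat.casesOn i a1 (fun i => s' i), fun i => Nat.casesOn i t (fun i => t' i),
            ?_, ?_⟩
          · intro i hi
            cases i with
            | zero => exact ⟨le_rfl, t1, t2, t3⟩
            | succ i =>
              obtain ⟨e1, e2, e3, e4⟩ := hs i (by omega)
              exact ⟨by show a1 ≤ s' i; omega, e2, e3, e4⟩
          · intro i hi
            cases i with
            | zero =>
              show t ≤ s' 0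
              exact (hs 0 (by omega)).1
            | succ i =>
              show t' i ≤ s' (i + 1)
              exact ht i (by omega)
        · right
          refine ⟨n' + 2, by omega, fun i => Nat.casesOn i a1 (fun i => Nat.casesOn i (t - 1)
            (fun i => c' i)), rfl, cn, ?_, ?_⟩
          · refine monotone_nat_of_le_succ ?_
            intro i
            cases i with
            | zero => show a1 ≤ t - 1; omega
            | succ i =>
              cases i with
              | zero => show t - 1 ≤ c' 0; omega
              | succ i => show c' i ≤ c' (i + 1); exact cm (Nat.le_succ i)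
          · intro i hi
            cases i with
            | zero =>
              show t - 1 ≤ a1 + 1 ∨ Nat.card (Nf a1 (t - 1)) < Nat.card (Nf a b)
              by_cases h5 : t - 1 = a1
              · left; omega
              · right
                refine DecA_card (hN _ _ _ _ h1 (by omega)) ?_
                intro h6
                exact tmin (t - 1) (by omega) ⟨by omega, by omega, h6⟩
            | succ i =>
              cases i with
              | zero =>
                left
                show c' 0 ≤ t - 1 + 1
                omega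
              | succ i =>
                show c' (i + 1) ≤ c' i + 1 ∨ Nat.card (Nf (c' i) (c' (i + 1))) <
                  Nat.card (Nf a b)
                exact hc i (by omega)
      · right
        refine ⟨1, by omega, fun i => Nat.casesOn i a1 (fun _ => b), rfl, rfl, ?_, ?_⟩
        · refine monotone_nat_of_le_succ ?_
          intro i
          cases i with
          | zero => exact h2
          | succ i => exact le_rfl
        · intro i hi
          have h5 : i = 0 := by omega
          subst h5
          right
          show Nat.card (Nf a1 b) < Nat.card (Nf a b)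
          exact DecA_card (hN _ _ _ _ h1 le_rfl) h4

/-- an interval which is not rich is cut into few pieces which are short or have smaller group -/
theorem cut (Nf : ℕ → ℕ → Subgroup G)
    (hN : ∀ a b a' b', a' ≤ a → b ≤ b' → Nf a b ≤ Nf a' b') (a b κ : ℕ) (hab : a ≤ b)
    (hr : ¬ Rich Nf a b κ) :
    ∃ n ≤ 2 * κ + 1, ∃ c : ℕ → ℕ, c 0 = a ∧ c n = b ∧ Monotone c ∧
      ∀ i < n, c (i + 1) ≤ c i + 1 ∨
        Nat.card (Nf (c i) (c (i + 1))) < Nat.card (Nf a b) := by
  rcases DecA_aux Nf hN a b κ a le_rfl hab with h | h
  · exact absurd h hr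
  · exact h

end Pool.Agent.Lib.MP_3e612f_nt.PB
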