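import Pool.Agent.Lib.MP_3e612f_nt.PB.DecA

/-! The decomposition (blueprint, section Dec). -/

set_option autoImplicit false

namespace Pool.Agent.Lib.MP_3e612f_nt.PB

open Finset Filter Topology

/-- decomposition of `[a,b)` into at most `n` pieces, short or rich, with total cost at most `s` -/
private def DecB_D {G : Type} [Group G] (Nf : ℕ → ℕ → Subgroup G) (β : ℕ → ℝ) (a b n : ℕ)
    (s : ℝ) : Prop :=
  ∃ m ≤ n, ∃ c : ℕ → ℕ, c 0 = a ∧ c m = b ∧ Monotone c ∧
    ∃ (S : Finset ℕ) (κ : ℕ → ℕ), S ⊆ range m ∧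
      (∀ i < m, i ∉ S → c (i + 1) ≤ c i + 1) ∧
      (∀ i ∈ S, Rich Nf (c i) (c (i + 1)) (κ i)) ∧ ∑ i ∈ S, β (κ i) ≤ s

private theorem DecB_mono {G : Type} [Group G] {Nf : ℕ → ℕ → Subgroup G} {β : ℕ → ℝ}
    {a b n n' : ℕ} {s s' : ℝ} (h : DecB_D Nf β a b n s) (hn : n ≤ n') (hs : s ≤ s') :
    DecB_D Nf β a b n' s' := by
  obtain ⟨m, hm, c, h1, h2, h3, S, κ, h4, h5, h6, h7⟩ := h
  exact ⟨m, hm.trans hn, c, h1, h2, h3, S, κ, h4, h5, h6, h7.trans hs⟩

private theorem DecB_refl {G : Type} [Group G] (Nf : ℕ → ℕ → Subgroup G) (β : ℕ → ℝ) (a : ℕ) :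
    DecB_D Nf β a a 0 0 :=
  ⟨0, le_rfl, fun _ => a, rfl, rfl, monotone_const, ∅, fun _ => 0, by simp, by simp, by simp,
    by simp⟩

private theorem DecB_short {G : Type} [Group G] (Nf : ℕ → ℕ → Subgroup G) (β : ℕ → ℝ) {a b : ℕ}
    (hab : a ≤ b) (h : b ≤ a + 1) : DecB_D Nf β a b 1 0 := by
  refine ⟨1, le_rfl, fun i => if i = 0 then a else b, by simp, by simp, ?_, ∅, fun _ => 0, by simp,
    ?_, by simp, by simp⟩
  · refine monotone_nat_of_le_succ (fun i => ?_)
    rcases Nat.eq_zero_or_pos i with rfl | hi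
    · simpa using hab
    · simp [hi.ne']
  · intro i hi _
    have : i = 0 := by omega
    subst this
    simpa using h

private theorem DecB_rich {G : Type} [Group G] {Nf : ℕ → ℕ → Subgroup G} {β : ℕ → ℝ} {a b κ : ℕ}
    (hab : a ≤ b) (h : Rich Nf a b κ) : DecB_D Nf β a b 1 (β κ) := by
  refine ⟨1, le_rfl, fun i => if i = 0 then a else b, by simp, by simp, ?_, {0}, fun _ => κ, by simp,
    ?_, ?_, by simp⟩
  · refine monotone_nat_of_le_succ (fun i => ?_)
    rcases Nat.eq_zero_or_pos i with rfl | hi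
    · simpa using hab
    · simp [hi.ne']
  · intro i hi hi'
    exfalso
    apply hi'
    simp
    omega
  · intro i hi
    rw [Finset.mem_singleton] at hi
    subst hi
    simpa using h

private theorem DecB_append {G : Type} [Group G] {Nf : ℕ → ℕ → Subgroup G} {β : ℕ → ℝ}
    {a b e n n' : ℕ} {s s' : ℝ} (h : DecB_D Nf β a b n s) (h' : DecB_D Nf β b e n' s') :
    DecB_D Nf β a e (n + n') (s + s') := by
  obtain ⟨m, hm, c, h1, h2, h3, S, κ, h4, h5, h6, h7⟩ := h
  obtain ⟨m', hm', c', h1', h2', h3', S', κ', h4', h5', h6', h7'⟩ := h'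
  obtain ⟨C, hC⟩ : ∃ C : ℕ → ℕ, C = fun i => if i < m then c i else c' (i - m) := ⟨_, rfl⟩
  obtain ⟨Κ, hK⟩ : ∃ C : ℕ → ℕ, C = fun i => if i < m then κ i else κ' (i - m) := ⟨_, rfl⟩
  have hC1 : ∀ i < m, C i = c i := fun i hi => by rw [hC]; simp [hi]
  have hC2 : ∀ i < m, C (i + 1) = c (i + 1) := fun i hi => by
    rcases Nat.lt_or_ge (i + 1) m with h8 | h8
    · exact hC1 _ h8
    · have h9 : i + 1 = m := by omega
      rw [hC, h9]
      simp [h1', h2]
  have hC3 : ∀ i, C (i + m) = c' i := fun i => by rw [hC]; simp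
  have hK1 : ∀ i < m, Κ i = κ i := fun i hi => by rw [hK]; simp [hi]
  have hK3 : ∀ i, Κ (i + m) = κ' i := fun i => by rw [hK]; simp
  have hdisj : Disjoint S (S'.map (addRightEmbedding m)) := by
    rw [Finset.disjoint_left]
    intro i hi hi'
    have h8 := Finset.mem_range.1 (h4 hi)
    obtain ⟨j, _, hj⟩ := Finset.mem_map.1 hi'
    simp only [addRightEmbedding_apply] at hj
    omega
  refine ⟨m + m', by omega, C, ?_, ?_, ?_, S ∪ S'.map (addRightEmbedding m), Κ, ?_, ?_, ?_, ?_⟩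
  · rcases Nat.eq_zero_or_pos m with h8 | h8
    · have h9 := hC3 0
      rw [h8] at h9 h2
      simp only [Nat.zero_add] at h9
      rw [h9, h1', ← h2, h1]
    · rw [hC1 0 h8, h1]
  · rw [Nat.add_comm, hC3, h2']
  · refine monotone_nat_of_le_succ (fun i => ?_)
    rcases Nat.lt_or_ge i m with h8 | h8
    · rw [hC1 i h8, hC2 i h8]
      exact h3 (Nat.le_succ i)
    · obtain ⟨j, rfl⟩ : ∃ j, i = j + m := ⟨i - m, by omega⟩
      have h9 : j + m + 1 = (j + 1) + m := by omega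
      rw [h9, hC3, hC3]
      exact h3' (Nat.le_succ j)
  · intro i hi
    rcases Finset.mem_union.1 hi with h8 | h8
    · have := Finset.mem_range.1 (h4 h8)
      rw [Finset.mem_range]
      omega
    · obtain ⟨j, hj, hj'⟩ := Finset.mem_map.1 h8
      simp only [addRightEmbedding_apply] at hj'
      have := Finset.mem_range.1 (h4' hj)
      rw [Finset.mem_range]
      omega
  · intro i hi hi'
    rw [Finset.mem_union, not_or] at hi'
    rcases Nat.lt_or_ge i m with h8 | h8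
    · rw [hC1 i h8, hC2 i h8]
      exact h5 i h8 hi'.1
    · obtain ⟨j, rfl⟩ : ∃ j, i = j + m := ⟨i - m, by omega⟩
      have h9 : j + m + 1 = (j + 1) + m := by omega
      rw [h9, hC3, hC3]
      refine h5' j (by omega) (fun hj => hi'.2 ?_)
      exact Finset.mem_map.2 ⟨j, hj, by simp⟩
  · intro i hi
    rcases Finset.mem_union.1 hi with h8 | h8
    · have h9 := Finset.mem_range.1 (h4 h8)
      rw [hC1 i h9, hC2 i h9, hK1 i h9]
      exact h6 i h8
    · obtain ⟨j, hj, hj'⟩ := Finset.mem_map.1 h8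
      simp only [addRightEmbedding_apply] at hj'
      subst hj'
      have h9 : j + m + 1 = (j + 1) + m := by omega
      rw [h9, hC3, hC3, hK3]
      exact h6' j hj
  · rw [Finset.sum_union hdisj, Finset.sum_map]
    have e1 : ∑ i ∈ S, β (Κ i) = ∑ i ∈ S, β (κ i) :=
      Finset.sum_congr rfl (fun i hi => by rw [hK1 i (Finset.mem_range.1 (h4 hi))])
    have e2 : ∑ i ∈ S', β (Κ (addRightEmbedding m i)) = ∑ i ∈ S', β (κ' i) :=
      Finset.sum_congr rfl (fun i _ => by rw [addRightEmbedding_apply, hK3])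
    rw [e1, e2]
    linarith

private theorem DecB_chain {G : Type} [Group G] {Nf : ℕ → ℕ → Subgroup G} {β : ℕ → ℝ}
    {c : ℕ → ℕ} {R : ℕ} {s : ℝ} (n : ℕ) (h : ∀ i < n, DecB_D Nf β (c i) (c (i + 1)) R s) :
    DecB_D Nf β (c 0) (c n) (n * R) (n * s) := by
  induction n with
  | zero => simpa using DecB_refl Nf β (c 0)
  | succ k ih =>
    have h1 := DecB_append (ih (fun i hi => h i (by omega))) (h k (by omega))
    refine DecB_mono h1 (by rw [Nat.succ_mul]) (le_of_eq ?_)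
    push_cast
    ring

/-- the decomposition -/
theorem exists_dec (G : Type) [Group G] [Fintype G] (β : ℕ → ℝ) (hβ0 : ∀ n, 0 ≤ β n)
    (hβ : Tendsto β atTop (𝓝 0)) {δ : ℝ} (hδ : 0 < δ) :
    ∃ R : ℕ, ∀ (Nf : ℕ → ℕ → Subgroup G),
      (∀ a b a' b', a' ≤ a → b ≤ b' → Nf a b ≤ Nf a' b') → ∀ K : ℕ,
      ∃ n ≤ R, ∃ c : ℕ → ℕ, c 0 = 0 ∧ c n = K ∧ Monotone c ∧
        ∃ (S : Finset ℕ) (κ : ℕ → ℕ), S ⊆ range n ∧
          (∀ i < n, i ∉ S → c (i + 1) ≤ c i + 1) ∧
          (∀ i ∈ S, Rich Nf (c i) (c (i + 1)) (κ i)) ∧ ∑ i ∈ S, β (κ i) ≤ δ := by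
  have key : ∀ d : ℕ, ∀ δ : ℝ, 0 < δ → ∃ R : ℕ, ∀ (Nf : ℕ → ℕ → Subgroup G),
      (∀ a b a' b', a' ≤ a → b ≤ b' → Nf a b ≤ Nf a' b') → ∀ a b : ℕ, a ≤ b →
      Nat.card (Nf a b) ≤ d → DecB_D Nf β a b R δ := by
    intro d
    induction d with
    | zero =>
      intro δ _
      refine ⟨0, fun Nf _ a b _ hcard => ?_⟩
      have : 0 < Nat.card (Nf a b) := Nat.card_pos
      omega
    | succ d ih =>
      intro δ hδ
      obtain ⟨κ, hκ⟩ : ∃ κ : ℕ, β κ ≤ δ :=
        ((hβ.eventually (gt_mem_nhds hδ)).exists).imp (fun _ h => h.le)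
      have hk0 : (0 : ℝ) < 2 * κ + 1 := by positivity
      obtain ⟨R, hR⟩ := ih (δ / (2 * κ + 1)) (by positivity)
      refine ⟨(2 * κ + 1) * (R + 1), fun Nf hN a b hab hcard => ?_⟩
      by_cases hr : Rich Nf a b κ
      · exact DecB_mono (DecB_rich hab hr) (Nat.mul_pos (by omega) (by omega)) hκ
      · obtain ⟨n, hn, c, hc0, hcn, hcm, hc⟩ := cut Nf hN a b κ hab hr
        have h1 := DecB_chain (Nf := Nf) (β := β) (c := c) (R := R + 1)
          (s := δ / (2 * κ + 1)) n (fun i hi => by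
            rcases hc i hi with h2 | h2
            · exact DecB_mono (DecB_short Nf β (hcm (Nat.le_succ i)) h2) (by omega) (by positivity)
            · exact DecB_mono (hR Nf hN _ _ (hcm (Nat.le_succ i)) (by omega)) (by omega) le_rfl)
        rw [hc0, hcn] at h1
        refine DecB_mono h1 (Nat.mul_le_mul_right _ hn) ?_
        have h2 : (n : ℝ) ≤ 2 * κ + 1 := by exact_mod_cast hn
        calc (n : ℝ) * (δ / (2 * κ + 1)) ≤ (2 * κ + 1) * (δ / (2 * κ + 1)) := by gcongr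
          _ = δ := by field_simp
  obtain ⟨R, hR⟩ := key (Nat.card G) δ hδ
  refine ⟨R, fun Nf hN K => ?_⟩
  exact hR Nf hN 0 K (Nat.zero_le K) (Subgroup.card_le_card_group _)

end Pool.Agent.Lib.MP_3e612f_nt.PB
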