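import Mathlib

/-!
# Moebius orthogonality for non-uniform group valued digit products: definitions

Blueprint: /team-store/h31_PB_BLUEPRINT.md
-/

set_option autoImplicit false

namespace Pool.Agent.Lib.MP_3e612f_nt.PB

open Finset

/-! ### Radices, digits, digit products -/

/-- product of the `k` radices at the positions `j, j+1, …, j+k-1` -/
def Qr (q : ℕ → ℕ) (j k : ℕ) : ℕ := ∏ i ∈ range k, q (j + i)

/-- admissible radices -/
def Rad (B : ℕ) (q : ℕ → ℕ) : Prop := ∀ j, 2 ≤ q j ∧ q j ≤ B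

section
variable {G : Type} [Group G]

/-- `hw q g j k n = g j n₀ * g (j+1) n₁ * ⋯ * g (j+k-1) n_{k-1}`, where `n₀, n₁, …` are the digits of
`n` for the radices `q j, q (j+1), …` (the digits `n_k, …` are ignored) -/
def hw (q : ℕ → ℕ) (g : ℕ → ℕ → G) : ℕ → ℕ → ℕ → G
  | _, 0, _ => 1
  | j, k + 1, n => g j (n % q j) * hw q g (j + 1) k (n / q j)

/-- the same product over all digits (`n` digits suffice when `g i 0 = 1`) -/
def hh (q : ℕ → ℕ) (g : ℕ → ℕ → G) (j n : ℕ) : G := hw q g j n n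

/-- neutral digit `0` -/
def Neu (g : ℕ → ℕ → G) : Prop := ∀ j, g j 0 = 1

/-! ### The pair group -/

/-- the pair of products for `p * u` and `r * u`, starting at position `α` -/
def ee (q : ℕ → ℕ) (g : ℕ → ℕ → G) (p r α u : ℕ) : G × G :=
  (hh q g α (p * u), hh q g α (r * u))

/-- the group generated by the pairs of the numbers with `m` digits, starting at position `α` -/
def Lam (q : ℕ → ℕ) (g : ℕ → ℕ → G) (p r α m : ℕ) : Subgroup (G × G) :=
  Subgroup.closure {x | ∃ u, u < Qr q α m ∧ x = ee q g p r α u}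

/-! ### The non-linearity group of an interval of positions -/

/-- group generated by the digit values in the interval `[a,b)` -/
def Gam (q : ℕ → ℕ) (g : ℕ → ℕ → G) (a b : ℕ) : Subgroup G :=
  Subgroup.closure {x | ∃ j d, a ≤ j ∧ j < b ∧ d < q j ∧ x = g j d}

/-- the basic defects of linearity in `[a,b)` -/
def Xs (q : ℕ → ℕ) (g : ℕ → ℕ → G) (a b : ℕ) : Set G :=
  {x | (∃ j d, a ≤ j ∧ j < b ∧ d + 1 < q j ∧ x = (g j 1)⁻¹ * g j (d + 1) * (g j d)⁻¹) ∨
    (∃ j, a ≤ j ∧ j + 1 < b ∧ x = (g j 1)⁻¹ * g (j + 1) 1 * (g j (q j - 1))⁻¹)}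

/-- the group generated by the conjugates of the defects -/
def Nlin (q : ℕ → ℕ) (g : ℕ → ℕ → G) (a b : ℕ) : Subgroup G :=
  Subgroup.closure {x | ∃ γ ∈ Gam q g a b, ∃ y ∈ Xs q g a b, x = γ * y * γ⁻¹}

end

/-! ### Functions on a finite group -/

section
variable {K : Type} [Group K] [Fintype K]

/-- squared `ℓ²` norm -/
def nrm (Θ : K → ℝ) : ℝ := ∑ z, Θ z ^ 2

/-- right translation -/
def tr (x : K) (Θ : K → ℝ) : K → ℝ := fun z => Θ (z * x)

/-- average of the right translates by `e u`, `u ∈ V` -/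
noncomputable def av (V : Finset ℕ) (e : ℕ → K) (Θ : K → ℝ) : K → ℝ :=
  fun z => (∑ u ∈ V, Θ (z * e u)) / (V.card : ℝ)

open Classical in
/-- zero sum over all cosets `z Λ` -/
def Bal (Λ : Subgroup K) (Θ : K → ℝ) : Prop :=
  ∀ z, ∑ x : K, (if x ∈ Λ then Θ (z * x) else 0) = 0

end

/-! ### Interval families with many full subintervals -/

/-- `[a,b)` contains `κ` disjoint nonempty subintervals `[s i, t i)` (in increasing order) with
`Nf (s i) (t i) = Nf a b` -/
def Rich {L : Type} (Nf : ℕ → ℕ → L) (a b κ : ℕ) : Prop :=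
  ∃ s t : ℕ → ℕ, (∀ i, i < κ → a ≤ s i ∧ s i < t i ∧ t i ≤ b ∧ Nf (s i) (t i) = Nf a b) ∧
    ∀ i, i + 1 < κ → t i ≤ s (i + 1)

/-- the same with margins: the intervals `[s i - 2k, t i + 3k)` are disjoint and inside `[a,b)` -/
def Spaced {L : Type} (Nf : ℕ → ℕ → L) (k a b κ : ℕ) : Prop :=
  ∃ s t : ℕ → ℕ, (∀ i, i < κ → a + 2 * k ≤ s i ∧ s i < t i ∧ t i + 3 * k ≤ b ∧
      Nf (s i) (t i) = Nf a b) ∧
    ∀ i, i + 1 < κ → t i + 5 * k ≤ s (i + 1)

/-! ### The transfer operator of a block of digits -/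

section
variable {G : Type} [Group G]

/-- carries and pairs: average over the `m` digits at the positions `i, …, i+m-1` -/
noncomputable def TT (q : ℕ → ℕ) (g : ℕ → ℕ → G) (p r i m : ℕ)
    (A : ℕ × ℕ → G × G → ℝ) (c : ℕ × ℕ) (z : G × G) : ℝ :=
  (∑ u ∈ range (Qr q i m),
    A ((p * u + c.1) / Qr q i m, (r * u + c.2) / Qr q i m)
      (z * (hw q g i m (p * u + c.1), hw q g i m (r * u + c.2)))) / (Qr q i m : ℝ)

/-- bounded and balanced families -/
def Good [Fintype G] (p r : ℕ) (N : Subgroup G) (S : ℝ) (A : ℕ × ℕ → G × G → ℝ) : Prop :=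
  ∀ c : ℕ × ℕ, c.1 < p → c.2 < r →
    nrm (A c) ≤ S ∧ Bal ((⊥ : Subgroup G).prod N) (A c)

end

/-! ### Pieces -/

section
variable {G : Type} [Group G]

/-- value of the piece `[c i, c (i+1))` -/
def zz (q : ℕ → ℕ) (g : ℕ → ℕ → G) (c : ℕ → ℕ) (i x : ℕ) : G :=
  hw q g (c i) (c (i + 1) - c i) (x / Qr q 0 (c i))

open Classical in
/-- zero sum over `ν ∈ N` of the modifications `ω i ↦ ω i * ν` -/
def BalAt [Fintype G] {ι : Type} [DecidableEq ι] (i : ι) (N : Subgroup G) (W : (ι → G) → ℝ) : Prop :=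
  ∀ ω : ι → G, ∑ ν : G, (if ν ∈ N then W (Function.update ω i (ω i * ν)) else 0) = 0

/-- invariance under the modifications `ω i ↦ ω i * ν`, `ν ∈ N` -/
def InvAt {ι : Type} [DecidableEq ι] (i : ι) (N : Subgroup G) (W : (ι → G) → ℝ) : Prop :=
  ∀ ω : ι → G, ∀ ν ∈ N, W (Function.update ω i (ω i * ν)) = W ω

end

end Pool.Agent.Lib.MP_3e612f_nt.PB
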