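import Pool.Agent.Lib.MP_3e612f_nt.PB.Defs

/-! Digits, products of radices (blueprint, section Dig). -/

set_option autoImplicit false

namespace Pool.Agent.Lib.MP_3e612f_nt.PB

open Finset

variable {q : ℕ → ℕ} {B : ℕ}

theorem Qr_zero (q : ℕ → ℕ) (j : ℕ) : Qr q j 0 = 1 := by
  simp [Qr]

theorem Qr_succ (q : ℕ → ℕ) (j k : ℕ) : Qr q j (k + 1) = Qr q j k * q (j + k) := by
  simp [Qr, Finset.prod_range_succ]

theorem Qr_succ' (q : ℕ → ℕ) (j k : ℕ) : Qr q j (k + 1) = q j * Qr q (j + 1) k := by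
  unfold Qr
  rw [Finset.prod_range_succ', Nat.add_zero, mul_comm]
  congr 1
  refine Finset.prod_congr rfl fun i _ => ?_
  congr 1
  omega

theorem Qr_add (q : ℕ → ℕ) (j k l : ℕ) : Qr q j (k + l) = Qr q j k * Qr q (j + k) l := by
  unfold Qr
  rw [Finset.prod_range_add]
  congr 1
  refine Finset.prod_congr rfl fun i _ => ?_
  congr 1
  omega

theorem Qr_pos (hq : Rad B q) (j k : ℕ) : 0 < Qr q j k :=
  Finset.prod_pos fun i _ => lt_of_lt_of_le (by norm_num) (hq (j + i)).1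

theorem two_pow_le_Qr (hq : Rad B q) (j k : ℕ) : 2 ^ k ≤ Qr q j k := by
  induction k with
  | zero => rw [Qr_zero]; simp
  | succ k ih =>
      rw [Qr_succ, pow_succ]
      exact Nat.mul_le_mul ih (hq (j + k)).1

theorem Qr_le_pow (hq : Rad B q) (j k : ℕ) : Qr q j k ≤ B ^ k := by
  induction k with
  | zero => rw [Qr_zero]; simp
  | succ k ih =>
      rw [Qr_succ, pow_succ]
      exact Nat.mul_le_mul ih (hq (j + k)).2

theorem Qr_mono (hq : Rad B q) (j : ℕ) {k l : ℕ} (h : k ≤ l) : Qr q j k ≤ Qr q j l := by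
  obtain ⟨d, rfl⟩ := Nat.exists_eq_add_of_le h
  rw [Qr_add]
  exact Nat.le_mul_of_pos_right _ (Qr_pos hq _ _)

/-- `k` digits suffice for a number below `2 ^ k` -/
theorem lt_Qr_self (hq : Rad B q) (j n : ℕ) : n < Qr q j n :=
  lt_of_lt_of_le n.lt_two_pow_self (two_pow_le_Qr hq j n)

/-- a prime not dividing the radices is coprime to their products -/
theorem Qr_coprime {r : ℕ} (hr : r.Prime) (hrq : ∀ j, ¬ r ∣ q j) (j k : ℕ) :
    (Qr q j k).Coprime r := by
  unfold Qr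
  exact Nat.Coprime.prod_left fun i _ => ((Nat.Prime.coprime_iff_not_dvd hr).2 (hrq (j + i))).symm

end Pool.Agent.Lib.MP_3e612f_nt.PB
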