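import Pool.Agent.Lib.MP_3e612f_nt.PB.WienD

/-! Smoothed periodic functions (blueprint, section Wien). -/

set_option autoImplicit false

namespace Pool.Agent.Lib.MP_3e612f_nt.PB

open Finset

/-- orthogonality of the characters mod `Q` -/
theorem WienB_orth {Q : ℕ} (hQ : 1 ≤ Q) {η : ℂ} (hη : IsPrimitiveRoot η Q) {x y : ℕ}
    (hx : x < Q) (hy : y < Q) :
    ∑ k ∈ range Q, (η ^ x * (η⁻¹) ^ y) ^ k = if x = y then (Q : ℂ) else 0 := by
  have hη0 : η ≠ 0 := hη.ne_zero (by omega)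
  by_cases hxy : x = y
  · subst hxy
    have : η ^ x * (η⁻¹) ^ x = 1 := by
      rw [← mul_pow, mul_inv_cancel₀ hη0, one_pow]
    rw [if_pos rfl, this]
    simp only [one_pow, Finset.sum_const, card_range, nsmul_eq_mul, mul_one]
  · rw [if_neg hxy]
    set w := η ^ x * (η⁻¹) ^ y with hw
    have hw1 : w ≠ 1 := by
      intro h
      apply hxy
      apply hη.pow_inj hx hy
      have : η ^ x * (η⁻¹) ^ y * η ^ y = 1 * η ^ y := by rw [← hw, h]
      rw [mul_assoc, ← mul_pow, inv_mul_cancel₀ hη0, one_pow, mul_one, one_mul] at this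
      exact this
    have hwQ : w ^ Q = 1 := by
      rw [hw, mul_pow, ← pow_mul, ← pow_mul, mul_comm x Q, mul_comm y Q, pow_mul, pow_mul,
        hη.pow_eq_one, inv_pow, hη.pow_eq_one]
      simp
    have := mul_geom_sum w Q
    rw [hwQ, sub_self] at this
    rcases mul_eq_zero.mp this with h | h
    · exact absurd (sub_eq_zero.mp h) hw1
    · exact h

/-- Parseval mod `Q` -/
theorem WienB_parseval {Q : ℕ} (hQ : 1 ≤ Q) {η : ℂ} (hη : IsPrimitiveRoot η Q) (hn : ‖η‖ = 1)
    (f : ℕ → ℂ) :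
    ∑ k ∈ range Q, ‖∑ x ∈ range Q, f x * η ^ (k * x)‖ ^ 2 = Q * ∑ x ∈ range Q, ‖f x‖ ^ 2 := by
  have hη0 : η ≠ 0 := hη.ne_zero (by omega)
  have hconj : (starRingEnd ℂ) η = η⁻¹ := by
    rw [Complex.inv_def, Complex.normSq_eq_norm_sq, hn]; simp
  have key : ∀ z : ℂ, ((‖z‖ ^ 2 : ℝ) : ℂ) = z * (starRingEnd ℂ) z := by
    intro z
    rw [Complex.mul_conj, Complex.normSq_eq_norm_sq]
  apply Complex.ofReal_injective
  push_cast
  have h1 : ∀ z : ℂ, ((‖z‖ : ℝ) : ℂ) ^ 2 = z * (starRingEnd ℂ) z := by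
    intro z
    rw [← key z]; push_cast; rfl
  simp_rw [h1]
  have h2 : ∀ k ∈ range Q, (∑ x ∈ range Q, f x * η ^ (k * x)) *
      (starRingEnd ℂ) (∑ x ∈ range Q, f x * η ^ (k * x)) =
      ∑ x ∈ range Q, ∑ y ∈ range Q, f x * (starRingEnd ℂ) (f y) * (η ^ x * (η⁻¹) ^ y) ^ k := by
    intro k _
    rw [map_sum, Finset.sum_mul_sum]
    apply Finset.sum_congr rfl
    intro x _
    apply Finset.sum_congr rfl
    intro y _
    rw [map_mul, map_pow, hconj, mul_pow, ← pow_mul, ← pow_mul, mul_comm x k, mul_comm y k]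
    ring
  rw [Finset.sum_congr rfl h2, Finset.sum_comm]
  have h3 : ∀ x ∈ range Q, ∑ k ∈ range Q, ∑ y ∈ range Q,
      f x * (starRingEnd ℂ) (f y) * (η ^ x * (η⁻¹) ^ y) ^ k = Q * (f x * (starRingEnd ℂ) (f x)) := by
    intro x hx
    rw [Finset.sum_comm]
    have h4 : ∀ y ∈ range Q, ∑ k ∈ range Q,
        f x * (starRingEnd ℂ) (f y) * (η ^ x * (η⁻¹) ^ y) ^ k =
        if x = y then (Q : ℂ) * (f x * (starRingEnd ℂ) (f x)) else 0 := by
      intro y hy
      rw [← Finset.mul_sum, WienB_orth hQ hη (mem_range.mp hx) (mem_range.mp hy)]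
      split_ifs with h
      · subst h; ring
      · ring
    rw [Finset.sum_congr rfl h4, Finset.sum_ite_eq, if_pos hx]
  rw [Finset.sum_congr rfl h3, ← Finset.mul_sum]

/-- a periodic function smoothed over a window of length `S` -/
theorem Wn_smooth {Q S : ℕ} (hQ : 1 ≤ Q) (hS : 1 ≤ S) (hSQ : S ≤ Q) (a : ℕ → ℝ)
    (ha : ∀ n, |a n| ≤ 1) (hper : ∀ n, a (n + Q) = a n) :
    Wn (fun n => (((∑ s ∈ range S, a (n + s)) / S : ℝ) : ℂ)) (Real.sqrt (Q / S)) := by
  have hQ0 : (Q : ℂ) ≠ 0 := by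
    have : Q ≠ 0 := by omega
    exact_mod_cast this
  have hS0 : (S : ℂ) ≠ 0 := by
    have : S ≠ 0 := by omega
    exact_mod_cast this
  set ζ : ℂ := Complex.exp (2 * Real.pi * Complex.I / Q) with hζ
  have hprim : IsPrimitiveRoot ζ Q := Complex.isPrimitiveRoot_exp Q (by omega)
  have hζ0 : ζ ≠ 0 := Complex.exp_ne_zero _
  have hζn : ‖ζ‖ = 1 := hprim.norm'_eq_one (by omega)
  have hζin : ‖ζ⁻¹‖ = 1 := by rw [norm_inv, hζn, inv_one]
  -- Fourier coefficients
  set ah : ℕ → ℂ := fun k => (∑ x ∈ range Q, (a x : ℂ) * (ζ⁻¹) ^ (k * x)) / Q with hah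
  set sg : ℕ → ℂ := fun k => (∑ s ∈ range S, ζ ^ (k * s)) / S with hsg
  have hperm : ∀ m n, a (n + Q * m) = a n := by
    intro m n
    induction m with
    | zero => simp
    | succ m ih => rw [Nat.mul_succ, ← add_assoc, hper, ih]
  have hmod : ∀ n, a n = a (n % Q) := by
    intro n
    conv_lhs => rw [← Nat.mod_add_div n Q]
    rw [hperm]
  -- inversion
  have hinv : ∀ n, (a n : ℂ) = ∑ k ∈ range Q, ah k * ζ ^ (k * n) := by
    intro n
    have h1 : ∀ k ∈ range Q, ah k * ζ ^ (k * n) =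
        ∑ x ∈ range Q, (a x : ℂ) / Q * (ζ ^ (n % Q) * (ζ⁻¹) ^ x) ^ k := by
      intro k _
      have h2 : ζ ^ (k * n) = ζ ^ (k * (n % Q)) := by
        conv_lhs => rw [← Nat.mod_add_div n Q, mul_add, pow_add, ← mul_assoc, mul_comm k Q,
          mul_assoc, pow_mul ζ Q, hprim.pow_eq_one, one_pow, mul_one]
      rw [h2, hah]
      simp only
      rw [div_mul_eq_mul_div, Finset.sum_mul, Finset.sum_div]
      apply Finset.sum_congr rfl
      intro x _
      rw [mul_pow, ← pow_mul, ← pow_mul, mul_comm (n % Q) k, mul_comm x k]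
      ring
    rw [Finset.sum_congr rfl h1, Finset.sum_comm]
    have h3 : ∀ x ∈ range Q, ∑ k ∈ range Q,
        (a x : ℂ) / Q * (ζ ^ (n % Q) * (ζ⁻¹) ^ x) ^ k =
        if n % Q = x then (a (n % Q) : ℂ) else 0 := by
      intro x hx
      rw [← Finset.mul_sum, WienB_orth hQ hprim (Nat.mod_lt _ (by omega)) (mem_range.mp hx)]
      split_ifs with h
      · rw [h]; field_simp
      · ring
    rw [Finset.sum_congr rfl h3, Finset.sum_ite_eq,
      if_pos (mem_range.mpr (Nat.mod_lt _ (by omega))), ← hmod n]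
  -- norms
  have hahn : ∑ k ∈ range Q, ‖ah k‖ ^ 2 ≤ 1 := by
    have h1 := WienB_parseval hQ hprim.inv hζin (fun x => (a x : ℂ))
    have h2 : ∀ k ∈ range Q, ‖ah k‖ ^ 2 =
        ‖∑ x ∈ range Q, (a x : ℂ) * (ζ⁻¹) ^ (k * x)‖ ^ 2 / (Q : ℝ) ^ 2 := by
      intro k _
      simp only [hah]
      rw [norm_div, div_pow, Complex.norm_natCast]
    rw [Finset.sum_congr rfl h2, ← Finset.sum_div, h1]
    have hQr : (0 : ℝ) < Q := by exact_mod_cast hQ
    rw [div_le_one (by positivity)]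
    have h3 : ∑ x ∈ range Q, ‖((a x : ℝ) : ℂ)‖ ^ 2 ≤ ∑ x ∈ range Q, (1 : ℝ) := by
      apply Finset.sum_le_sum
      intro x _
      rw [Complex.norm_real, Real.norm_eq_abs]
      have := ha x
      have h0 := abs_nonneg (a x)
      nlinarith
    rw [Finset.sum_const, card_range, nsmul_eq_mul, mul_one] at h3
    nlinarith
  have hsgn : ∑ k ∈ range Q, ‖sg k‖ ^ 2 ≤ Q / S := by
    have h1 := WienB_parseval hQ hprim hζn (fun x => if x < S then (1 : ℂ) else 0)
    have hSr : (0 : ℝ) < S := by exact_mod_cast hS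
    have h2 : ∀ k ∈ range Q, ‖sg k‖ ^ 2 =
        ‖∑ x ∈ range Q, (if x < S then (1 : ℂ) else 0) * ζ ^ (k * x)‖ ^ 2 / (S : ℝ) ^ 2 := by
      intro k _
      have h3 : ∑ x ∈ range Q, (if x < S then (1 : ℂ) else 0) * ζ ^ (k * x) =
          ∑ s ∈ range S, ζ ^ (k * s) := by
        have h4 : ∀ x ∈ range Q, (if x < S then (1 : ℂ) else 0) * ζ ^ (k * x) =
            if x < S then ζ ^ (k * x) else 0 := by
          intro x _
          split_ifs <;> simp
        rw [Finset.sum_congr rfl h4, ← Finset.sum_filter]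
        congr 1
        ext x
        simp only [mem_filter, mem_range]
        omega
      rw [h3]
      simp only [hsg]
      rw [norm_div, div_pow, Complex.norm_natCast]
    rw [Finset.sum_congr rfl h2, ← Finset.sum_div, h1]
    have h5 : ∑ x ∈ range Q, ‖(if x < S then (1 : ℂ) else 0)‖ ^ 2 = S := by
      have h6 : ∀ x ∈ range Q, ‖(if x < S then (1 : ℂ) else 0)‖ ^ 2 =
          if x < S then (1 : ℝ) else 0 := by
        intro x _
        split_ifs <;> simp
      rw [Finset.sum_congr rfl h6, ← Finset.sum_filter, Finset.sum_const, nsmul_eq_mul, mul_one]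
      have : (range Q).filter (fun x => x < S) = range S := by
        ext x
        simp only [mem_filter, mem_range]
        omega
      rw [this, card_range]
    rw [h5]
    apply le_of_eq
    field_simp
  refine ⟨Q, fun i => ah i * sg i, fun i => (i : ℝ) / Q, ?_, ?_⟩
  · rw [Fin.sum_univ_eq_sum_range (fun k => ‖ah k * sg k‖) Q]
    simp_rw [norm_mul]
    have hcs := Finset.sum_mul_sq_le_sq_mul_sq (range Q) (fun k => ‖ah k‖) (fun k => ‖sg k‖)
    apply Real.le_sqrt_of_sq_le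
    refine hcs.trans ?_
    calc (∑ i ∈ range Q, ‖ah i‖ ^ 2) * ∑ i ∈ range Q, ‖sg i‖ ^ 2
        ≤ 1 * (Q / S) := mul_le_mul hahn hsgn (Finset.sum_nonneg fun _ _ => by positivity)
          (by norm_num)
      _ = Q / S := one_mul _
  · intro n
    rw [Fin.sum_univ_eq_sum_range
      (fun k => ah k * sg k * Complex.exp (2 * Real.pi * Complex.I * (n * ((k : ℝ) / Q : ℝ)))) Q]
    have hexp : ∀ k : ℕ, Complex.exp (2 * Real.pi * Complex.I * (n * ((k : ℝ) / Q : ℝ))) =
        ζ ^ (k * n) := by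
      intro k
      rw [hζ, ← Complex.exp_nat_mul]
      congr 1
      push_cast
      field_simp
    simp_rw [hexp]
    push_cast
    simp_rw [hinv]
    rw [Finset.sum_comm, Finset.sum_div]
    apply Finset.sum_congr rfl
    intro k _
    simp only [hsg]
    rw [mul_div_assoc', Finset.mul_sum, div_mul_eq_mul_div, Finset.sum_mul]
    congr 1
    apply Finset.sum_congr rfl
    intro s _
    rw [mul_add, pow_add]
    ring

end Pool.Agent.Lib.MP_3e612f_nt.PB
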