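import Pool.Agent.Lib.MP_3e612f_nt.PB.Dav
import Pool.Agent.Lib.MP_3e612f_nt.PB.Wien

/-! Products of level set indicators (blueprint, section Floor). -/

set_option autoImplicit false

namespace Pool.Agent.Lib.MP_3e612f_nt.PB

open Finset

theorem FloorA_prod_diff {ι : Type} (s : Finset ι) (a w : ι → ℝ) (ha : ∀ i, |a i| ≤ 1)
    (hw : ∀ i, |w i| ≤ 1) : |∏ i ∈ s, a i - ∏ i ∈ s, w i| ≤ ∑ i ∈ s, |a i - w i| := by
  classical
  induction s using Finset.induction_on with
  | empty => simp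
  | insert j s hj ih =>
    rw [Finset.prod_insert hj, Finset.prod_insert hj, Finset.sum_insert hj]
    have h1 : a j * ∏ i ∈ s, a i - w j * ∏ i ∈ s, w i =
        (a j - w j) * ∏ i ∈ s, a i + w j * (∏ i ∈ s, a i - ∏ i ∈ s, w i) := by ring
    have h2 : |∏ i ∈ s, a i| ≤ 1 := by
      rw [Finset.abs_prod]
      exact Finset.prod_le_one (fun i _ => abs_nonneg _) (fun i _ => ha i)
    rw [h1]
    refine (abs_add_le _ _).trans ?_
    rw [abs_mul, abs_mul]
    have h3 : |a j - w j| * |∏ i ∈ s, a i| ≤ |a j - w j| * 1 :=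
      mul_le_mul_of_nonneg_left h2 (abs_nonneg _)
    have h4 : |w j| * |∏ i ∈ s, a i - ∏ i ∈ s, w i| ≤ 1 * |∏ i ∈ s, a i - ∏ i ∈ s, w i| :=
      mul_le_mul_of_nonneg_right (hw j) (abs_nonneg _)
    linarith

theorem FloorA_count (N D S : ℕ) (hD : 1 ≤ D) :
    ((Icc 1 N).filter (fun n => D < n % D + S)).card ≤ (N / D + 1) * (S - 1) := by
  have hinj : Set.InjOn (fun n : ℕ => (n / D, n % D))
      ((Icc 1 N).filter (fun n => D < n % D + S)) := by
    intro x _ y _ hxy
    simp only [Prod.mk.injEq] at hxy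
    rw [← Nat.div_add_mod x D, ← Nat.div_add_mod y D, hxy.1, hxy.2]
  have hsub : ((Icc 1 N).filter (fun n => D < n % D + S)).image (fun n : ℕ => (n / D, n % D)) ⊆
      range (N / D + 1) ×ˢ Ico (D + 1 - S) D := by
    intro p hp
    simp only [mem_image, mem_filter, mem_Icc] at hp
    obtain ⟨n, ⟨⟨_, hn2⟩, hn3⟩, rfl⟩ := hp
    simp only [mem_product, mem_range, mem_Ico]
    refine ⟨Nat.lt_succ_of_le (Nat.div_le_div_right hn2), ?_, Nat.mod_lt _ (by omega)⟩
    omega
  have h1 := Finset.card_le_card hsub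
  rw [Finset.card_image_of_injOn hinj, card_product, card_range, Nat.card_Ico] at h1
  refine h1.trans (Nat.mul_le_mul_left _ ?_)
  omega

theorem FloorA_smooth {M D N : ℕ} (hM : 1 ≤ M) (hD : 1 ≤ D) {δ : ℝ} (hδ : 0 < δ) (hδ1 : δ ≤ 1)
    (e : ℕ) : ∃ w : ℕ → ℝ, (∀ n, |w n| ≤ 1) ∧ Wn (fun n => (w n : ℂ)) (Real.sqrt (2 * M / δ)) ∧
      ∑ n ∈ Icc 1 N, |(if n / D % M = e then (1 : ℝ) else 0) - w n| ≤ 2 * δ * N := by
  have hMr : (1 : ℝ) ≤ M := by exact_mod_cast hM
  have hDr : (1 : ℝ) ≤ D := by exact_mod_cast hD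
  have hC : 1 ≤ Real.sqrt (2 * M / δ) := by
    rw [Real.one_le_sqrt, le_div_iff₀ hδ]
    linarith
  by_cases hDN : N < D
  · refine ⟨fun _ => if 0 % M = e then 1 else 0, ?_, ?_, ?_⟩
    · intro n
      dsimp only
      split_ifs <;> simp
    · refine ⟨1, fun _ => if 0 % M = e then 1 else 0, fun _ => 0, ?_, ?_⟩
      · rw [Fin.sum_univ_one]
        split_ifs
        · simpa using hC
        · rw [norm_zero]
          exact Real.sqrt_nonneg _
      · intro n
        rw [Fin.sum_univ_one]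
        split_ifs <;> simp
    · rw [Finset.sum_eq_zero]
      · positivity
      · intro n hn
        rw [mem_Icc] at hn
        rw [Nat.div_eq_of_lt (by omega), sub_self, abs_zero]
  push Not at hDN
  set S : ℕ := max 1 ⌊δ * D⌋₊ with hS
  have hS1 : 1 ≤ S := le_max_left _ _
  have hSD : S ≤ D := by
    rw [hS]
    apply max_le hD
    apply Nat.floor_le_of_le
    nlinarith
  have hSQ : S ≤ M * D := hSD.trans (Nat.le_mul_of_pos_left _ (by omega))
  have hSr : (1 : ℝ) ≤ S := by exact_mod_cast hS1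
  set a : ℕ → ℝ := fun n => if n / D % M = e then 1 else 0 with ha
  have ha01 : ∀ n, |a n| ≤ 1 := by
    intro n
    simp only [ha]
    split_ifs <;> simp
  have hper : ∀ n, a (n + M * D) = a n := by
    intro n
    simp only [ha]
    rw [Nat.add_mul_div_right _ _ (by omega), Nat.add_mod_right]
  set w : ℕ → ℝ := fun n => (∑ s ∈ range S, a (n + s)) / S with hw
  have hw1 : ∀ n, |w n| ≤ 1 := by
    intro n
    simp only [hw]
    rw [abs_div, Nat.abs_cast, div_le_one (by linarith)]
    refine (Finset.abs_sum_le_sum_abs _ _).trans ?_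
    refine (Finset.sum_le_sum (fun i _ => ha01 (n + i))).trans ?_
    simp
  -- size of the ratio
  have hratio : (D : ℝ) / S ≤ 2 / δ := by
    rw [div_le_div_iff₀ (by linarith) hδ]
    by_cases h1 : 1 ≤ δ * D
    · have h2 : δ * D < ⌊δ * D⌋₊ + 1 := Nat.lt_floor_add_one _
      have h3 : (⌊δ * D⌋₊ : ℝ) ≤ S := by
        exact_mod_cast le_max_right _ _
      linarith
    · push Not at h1
      linarith
  refine ⟨w, hw1, ?_, ?_⟩
  · have h := Wn_smooth (Q := M * D) (S := S) (Nat.one_le_iff_ne_zero.mpr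
      (Nat.mul_ne_zero (by omega) (by omega))) hS1 hSQ a ha01 hper
    obtain ⟨m, b, θ, hb, hθ⟩ := h
    refine ⟨m, b, θ, hb.trans ?_, hθ⟩
    apply Real.sqrt_le_sqrt
    push_cast
    rw [mul_div_assoc]
    calc (M : ℝ) * (D / S) ≤ M * (2 / δ) := mul_le_mul_of_nonneg_left hratio (by linarith)
      _ = 2 * M / δ := by ring
  · have hpt : ∀ n ∈ Icc 1 N, |a n - w n| ≤ if D < n % D + S then (1 : ℝ) else 0 := by
      intro n _
      split_ifs with h
      · -- both in [0,1]
        have hw0 : 0 ≤ w n := by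
          simp only [hw]
          apply div_nonneg _ (by linarith)
          apply Finset.sum_nonneg
          intro s _
          simp only [ha]
          split_ifs <;> norm_num
        have hw1' := (abs_le.mp (hw1 n)).2
        have ha0 : 0 ≤ a n := by
          simp only [ha]
          split_ifs <;> norm_num
        have ha1 := (abs_le.mp (ha01 n)).2
        rw [abs_le]
        constructor <;> linarith
      · have hs : ∀ s ∈ range S, a (n + s) = a n := by
          intro s hs
          rw [mem_range] at hs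
          have : (n + s) / D = n / D := by
            have h5 : n % D + s < D := by omega
            conv_lhs => rw [← Nat.div_add_mod n D]
            rw [add_assoc, Nat.mul_add_div (by omega), Nat.div_eq_of_lt h5, add_zero]
          simp only [ha]
          rw [this]
        have : w n = a n := by
          simp only [hw]
          rw [Finset.sum_congr rfl hs, Finset.sum_const, card_range, nsmul_eq_mul]
          field_simp
        rw [this, sub_self, abs_zero]
    refine (Finset.sum_le_sum hpt).trans ?_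
    rw [← Finset.sum_filter, Finset.sum_const, nsmul_eq_mul, mul_one]
    have hc := FloorA_count N D S hD
    have hc' : (((Icc 1 N).filter (fun n => D < n % D + S)).card : ℝ) ≤
        (N / D + 1) * (S - 1 : ℕ) := by
      have h1 : (((Icc 1 N).filter (fun n => D < n % D + S)).card : ℝ) ≤
        (((N / D + 1) * (S - 1) : ℕ) : ℝ) := by exact_mod_cast hc
      refine h1.trans ?_
      push_cast
      apply mul_le_mul_of_nonneg_right _ (Nat.cast_nonneg _)
      have := @Nat.cast_div_le ℝ _ _ _ N D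
      linarith
    refine hc'.trans ?_
    have hS2 : ((S - 1 : ℕ) : ℝ) ≤ δ * D := by
      rcases Nat.eq_or_lt_of_le hS1 with h | h
      · rw [← h]; simp; positivity
      · have h3 : S = ⌊δ * D⌋₊ := by
          rw [hS] at h ⊢
          rcases le_total 1 ⌊δ * D⌋₊ with h5 | h5
          · exact max_eq_right h5
          · rw [max_eq_left h5] at h; omega
        have h4 : (S : ℝ) ≤ δ * D := by
          rw [h3]
          exact Nat.floor_le (by positivity)
        have h5 : ((S - 1 : ℕ) : ℝ) ≤ S := by exact_mod_cast Nat.sub_le _ _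
        linarith
    have hDN' : (D : ℝ) ≤ N := by exact_mod_cast hDN
    have h6 : ((N : ℝ) / D + 1) * (S - 1 : ℕ) ≤ ((N : ℝ) / D + 1) * (δ * D) :=
      mul_le_mul_of_nonneg_left hS2 (by positivity)
    refine h6.trans ?_
    have h7 : ((N : ℝ) / D + 1) * (δ * D) = δ * N + δ * D := by
      field_simp
    rw [h7]
    nlinarith

/-- product of level set indicators -/
theorem floor_ind (M : ℕ) (hM : 1 ≤ M) (R : ℕ) {ε : ℝ} (hε : 0 < ε) :
    ∃ N0 : ℕ, ∀ N ≥ N0, ∀ D : Fin R → ℕ, (∀ i, 1 ≤ D i) → ∀ e : Fin R → ℕ,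
      |∑ n ∈ Icc 1 N, mu n * ∏ i, (if n / D i % M = e i then (1 : ℝ) else 0)| ≤ ε * N := by
  set δ : ℝ := min 1 (ε / (4 * (R + 1))) with hδd
  have hR0 : (0 : ℝ) ≤ R := Nat.cast_nonneg R
  have hδ : 0 < δ := lt_min one_pos (by positivity)
  have hδ1 : δ ≤ 1 := min_le_left _ _
  have hδ2 : R * (2 * δ) ≤ ε / 2 := by
    have h1 : δ ≤ ε / (4 * (R + 1)) := min_le_right _ _
    rw [le_div_iff₀ (by positivity)] at h1
    nlinarith
  set C : ℝ := Real.sqrt (2 * M / δ) with hC
  have hC0 : 0 ≤ C ^ R := pow_nonneg (Real.sqrt_nonneg _) _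
  obtain ⟨N0, hN0⟩ := davenport_unif (ε := ε / (2 * (C ^ R + 1))) (by positivity)
  refine ⟨N0, fun N hN D hD e => ?_⟩
  have hsm := fun i => FloorA_smooth (N := N) hM (hD i) hδ hδ1 (e i)
  choose w hw1 hwW hwd using hsm
  set a : Fin R → ℕ → ℝ := fun i n => if n / D i % M = e i then (1 : ℝ) else 0 with ha
  have ha1 : ∀ i n, |a i n| ≤ 1 := by
    intro i n
    simp only [ha]
    split_ifs <;> simp
  have hsplit : ∑ n ∈ Icc 1 N, mu n * ∏ i, a i n =
      ∑ n ∈ Icc 1 N, mu n * (∏ i, a i n - ∏ i, w i n) + ∑ n ∈ Icc 1 N, mu n * ∏ i, w i n := by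
    rw [← Finset.sum_add_distrib]
    apply Finset.sum_congr rfl
    intro n _
    ring
  change |∑ n ∈ Icc 1 N, mu n * ∏ i, a i n| ≤ ε * N
  rw [hsplit]
  refine (abs_add_le _ _).trans ?_
  have h1 : |∑ n ∈ Icc 1 N, mu n * (∏ i, a i n - ∏ i, w i n)| ≤ ε / 2 * N := by
    refine (Finset.abs_sum_le_sum_abs _ _).trans ?_
    have h2 : ∀ n ∈ Icc 1 N, |mu n * (∏ i, a i n - ∏ i, w i n)| ≤ ∑ i, |a i n - w i n| := by
      intro n _
      rw [abs_mul]
      have h3 := FloorA_prod_diff univ (fun i => a i n) (fun i => w i n) (fun i => ha1 i n)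
        (fun i => hw1 i n)
      calc |mu n| * |∏ i, a i n - ∏ i, w i n| ≤ 1 * |∏ i, a i n - ∏ i, w i n| :=
            mul_le_mul_of_nonneg_right (abs_mu_le n) (abs_nonneg _)
        _ ≤ _ := by rw [one_mul]; exact h3
    refine (Finset.sum_le_sum h2).trans ?_
    rw [Finset.sum_comm]
    refine (Finset.sum_le_sum (fun i _ => hwd i)).trans ?_
    rw [Finset.sum_const, card_univ, Fintype.card_fin, nsmul_eq_mul]
    have hN' : (0 : ℝ) ≤ N := Nat.cast_nonneg N
    nlinarith
  have h2 : |∑ n ∈ Icc 1 N, mu n * ∏ i, w i n| ≤ ε / 2 * N := by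
    have hW := Wn_prod (fun i n => (w i n : ℂ)) hwW
    have ht := Wn_test hW (fun n => (mu n : ℂ)) N (fun θ => hN0 N hN θ)
    have hre : ∑ n ∈ Icc 1 N, (mu n : ℂ) * ∏ i, (w i n : ℂ) =
        ((∑ n ∈ Icc 1 N, mu n * ∏ i, w i n : ℝ) : ℂ) := by
      push_cast
      rfl
    rw [hre, Complex.norm_real, Real.norm_eq_abs] at ht
    refine ht.trans ?_
    have hN' : (0 : ℝ) ≤ N := Nat.cast_nonneg N
    have h5 : C ^ R * (ε / (2 * (C ^ R + 1))) ≤ ε / 2 := by
      rw [mul_div_assoc', div_le_div_iff₀ (by positivity) (by norm_num)]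
      nlinarith
    calc C ^ R * (ε / (2 * (C ^ R + 1)) * N) = C ^ R * (ε / (2 * (C ^ R + 1))) * N := by ring
      _ ≤ ε / 2 * N := mul_le_mul_of_nonneg_right h5 hN'
  linarith

end Pool.Agent.Lib.MP_3e612f_nt.PB
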