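import Pool.Agent.Lib.MP_3e612f_nt.PB.FloorA

/-! Functions of floor residues (blueprint, section Floor). -/

set_option autoImplicit false

namespace Pool.Agent.Lib.MP_3e612f_nt.PB

open Finset

private theorem FloorB_expand {M R' : ℕ} (Ψ : (Fin R' → ℕ) → ℝ) (v : Fin R' → ℕ)
    (hv : ∀ i, v i < M) :
    Ψ v = ∑ e ∈ Fintype.piFinset (fun _ : Fin R' => range M),
      Ψ e * ∏ i, (if v i = e i then (1 : ℝ) else 0) := by
  have h1 : ∀ e : Fin R' → ℕ, (∏ i, (if v i = e i then (1 : ℝ) else 0)) =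
      if e = v then (1 : ℝ) else 0 := by
    intro e
    by_cases h : e = v
    · subst h
      simp
    · rw [if_neg h]
      obtain ⟨i, hi⟩ : ∃ i, e i ≠ v i := by
        by_contra hcon
        push Not at hcon
        exact h (funext hcon)
      refine Finset.prod_eq_zero (Finset.mem_univ i) ?_
      rw [if_neg (fun h' => hi h'.symm)]
  rw [Finset.sum_eq_single v]
  · rw [h1, if_pos rfl, mul_one]
  · intro e _ hne
    rw [h1, if_neg hne, mul_zero]
  · intro hnot
    exact absurd (Fintype.mem_piFinset.2 fun i => Finset.mem_range.2 (hv i)) hnot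

theorem floor_mu (M : ℕ) (hM : 1 ≤ M) (R : ℕ) {ε : ℝ} (hε : 0 < ε) :
    ∃ N0 : ℕ, ∀ N ≥ N0, ∀ R' ≤ R, ∀ D : Fin R' → ℕ, (∀ i, 1 ≤ D i) →
      ∀ Ψ : (Fin R' → ℕ) → ℝ, (∀ e, |Ψ e| ≤ 1) →
      |∑ n ∈ Icc 1 N, mu n * Ψ (fun i => n / D i % M)| ≤ ε * N := by
  have hMr : (1 : ℝ) ≤ M := by exact_mod_cast hM
  have hpow : ∀ k : ℕ, (1 : ℝ) ≤ (M : ℝ) ^ k := fun k => one_le_pow₀ hMr
  have hε' : 0 < ε / (M : ℝ) ^ R := div_pos hε (by linarith [hpow R])
  have h := fun R' : ℕ => floor_ind M hM R' hε'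
  choose N0 hN0 using h
  refine ⟨∑ k ∈ range (R + 1), N0 k, fun N hN R' hR' D hD Ψ hΨ => ?_⟩
  have hNR : N0 R' ≤ N := by
    refine le_trans ?_ hN
    exact Finset.single_le_sum (f := N0) (fun _ _ => Nat.zero_le _) (Finset.mem_range.2 (by omega))
  have hexp : ∀ n, mu n * Ψ (fun i => n / D i % M) =
      ∑ e ∈ Fintype.piFinset (fun _ : Fin R' => range M),
        Ψ e * (mu n * ∏ i, (if n / D i % M = e i then (1 : ℝ) else 0)) := by
    intro n
    conv_lhs => rw [FloorB_expand (M := M) Ψ (fun i => n / D i % M)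
      (fun i => Nat.mod_lt _ (by omega))]
    rw [Finset.mul_sum]
    refine Finset.sum_congr rfl fun e _ => ?_
    ring
  rw [Finset.sum_congr rfl fun n _ => hexp n, Finset.sum_comm]
  have hcard : ((Fintype.piFinset (fun _ : Fin R' => range M)).card : ℝ) = (M : ℝ) ^ R' := by
    rw [Fintype.card_piFinset]
    simp
  calc |∑ e ∈ Fintype.piFinset (fun _ : Fin R' => range M), ∑ n ∈ Icc 1 N,
        Ψ e * (mu n * ∏ i, (if n / D i % M = e i then (1 : ℝ) else 0))|
      ≤ ∑ e ∈ Fintype.piFinset (fun _ : Fin R' => range M), |∑ n ∈ Icc 1 N,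
        Ψ e * (mu n * ∏ i, (if n / D i % M = e i then (1 : ℝ) else 0))| :=
        Finset.abs_sum_le_sum_abs _ _
    _ ≤ ∑ _e ∈ Fintype.piFinset (fun _ : Fin R' => range M), ε / (M : ℝ) ^ R * N := by
        refine Finset.sum_le_sum fun e _ => ?_
        rw [← Finset.mul_sum, abs_mul]
        have h1 := hN0 R' N hNR D hD e
        have h2 := hΨ e
        calc |Ψ e| * |∑ n ∈ Icc 1 N, mu n * ∏ i, (if n / D i % M = e i then (1 : ℝ) else 0)|
            ≤ 1 * |∑ n ∈ Icc 1 N, mu n * ∏ i, (if n / D i % M = e i then (1 : ℝ) else 0)| :=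
              mul_le_mul_of_nonneg_right h2 (abs_nonneg _)
          _ ≤ ε / (M : ℝ) ^ R * N := by rw [one_mul]; exact h1
    _ = (M : ℝ) ^ R' * (ε / (M : ℝ) ^ R * N) := by
        rw [Finset.sum_const, nsmul_eq_mul, hcard]
    _ ≤ (M : ℝ) ^ R * (ε / (M : ℝ) ^ R * N) := by
        refine mul_le_mul_of_nonneg_right (pow_le_pow_right₀ hMr hR') ?_
        exact mul_nonneg hε'.le (Nat.cast_nonneg N)
    _ = ε * N := by
        have : (M : ℝ) ^ R ≠ 0 := by linarith [hpow R]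
        field_simp

end Pool.Agent.Lib.MP_3e612f_nt.PB
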