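import Pool.Agent.Lib.MP_3e612f_nt.PB.GenA

/-! Generation of the pair groups by short windows (blueprint, section Gen). -/

set_option autoImplicit false

namespace Pool.Agent.Lib.MP_3e612f_nt.PB

open Finset

variable {G : Type} [Group G] {q : ℕ → ℕ} {g : ℕ → ℕ → G} {B : ℕ} {p r k : ℕ}

private theorem GenB_quot (hq : Rad B q) (hg : Neu g) (c j m u₀ u₁ : ℕ) :
    (hh q g j (c * u₀))⁻¹ * hh q g j (c * (u₀ + Qr q j m * u₁)) =
      (hh q g (j + m) (c * u₀ / Qr q j m))⁻¹ *
        hh q g (j + m) (c * u₀ / Qr q j m + c * u₁) := by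
  have hX := Qr_pos hq j m
  have h0 : c * u₀ % Qr q j m < Qr q j m := Nat.mod_lt _ hX
  have e1 : c * u₀ = c * u₀ % Qr q j m + Qr q j m * (c * u₀ / Qr q j m) :=
    (Nat.mod_add_div _ _).symm
  have e2 : c * (u₀ + Qr q j m * u₁) =
      c * u₀ % Qr q j m + Qr q j m * (c * u₀ / Qr q j m + c * u₁) := by
    calc c * (u₀ + Qr q j m * u₁) = c * u₀ + Qr q j m * (c * u₁) := by ring
      _ = (c * u₀ % Qr q j m + Qr q j m * (c * u₀ / Qr q j m)) + Qr q j m * (c * u₁) := by
          rw [← e1]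
      _ = _ := by ring
  have h1 : hh q g j (c * u₀) = hh q g j (c * u₀ % Qr q j m) *
      hh q g (j + m) (c * u₀ / Qr q j m) := by
    conv_lhs => rw [e1]
    exact hh_append hq hg j m h0 _
  have h2 : hh q g j (c * (u₀ + Qr q j m * u₁)) = hh q g j (c * u₀ % Qr q j m) *
      hh q g (j + m) (c * u₀ / Qr q j m + c * u₁) := by
    rw [e2]
    exact hh_append hq hg j m h0 _
  rw [h1, h2]
  group

/-- one more digit -/
theorem Lam_succ (hq : Rad B q) (hg : Neu g) (hp : 1 ≤ p) (hr : 1 ≤ r) (hk : p * r < 2 ^ k)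
    {α m : ℕ} (hm : k ≤ m) :
    Lam q g p r α (m + 1) ≤ Lam q g p r α m ⊔ Lam q g p r (α + (m - k)) (k + 1) := by
  conv_lhs => unfold Lam
  rw [Subgroup.closure_le]
  rintro x ⟨u, hu, rfl⟩
  have hX := Qr_pos hq α m
  have hX' := Qr_pos hq (α + (m - k)) k
  have hs : α + (m - k) + k = α + m := by omega
  obtain ⟨u', hu', hp', hr'⟩ := exists_short_carry (p := p) (r := r) hp hr hX
    (Nat.mod_lt u hX) (hk.le.trans (two_pow_le_Qr hq (α + (m - k)) k))
  have hu1 : u / Qr q α m < q (α + m) := by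
    rw [Nat.div_lt_iff_lt_mul hX, mul_comm, ← Qr_succ]
    exact hu
  have hue : u = u % Qr q α m + Qr q α m * (u / Qr q α m) := (Nat.mod_add_div _ _).symm
  have key : ee q g p r α u = ee q g p r α (u % Qr q α m) *
      ((ee q g p r (α + (m - k)) u')⁻¹ *
        ee q g p r (α + (m - k)) (u' + Qr q (α + (m - k)) k * (u / Qr q α m))) := by
    have hc : ∀ c, c * u' / Qr q (α + (m - k)) k = c * (u % Qr q α m) / Qr q α m →
        hh q g α (c * u) = hh q g α (c * (u % Qr q α m)) *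
        ((hh q g (α + (m - k)) (c * u'))⁻¹ *
          hh q g (α + (m - k)) (c * (u' + Qr q (α + (m - k)) k * (u / Qr q α m)))) := by
      intro c hc
      have h1 := GenB_quot hq hg c α m (u % Qr q α m) (u / Qr q α m)
      have h2 := GenB_quot hq hg c (α + (m - k)) k u' (u / Qr q α m)
      rw [hs, hc] at h2
      rw [h2, ← h1, ← hue]
      group
    exact Prod.ext (hc p hp') (hc r hr')
  rw [key]
  refine Subgroup.mul_mem _ ?_ (Subgroup.mul_mem _ (Subgroup.inv_mem _ ?_) ?_)
  · exact Subgroup.mem_sup_left (ee_mem q g p r α m (Nat.mod_lt u hX))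
  · exact Subgroup.mem_sup_right (ee_mem q g p r _ _ (hu'.trans_le (Qr_mono hq _ (by omega))))
  · refine Subgroup.mem_sup_right (ee_mem q g p r _ _ ?_)
    rw [Qr_succ, hs]
    calc u' + Qr q (α + (m - k)) k * (u / Qr q α m)
        < Qr q (α + (m - k)) k + Qr q (α + (m - k)) k * (u / Qr q α m) := by omega
      _ = Qr q (α + (m - k)) k * (u / Qr q α m + 1) := by ring
      _ ≤ Qr q (α + (m - k)) k * q (α + m) := Nat.mul_le_mul_left _ hu1

theorem Lam_gen (hq : Rad B q) (hg : Neu g) (hp : 1 ≤ p) (hr : 1 ≤ r) (hk : p * r < 2 ^ k)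
    {α m m' : ℕ} (hm' : k ≤ m') (hm : m' ≤ m) :
    Lam q g p r α m ≤ Lam q g p r α m' ⊔ Lam q g p r (α + (m' - k)) (m - m' + k) := by
  induction m, hm using Nat.le_induction with
  | base => exact le_sup_left
  | succ m hm ih =>
      refine (Lam_succ hq hg hp hr hk (hm'.trans hm)).trans (sup_le ?_ ?_)
      · refine ih.trans (sup_le le_sup_left (le_sup_of_le_right ?_))
        exact Lam_mono hq hg le_rfl (by omega)
      · exact le_sup_of_le_right (Lam_mono hq hg (by omega) (by omega))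

end Pool.Agent.Lib.MP_3e612f_nt.PB
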