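import Pool.Agent.Lib.MP_3e612f_nt.PB.GenA
import Pool.Agent.Lib.MP_3e612f_nt.PB.GenB

/-! Umbrella file: GenA, GenB. -/
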