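import Pool.Agent.Lib.MP_3e612f_nt.PB.Dig

/-! Pair groups, monotonicity; short carries (blueprint, section Gen). -/

set_option autoImplicit false

namespace Pool.Agent.Lib.MP_3e612f_nt.PB

open Finset

variable {G : Type} [Group G] {q : ℕ → ℕ} {g : ℕ → ℕ → G} {B : ℕ} {p r k : ℕ}

theorem ee_mem (q : ℕ → ℕ) (g : ℕ → ℕ → G) (p r α m : ℕ) {u : ℕ} (hu : u < Qr q α m) :
    ee q g p r α u ∈ Lam q g p r α m :=
  Subgroup.subset_closure ⟨u, hu, rfl⟩

theorem Lam_mono (hq : Rad B q) (hg : Neu g) {α m α' m' : ℕ} (h1 : α' ≤ α)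
    (h2 : α + m ≤ α' + m') : Lam q g p r α m ≤ Lam q g p r α' m' := by
  obtain ⟨i, rfl⟩ := Nat.exists_eq_add_of_le h1
  unfold Lam
  rw [Subgroup.closure_le]
  rintro x ⟨u, hu, rfl⟩
  rw [← ee_shift hq hg p r α' i u]
  refine ee_mem q g p r α' m' ?_
  calc Qr q α' i * u < Qr q α' i * Qr q (α' + i) m :=
        Nat.mul_lt_mul_of_pos_left hu (Qr_pos hq α' i)
    _ = Qr q α' (i + m) := (Qr_add q α' i m).symm
    _ ≤ Qr q α' m' := Qr_mono hq α' (by omega)

theorem GenA_aux {p r X X' u a : ℕ} (hp : 1 ≤ p) (hr : 1 ≤ r) (hX : 0 < X)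
    (hX' : p * r ≤ X') (ha : p * a < X' * (p * u / X) + p) : r * a < X' * (r * u / X + 1) := by
  set cp := p * u / X with hcp
  set cr := r * u / X with hcr
  have h1 : cp * X ≤ p * u := Nat.div_mul_le_self _ _
  have h2 : r * u < (cr + 1) * X := by
    rw [hcr]
    exact Nat.lt_mul_of_div_lt (Nat.lt_succ_self _) hX
  have h3 : r * cp < p * (cr + 1) := by
    refine lt_of_mul_lt_mul_right (a := X) ?_ (Nat.zero_le _)
    calc r * cp * X = r * (cp * X) := by ring
      _ ≤ r * (p * u) := Nat.mul_le_mul_left _ h1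
      _ = p * (r * u) := by ring
      _ < p * ((cr + 1) * X) := Nat.mul_lt_mul_of_pos_left h2 hp
      _ = p * (cr + 1) * X := by ring
  refine lt_of_mul_lt_mul_left (a := p) ?_ (Nat.zero_le _)
  calc p * (r * a) = r * (p * a) := by ring
    _ < r * (X' * cp + p) := Nat.mul_lt_mul_of_pos_left ha hr
    _ = X' * (r * cp) + p * r := by ring
    _ ≤ X' * (r * cp) + X' := Nat.add_le_add_left hX' _
    _ = X' * (r * cp + 1) := by ring
    _ ≤ X' * (p * (cr + 1)) := Nat.mul_le_mul_left _ h3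
    _ = p * (X' * (cr + 1)) := by ring

/-- every pair of carries out of a long block occurs for a block of `k` digits -/
theorem exists_short_carry (hp : 1 ≤ p) (hr : 1 ≤ r) {X X' u : ℕ} (hX : 0 < X) (hu : u < X)
    (hX' : p * r ≤ X') : ∃ u', u' < X' ∧ p * u' / X' = p * u / X ∧ r * u' / X' = r * u / X := by
  have hX'0 : 0 < X' := lt_of_lt_of_le (Nat.mul_pos hp hr) hX'
  set cp := p * u / X with hcp
  set cr := r * u / X with hcr
  obtain ⟨a, ha1, ha2⟩ : ∃ a, X' * cp ≤ p * a ∧ p * a < X' * cp + p := by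
    refine ⟨(X' * cp + (p - 1)) / p, ?_, ?_⟩
    · have h := Nat.lt_mul_div_succ (X' * cp + (p - 1)) (show 0 < p by omega)
      have h' : p * ((X' * cp + (p - 1)) / p + 1) = p * ((X' * cp + (p - 1)) / p) + p := by ring
      omega
    · have h := Nat.mul_div_le (X' * cp + (p - 1)) p
      omega
  obtain ⟨b, hb1, hb2⟩ : ∃ b, X' * cr ≤ r * b ∧ r * b < X' * cr + r := by
    refine ⟨(X' * cr + (r - 1)) / r, ?_, ?_⟩
    · have h := Nat.lt_mul_div_succ (X' * cr + (r - 1)) (show 0 < r by omega)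
      have h' : r * ((X' * cr + (r - 1)) / r + 1) = r * ((X' * cr + (r - 1)) / r) + r := by ring
      omega
    · have h := Nat.mul_div_le (X' * cr + (r - 1)) r
      omega
  have hpX : p ≤ X' := le_trans (Nat.le_mul_of_pos_right p hr) hX'
  have hrX : r ≤ X' := le_trans (Nat.le_mul_of_pos_left r hp) hX'
  have hmax1 : X' * cp ≤ p * max a b :=
    le_trans ha1 (Nat.mul_le_mul_left _ (le_max_left _ _))
  have hmax2 : X' * cr ≤ r * max a b :=
    le_trans hb1 (Nat.mul_le_mul_left _ (le_max_right _ _))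
  have hcp' : cp < p := by
    rw [hcp]
    exact Nat.div_lt_of_lt_mul (by rw [mul_comm X p]; exact Nat.mul_lt_mul_of_pos_left hu hp)
  have hup1 : p * max a b < X' * (cp + 1) := by
    rcases max_choice a b with h | h
    · rw [h, mul_add, mul_one]; omega
    · rw [h]
      exact GenA_aux hr hp hX (by rw [mul_comm]; exact hX') hb2
  have hup2 : r * max a b < X' * (cr + 1) := by
    rcases max_choice a b with h | h
    · rw [h]
      exact GenA_aux hp hr hX hX' ha2
    · rw [h, mul_add, mul_one]; omega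
  refine ⟨max a b, ?_, ?_, ?_⟩
  · refine lt_of_mul_lt_mul_left (a := p) ?_ (Nat.zero_le _)
    calc p * max a b < X' * (cp + 1) := hup1
      _ ≤ X' * p := Nat.mul_le_mul_left _ hcp'
      _ = p * X' := mul_comm _ _
  · exact Nat.div_eq_of_lt_le (by rw [mul_comm]; exact hmax1)
      (by rw [mul_comm (cp + 1) X']; exact hup1)
  · exact Nat.div_eq_of_lt_le (by rw [mul_comm]; exact hmax2)
      (by rw [mul_comm (cr + 1) X']; exact hup2)

end Pool.Agent.Lib.MP_3e612f_nt.PB
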