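import Pool.Agent.Lib.MP_3e612f_nt.PB.Defs

/-! Sums over aligned blocks (blueprint, section NonStr). -/

set_option autoImplicit false

namespace Pool.Agent.Lib.MP_3e612f_nt.PB

open Finset

private theorem NonStrA_full (u : ℕ → ℝ) {Q : ℕ} {τ : ℝ}
    (h : ∀ y, |∑ v ∈ range Q, u (v + Q * y)| ≤ τ * Q) (Y : ℕ) :
    |∑ m ∈ range (Q * Y), u m| ≤ Y * (τ * Q) := by
  induction Y with
  | zero => simp
  | succ Y ih =>
      rw [Nat.mul_succ, Finset.sum_range_add]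
      refine (abs_add_le _ _).trans ?_
      have h1 : ∑ x ∈ range Q, u (Q * Y + x) = ∑ v ∈ range Q, u (v + Q * Y) :=
        Finset.sum_congr rfl fun v _ => by rw [add_comm]
      rw [h1]
      push_cast
      linarith [h Y]

/-- sums over `[1,X]` from sums over aligned blocks -/
theorem sum_of_blocks (u : ℕ → ℝ) (hu : ∀ m, |u m| ≤ 4) {Q : ℕ} (hQ : 1 ≤ Q) {τ : ℝ}
    (hτ : 0 ≤ τ) (h : ∀ y, |∑ v ∈ range Q, u (v + Q * y)| ≤ τ * Q) (X : ℕ) :
    |∑ m ∈ Icc 1 X, u m| ≤ τ * (X + 1) + 8 * Q := by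
  have h1 : ∑ m ∈ range (X + 1), u m = ∑ m ∈ Icc 1 X, u m + u 0 := by
    rw [Finset.sum_range_succ']
    congr 1
    rw [Finset.range_eq_Ico, Finset.sum_Ico_add' (fun m => u m) 0 X 1]
    refine Finset.sum_congr ?_ fun _ _ => rfl
    ext m
    simp only [Finset.mem_Ico, Finset.mem_Icc]
    omega
  have h2 : X + 1 = Q * ((X + 1) / Q) + (X + 1) % Q := (Nat.div_add_mod _ _).symm
  have hR : (X + 1) % Q < Q := Nat.mod_lt _ hQ
  have h3 : ∑ m ∈ range (X + 1), u m = ∑ m ∈ range (Q * ((X + 1) / Q)), u m +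
      ∑ v ∈ range ((X + 1) % Q), u (Q * ((X + 1) / Q) + v) := by
    conv_lhs => rw [h2]
    rw [Finset.sum_range_add]
  have h4 : |∑ v ∈ range ((X + 1) % Q), u (Q * ((X + 1) / Q) + v)| ≤ 4 * Q := by
    refine (Finset.abs_sum_le_sum_abs _ _).trans ?_
    refine (Finset.sum_le_card_nsmul _ _ 4 fun v _ => hu _).trans ?_
    rw [Finset.card_range, nsmul_eq_mul, mul_comm]
    have : (((X + 1) % Q : ℕ) : ℝ) ≤ Q := by exact_mod_cast hR.le
    linarith
  have h5 := NonStrA_full u h ((X + 1) / Q)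
  have h6 : (((X + 1) / Q : ℕ) : ℝ) * (τ * Q) ≤ τ * (X + 1) := by
    have : (((X + 1) / Q : ℕ) : ℝ) * Q ≤ (X + 1 : ℕ) := by
      exact_mod_cast Nat.div_mul_le_self (X + 1) Q
    push_cast at this
    nlinarith
  have h7 := hu 0
  have hQ' : (1 : ℝ) ≤ Q := by exact_mod_cast hQ
  have h8 : ∑ m ∈ Icc 1 X, u m = ∑ m ∈ range (Q * ((X + 1) / Q)), u m +
      ∑ v ∈ range ((X + 1) % Q), u (Q * ((X + 1) / Q) + v) - u 0 := by
    linarith
  rw [h8]
  refine (abs_sub _ _).trans ?_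
  refine (add_le_add (abs_add_le _ _) le_rfl).trans ?_
  linarith

end Pool.Agent.Lib.MP_3e612f_nt.PB
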