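import Pool.Agent.Lib.MP_3e612f_nt.PB.Defs

/-! Splitting a function on `ι → G` into an invariant part and balanced parts
(blueprint, section Proj). -/

set_option autoImplicit false

namespace Pool.Agent.Lib.MP_3e612f_nt.PB

open Finset

section Proj

variable {G : Type} [Group G] [Fintype G] {n : ℕ}

open Classical in
/-- the number of elements of `N` -/
noncomputable def Proj_c (N : Subgroup G) : ℝ := ∑ ν : G, (if ν ∈ N then (1 : ℝ) else 0)

theorem Proj_c_pos (N : Subgroup G) : 0 < Proj_c N := by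
  classical
  unfold Proj_c
  refine Finset.sum_pos' (fun ν _ => by split_ifs <;> norm_num) ⟨1, Finset.mem_univ _, ?_⟩
  rw [if_pos N.one_mem]
  norm_num

open Classical in
/-- average over the modifications `ω i ↦ ω i * ν` -/
noncomputable def Proj_Pr (i : Fin n) (N : Subgroup G) (W : (Fin n → G) → ℝ) :
    (Fin n → G) → ℝ :=
  fun ω => (∑ ν : G, (if ν ∈ N then W (Function.update ω i (ω i * ν)) else 0)) / Proj_c N

theorem Proj_abs_le (i : Fin n) (N : Subgroup G) {W : (Fin n → G) → ℝ} (hW : ∀ ω, |W ω| ≤ 1)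
    (ω : Fin n → G) : |Proj_Pr i N W ω| ≤ 1 := by
  classical
  unfold Proj_Pr
  rw [abs_div, abs_of_pos (Proj_c_pos N), div_le_one (Proj_c_pos N)]
  refine (Finset.abs_sum_le_sum_abs _ _).trans ?_
  unfold Proj_c
  refine Finset.sum_le_sum fun ν _ => ?_
  split_ifs
  · exact hW _
  · simp

theorem Proj_inv (i : Fin n) (N : Subgroup G) (W : (Fin n → G) → ℝ) :
    InvAt i N (Proj_Pr i N W) := by
  classical
  intro ω ν0 hν0
  unfold Proj_Pr
  congr 1
  simp only [Function.update_self, Function.update_idem]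
  rw [← Equiv.sum_comp (Equiv.mulLeft ν0)
    (fun ν => if ν ∈ N then W (Function.update ω i (ω i * ν)) else 0)]
  refine Finset.sum_congr rfl fun ν _ => ?_
  rw [Equiv.coe_mulLeft, N.mul_mem_cancel_left hν0, mul_assoc]

theorem Proj_inv_other {i j : Fin n} (hij : j ≠ i) (N M : Subgroup G) {W : (Fin n → G) → ℝ}
    (hW : InvAt j M W) : InvAt j M (Proj_Pr i N W) := by
  classical
  intro ω m hm
  unfold Proj_Pr
  congr 1
  refine Finset.sum_congr rfl fun ν _ => ?_
  split_ifs with h
  · rw [Function.update_of_ne hij.symm, Function.update_comm hij]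
    have h1 := hW (Function.update ω i (ω i * ν)) m hm
    rw [Function.update_of_ne hij] at h1
    exact h1
  · rfl

theorem Proj_bal (i : Fin n) (N : Subgroup G) (W : (Fin n → G) → ℝ) :
    BalAt i N (fun ω => W ω - Proj_Pr i N W ω) := by
  classical
  intro ω
  have h1 : ∀ ν : G, (if ν ∈ N then W (Function.update ω i (ω i * ν)) -
      Proj_Pr i N W (Function.update ω i (ω i * ν)) else 0)
      = (if ν ∈ N then W (Function.update ω i (ω i * ν)) else 0) -
        (if ν ∈ N then (1 : ℝ) else 0) * Proj_Pr i N W ω := by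
    intro ν
    split_ifs with h
    · rw [Proj_inv i N W ω ν h, one_mul]
    · simp
  have h2 : ∑ ν : G, ((if ν ∈ N then W (Function.update ω i (ω i * ν)) else 0) -
        (if ν ∈ N then (1 : ℝ) else 0) * Proj_Pr i N W ω) = 0 := by
    rw [Finset.sum_sub_distrib, ← Finset.sum_mul]
    have h3 : ∑ ν : G, (if ν ∈ N then (1 : ℝ) else 0) = Proj_c N := by
      unfold Proj_c
      refine Finset.sum_congr rfl fun ν _ => ?_
      congr
    rw [h3]
    unfold Proj_Pr
    rw [mul_div_cancel₀ _ (Proj_c_pos N).ne', sub_eq_zero]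
  rw [← h2]
  refine Finset.sum_congr rfl fun ν _ => ?_
  rw [← h1 ν]
  congr

theorem Proj_bot (i : Fin n) (W : (Fin n → G) → ℝ) (ω : Fin n → G) :
    Proj_Pr i (⊥ : Subgroup G) W ω = W ω := by
  classical
  unfold Proj_Pr Proj_c
  simp only [Subgroup.mem_bot, Finset.sum_ite_eq', Finset.mem_univ, if_true, mul_one,
    Function.update_eq_self, div_one]

/-- the successive averages -/
noncomputable def Proj_seq (N : Fin n → Subgroup G) (W : (Fin n → G) → ℝ) :
    ℕ → (Fin n → G) → ℝ
  | 0 => W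
  | j + 1 => if h : j < n then Proj_Pr ⟨j, h⟩ (N ⟨j, h⟩) (Proj_seq N W j) else Proj_seq N W j

theorem Proj_seq_succ (N : Fin n → Subgroup G) (W : (Fin n → G) → ℝ) (i : Fin n) :
    Proj_seq N W (i.val + 1) = Proj_Pr i (N i) (Proj_seq N W i.val) := by
  rw [Proj_seq, dif_pos i.isLt]

theorem Proj_seq_abs (N : Fin n → Subgroup G) {W : (Fin n → G) → ℝ} (hW : ∀ ω, |W ω| ≤ 1)
    (j : ℕ) : ∀ ω, |Proj_seq N W j ω| ≤ 1 := by
  induction j with
  | zero => exact hW
  | succ j ih =>
    rw [Proj_seq]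
    split_ifs with h
    · exact Proj_abs_le _ _ ih
    · exact ih

theorem Proj_seq_inv (N : Fin n → Subgroup G) (W : (Fin n → G) → ℝ) (i : Fin n) (j : ℕ)
    (hj : i.val < j) : InvAt i (N i) (Proj_seq N W j) := by
  induction j with
  | zero => omega
  | succ j ih =>
    rw [Proj_seq]
    split_ifs with h
    · rcases eq_or_ne i.val j with hij | hij
      · have : (⟨j, h⟩ : Fin n) = i := Fin.ext hij.symm
        rw [this]
        exact Proj_inv i (N i) _
      · refine Proj_inv_other (fun h1 => hij (by rw [h1])) _ _ (ih (by omega))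
    · exact ih (by omega)

end Proj

theorem exists_split {G : Type} [Group G] [Fintype G] {n : ℕ} (N : Fin n → Subgroup G)
    (W : (Fin n → G) → ℝ) (hW : ∀ ω, |W ω| ≤ 1) :
    ∃ (We : (Fin n → G) → ℝ) (Δ : Fin n → (Fin n → G) → ℝ),
      (∀ ω, |We ω| ≤ 1) ∧ (∀ i, InvAt i (N i) We) ∧ (∀ ω, W ω = We ω + ∑ i, Δ i ω) ∧
      (∀ i ω, |Δ i ω| ≤ 2) ∧ (∀ i, BalAt i (N i) (Δ i)) ∧ (∀ i, N i = ⊥ → ∀ ω, Δ i ω = 0) := by
  refine ⟨Proj_seq N W n, fun i ω => Proj_seq N W i.val ω - Proj_seq N W (i.val + 1) ω,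
    Proj_seq_abs N hW n, fun i => Proj_seq_inv N W i n i.isLt, fun ω => ?_, fun i ω => ?_,
    fun i => ?_, fun i hi ω => ?_⟩
  · rw [Fin.sum_univ_eq_sum_range (fun j => Proj_seq N W j ω - Proj_seq N W (j + 1) ω) n,
      Finset.sum_range_sub' (fun j => Proj_seq N W j ω) n]
    have : Proj_seq N W 0 ω = W ω := rfl
    rw [this]
    ring
  · have h1 := Proj_seq_abs N hW i.val ω
    have h2 := Proj_seq_abs N hW (i.val + 1) ω
    refine (abs_sub _ _).trans ?_
    linarith
  · change BalAt i (N i) (fun ω => Proj_seq N W i.val ω - Proj_seq N W (i.val + 1) ω)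
    rw [Proj_seq_succ]
    exact Proj_bal i (N i) _
  · change Proj_seq N W i.val ω - Proj_seq N W (i.val + 1) ω = 0
    rw [Proj_seq_succ, hi, Proj_bot, sub_self]

end Pool.Agent.Lib.MP_3e612f_nt.PB
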