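import Pool.Agent.Lib.MP_3e612f_nt.PB.Defs

/-! Averages of translates on a finite group, norms (blueprint, section Oper). -/

set_option autoImplicit false

namespace Pool.Agent.Lib.MP_3e612f_nt.PB

open Finset

variable {K : Type} [Group K] [Fintype K]

theorem nrm_nonneg (Θ : K → ℝ) : 0 ≤ nrm Θ := by
  unfold nrm
  exact Finset.sum_nonneg fun z _ => sq_nonneg _

theorem nrm_tr (x : K) (Θ : K → ℝ) : nrm (tr x Θ) = nrm Θ := by
  unfold nrm tr
  exact Equiv.sum_comp (Equiv.mulRight x) (fun z => Θ z ^ 2)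

theorem abs_le_sqrt_nrm (Θ : K → ℝ) (z : K) : |Θ z| ≤ Real.sqrt (nrm Θ) := by
  refine Real.abs_le_sqrt ?_
  unfold nrm
  exact Finset.single_le_sum (f := fun z => Θ z ^ 2) (fun z _ => sq_nonneg _) (Finset.mem_univ z)

/-- convexity of the square, for a weighted average of vectors -/
theorem nrm_weighted {ι : Type} (s : Finset ι) (w : ι → ℝ) (hw : ∀ i ∈ s, 0 ≤ w i)
    (hw1 : ∑ i ∈ s, w i = 1) (Θ : ι → K → ℝ) :
    nrm (fun z => ∑ i ∈ s, w i * Θ i z) ≤ ∑ i ∈ s, w i * nrm (Θ i) := by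
  unfold nrm
  have h1 : ∀ z : K, (∑ i ∈ s, w i * Θ i z) ^ 2 ≤ ∑ i ∈ s, w i * Θ i z ^ 2 := by
    intro z
    have h2 : ConvexOn ℝ Set.univ (fun x : ℝ => x ^ 2) := even_two.convexOn_pow
    have h3 := h2.map_sum_le hw hw1 (p := fun i => Θ i z) (fun i _ => Set.mem_univ _)
    simpa only [smul_eq_mul] using h3
  refine (Finset.sum_le_sum fun z _ => h1 z).trans_eq ?_
  rw [Finset.sum_comm]
  refine Finset.sum_congr rfl fun i _ => ?_
  rw [Finset.mul_sum]

theorem OperA_av_eq (V : Finset ℕ) (e : ℕ → K) (Θ : K → ℝ) :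
    av V e Θ = fun z => ∑ u ∈ V, 1 / (V.card : ℝ) * tr (e u) Θ z := by
  funext z
  unfold av tr
  rw [← Finset.mul_sum]
  ring

theorem nrm_av_le {V : Finset ℕ} (hV : V.Nonempty) (e : ℕ → K) (Θ : K → ℝ) :
    nrm (av V e Θ) ≤ nrm Θ := by
  have hc : (0 : ℝ) < V.card := by exact_mod_cast hV.card_pos
  rw [OperA_av_eq]
  refine (nrm_weighted V (fun _ => 1 / (V.card : ℝ)) (fun _ _ => by positivity) ?_
    (fun u => tr (e u) Θ)).trans_eq ?_
  · rw [Finset.sum_const, nsmul_eq_mul, mul_one_div, div_self hc.ne']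
  · simp only [nrm_tr]
    rw [Finset.sum_const, nsmul_eq_mul, ← mul_assoc, mul_one_div, div_self hc.ne', one_mul]

/-- splitting off a subset -/
theorem nrm_av_split {U V : Finset ℕ} (hUV : U ⊆ V) (hU : U.Nonempty) (e : ℕ → K) (Θ : K → ℝ) :
    nrm (av V e Θ) ≤ (U.card : ℝ) / V.card * nrm (av U e Θ) +
      (1 - (U.card : ℝ) / V.card) * nrm Θ := by
  classical
  have hV : V.Nonempty := hU.mono hUV
  have hcV : (0 : ℝ) < V.card := by exact_mod_cast hV.card_pos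
  have hcU : (0 : ℝ) < U.card := by exact_mod_cast hU.card_pos
  have hcard : ((V \ U).card : ℝ) = V.card - U.card := by
    rw [Finset.card_sdiff_of_subset hUV, Nat.cast_sub (Finset.card_le_card hUV)]
  let w : Option ℕ → ℝ := fun o => o.elim ((U.card : ℝ) / V.card) (fun _ => 1 / (V.card : ℝ))
  let T : Option ℕ → K → ℝ := fun o => o.elim (av U e Θ) (fun u => tr (e u) Θ)
  have h1 : av V e Θ = fun z => ∑ o ∈ Finset.insertNone (V \ U), w o * T o z := by
    funext z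
    rw [Finset.sum_insertNone]
    show av V e Θ z = (U.card : ℝ) / V.card * av U e Θ z +
      ∑ u ∈ V \ U, 1 / (V.card : ℝ) * tr (e u) Θ z
    rw [← Finset.mul_sum]
    unfold av tr
    have h2 := Finset.sum_sdiff hUV (f := fun u => Θ (z * e u))
    rw [← h2]
    field_simp
    ring
  rw [h1]
  refine (nrm_weighted _ w ?_ ?_ T).trans_eq ?_
  · intro o _
    cases o with
    | none =>
      show 0 ≤ (U.card : ℝ) / V.card
      positivity
    | some u =>
      show 0 ≤ 1 / (V.card : ℝ)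
      positivity
  · rw [Finset.sum_insertNone]
    show (U.card : ℝ) / V.card + ∑ u ∈ V \ U, 1 / (V.card : ℝ) = 1
    rw [Finset.sum_const, nsmul_eq_mul, hcard]
    field_simp
    ring
  · rw [Finset.sum_insertNone]
    show (U.card : ℝ) / V.card * nrm (av U e Θ) +
      ∑ u ∈ V \ U, 1 / (V.card : ℝ) * nrm (tr (e u) Θ) = _
    simp only [nrm_tr]
    rw [Finset.sum_const, nsmul_eq_mul, hcard]
    field_simp

theorem OperA_var (V : Finset ℕ) (x : ℕ → ℝ) {u v : ℕ} (hu : u ∈ V) (hv : v ∈ V) :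
    (x u - x v) ^ 2 ≤ V.card * ∑ a ∈ V, x a ^ 2 - (∑ a ∈ V, x a) ^ 2 := by
  classical
  have h1 : ∑ a ∈ V, ∑ b ∈ V, (x a - x b) ^ 2 =
      2 * (V.card * ∑ a ∈ V, x a ^ 2 - (∑ a ∈ V, x a) ^ 2) := by
    have h2 : ∀ a ∈ V, ∑ b ∈ V, (x a - x b) ^ 2 =
        V.card * x a ^ 2 - 2 * x a * ∑ b ∈ V, x b + ∑ b ∈ V, x b ^ 2 := by
      intro a _
      have h3 : ∀ b ∈ V, (x a - x b) ^ 2 = x a ^ 2 - 2 * x a * x b + x b ^ 2 := by
        intro b _
        ring
      rw [Finset.sum_congr rfl h3, Finset.sum_add_distrib, Finset.sum_sub_distrib,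
        Finset.sum_const, nsmul_eq_mul, Finset.mul_sum]
    rw [Finset.sum_congr rfl h2, Finset.sum_add_distrib, Finset.sum_sub_distrib,
      Finset.sum_const, nsmul_eq_mul, ← Finset.mul_sum, ← Finset.sum_mul, ← Finset.mul_sum]
    ring
  rcases eq_or_ne u v with rfl | huv
  · have h4 : 0 ≤ ∑ a ∈ V, ∑ b ∈ V, (x a - x b) ^ 2 :=
      Finset.sum_nonneg fun a _ => Finset.sum_nonneg fun b _ => sq_nonneg _
    rw [sub_self]
    nlinarith
  · have h5 : ∑ a ∈ ({u, v} : Finset ℕ), ∑ b ∈ V, (x a - x b) ^ 2 ≤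
        ∑ a ∈ V, ∑ b ∈ V, (x a - x b) ^ 2 := by
      refine Finset.sum_le_sum_of_subset_of_nonneg ?_ fun a _ _ =>
        Finset.sum_nonneg fun b _ => sq_nonneg _
      intro a ha
      rcases Finset.mem_insert.1 ha with rfl | ha
      · exact hu
      · rw [Finset.mem_singleton.1 ha]
        exact hv
    rw [Finset.sum_pair huv] at h5
    have h6 : (x u - x v) ^ 2 ≤ ∑ b ∈ V, (x u - x b) ^ 2 :=
      Finset.single_le_sum (f := fun b => (x u - x b) ^ 2) (fun b _ => sq_nonneg _) hv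
    have h7 : (x v - x u) ^ 2 ≤ ∑ b ∈ V, (x v - x b) ^ 2 :=
      Finset.single_le_sum (f := fun b => (x v - x b) ^ 2) (fun b _ => sq_nonneg _) hu
    have h8 : (x v - x u) ^ 2 = (x u - x v) ^ 2 := by ring
    linarith

/-- the defect of an average controls the differences -/
theorem nrm_av_defect {V : Finset ℕ} (e : ℕ → K) (Θ : K → ℝ) {u u' : ℕ} (hu : u ∈ V)
    (hu' : u' ∈ V) :
    1 / (V.card : ℝ) ^ 2 * nrm (fun z => Θ (z * e u) - Θ (z * e u')) ≤
      nrm Θ - nrm (av V e Θ) := by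
  have hcV : (0 : ℝ) < V.card := by exact_mod_cast Finset.card_pos.2 ⟨u, hu⟩
  have h1 : nrm Θ = ∑ z : K, 1 / (V.card : ℝ) * ∑ a ∈ V, Θ (z * e a) ^ 2 := by
    rw [← Finset.mul_sum, Finset.sum_comm]
    have h2 : ∀ a ∈ V, ∑ z : K, Θ (z * e a) ^ 2 = nrm Θ := fun a _ => nrm_tr (e a) Θ
    rw [Finset.sum_congr rfl h2, Finset.sum_const, nsmul_eq_mul, ← mul_assoc, one_div,
      inv_mul_cancel₀ hcV.ne', one_mul]
  have h3 : nrm Θ - nrm (av V e Θ) = ∑ z : K, (1 / (V.card : ℝ) * ∑ a ∈ V, Θ (z * e a) ^ 2 -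
      ((∑ a ∈ V, Θ (z * e a)) / (V.card : ℝ)) ^ 2) := by
    rw [Finset.sum_sub_distrib, ← h1]
    rfl
  rw [h3]
  unfold nrm
  rw [Finset.mul_sum]
  refine Finset.sum_le_sum fun z _ => ?_
  have h4 := OperA_var V (fun a => Θ (z * e a)) hu hu'
  have h5 : 1 / (V.card : ℝ) * ∑ a ∈ V, Θ (z * e a) ^ 2 -
      ((∑ a ∈ V, Θ (z * e a)) / (V.card : ℝ)) ^ 2 =
      1 / (V.card : ℝ) ^ 2 * (V.card * ∑ a ∈ V, Θ (z * e a) ^ 2 -
        (∑ a ∈ V, Θ (z * e a)) ^ 2) := by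
    field_simp
  rw [h5]
  exact mul_le_mul_of_nonneg_left h4 (by positivity)

end Pool.Agent.Lib.MP_3e612f_nt.PB
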