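import Pool.Agent.Lib.MP_3e612f_nt.PB.OperA

/-! Balanced functions (blueprint, section Oper). -/

set_option autoImplicit false

namespace Pool.Agent.Lib.MP_3e612f_nt.PB

open Finset

variable {K : Type} [Group K] [Fintype K]

open Classical in
private theorem OperB_shift (Λ : Subgroup K) (Θ : K → ℝ) (z : K) {y : K} (hy : y ∈ Λ) :
    ∑ x : K, (if x ∈ Λ then Θ (z * x) else 0) = ∑ x : K, (if x ∈ Λ then Θ (z * x * y) else 0) := by
  rw [← Equiv.sum_comp (Equiv.mulRight y) (fun x : K => if x ∈ Λ then Θ (z * x) else 0)]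
  refine Finset.sum_congr rfl fun x _ => ?_
  simp only [Equiv.coe_mulRight]
  rw [Λ.mul_mem_cancel_right hy, mul_assoc]

theorem Bal_mono {Λ Λ' : Subgroup K} (h : Λ ≤ Λ') {Θ : K → ℝ} (hb : Bal Λ Θ) : Bal Λ' Θ := by
  classical
  intro z
  set S : ℝ := ∑ x : K, (if x ∈ Λ' then Θ (z * x) else 0) with hS
  have h1 : ∑ y : K, (if y ∈ Λ then S else 0) = 0 := by
    have e1 : ∀ y : K, (if y ∈ Λ then S else 0) =
        ∑ x : K, (if x ∈ Λ' then (if y ∈ Λ then Θ (z * x * y) else 0) else 0) := by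
      intro y
      split_ifs with hy
      · rw [hS, OperB_shift Λ' Θ z (h hy)]
      · simp
    rw [Finset.sum_congr rfl fun y _ => e1 y, Finset.sum_comm]
    refine Finset.sum_eq_zero fun x _ => ?_
    split_ifs with hx
    · have h2 := hb (z * x)
      convert h2 using 2
    · simp
  rw [← Finset.sum_filter, Finset.sum_const, nsmul_eq_mul] at h1
  have h2 : 0 < (Finset.univ.filter (fun y : K => y ∈ Λ)).card :=
    Finset.card_pos.2 ⟨1, by simp [Λ.one_mem]⟩
  have h3 : ((Finset.univ.filter (fun y : K => y ∈ Λ)).card : ℝ) ≠ 0 := by exact_mod_cast h2.ne'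
  have h4 := (mul_eq_zero.1 h1).resolve_left h3
  exact h4

theorem Bal_bot {Θ : K → ℝ} (hb : Bal (⊥ : Subgroup K) Θ) (z : K) : Θ z = 0 := by
  classical
  have h := hb z
  rw [Finset.sum_eq_single (1 : K)] at h
  · simpa using h
  · intro x _ hx
    rw [if_neg]
    rwa [Subgroup.mem_bot]
  · intro h1
    exact absurd (Finset.mem_univ _) h1

/-- translation by an element normalising `Λ` -/
theorem Bal_tr {Λ : Subgroup K} {x : K} (hx : ∀ y, y ∈ Λ ↔ x * y * x⁻¹ ∈ Λ) {Θ : K → ℝ}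
    (hb : Bal Λ Θ) : Bal Λ (tr x Θ) := by
  classical
  intro z
  have h := hb (z * x)
  rw [← Equiv.sum_comp (MulAut.conj x).toEquiv]
  refine Eq.trans (Finset.sum_congr rfl fun y _ => ?_) h
  have e1 : (MulAut.conj x).toEquiv y = x * y * x⁻¹ := rfl
  rw [e1]
  have e2 : tr x Θ (z * (x * y * x⁻¹)) = Θ (z * x * y) := by
    unfold tr
    congr 1
    group
  rw [e2]
  by_cases hy : y ∈ Λ
  · rw [if_pos hy, if_pos ((hx y).1 hy)]
  · rw [if_neg hy, if_neg (fun h1 => hy ((hx y).2 h1))]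

theorem Bal_sum {Λ : Subgroup K} {ι : Type} (s : Finset ι) (w : ι → ℝ) (Θ : ι → K → ℝ)
    (hb : ∀ i ∈ s, Bal Λ (Θ i)) : Bal Λ (fun z => ∑ i ∈ s, w i * Θ i z) := by
  classical
  intro z
  have e1 : ∀ x : K, (if x ∈ Λ then ∑ i ∈ s, w i * Θ i (z * x) else 0) =
      ∑ i ∈ s, w i * (if x ∈ Λ then Θ i (z * x) else 0) := by
    intro x
    split_ifs with hx
    · rfl
    · simp
  have e2 : ∑ x : K, (if x ∈ Λ then ∑ i ∈ s, w i * Θ i (z * x) else 0) = 0 := by
    rw [Finset.sum_congr rfl fun x _ => e1 x, Finset.sum_comm]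
    refine Finset.sum_eq_zero fun i hi => ?_
    rw [← Finset.mul_sum]
    have h := hb i hi z
    have h' : ∑ x : K, (if x ∈ Λ then Θ i (z * x) else 0) = 0 := by
      refine Eq.trans (Finset.sum_congr rfl fun x _ => ?_) h
      congr 1
    rw [h', mul_zero]
  refine Eq.trans (Finset.sum_congr rfl fun x _ => ?_) e2
  congr 1

theorem Bal_av {Λ : Subgroup K} {V : Finset ℕ} {e : ℕ → K}
    (he : ∀ u ∈ V, ∀ y, y ∈ Λ ↔ e u * y * (e u)⁻¹ ∈ Λ) {Θ : K → ℝ}
    (hb : Bal Λ Θ) : Bal Λ (av V e Θ) := by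
  have h := Bal_sum V (fun _ => (1 : ℝ) / V.card) (fun u => tr (e u) Θ)
    (fun u hu => Bal_tr (he u hu) hb)
  have e1 : av V e Θ = fun z => ∑ u ∈ V, (1 : ℝ) / V.card * tr (e u) Θ z := by
    funext z
    unfold av tr
    rw [← Finset.mul_sum]
    ring
  rw [e1]
  exact h

/-- a balanced function is moved by some element of `Λ` -/
theorem Bal_exists {Λ : Subgroup K} {Θ : K → ℝ} (hb : Bal Λ Θ) :
    ∃ x ∈ Λ, 2 * nrm Θ ≤ nrm (fun z => Θ (z * x) - Θ z) := by
  classical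
  by_contra hcon
  push Not at hcon
  have e0 : ∀ x : K, nrm (fun z => Θ (z * x) - Θ z) = 2 * nrm Θ - 2 * ∑ z, Θ z * Θ (z * x) := by
    intro x
    have h1 := nrm_tr x Θ
    unfold nrm tr at h1
    unfold nrm
    have h2 : ∀ z : K, (Θ (z * x) - Θ z) ^ 2 =
        Θ (z * x) ^ 2 + Θ z ^ 2 - 2 * (Θ z * Θ (z * x)) := fun z => by ring
    rw [Finset.sum_congr rfl fun z _ => h2 z, Finset.sum_sub_distrib, Finset.sum_add_distrib, h1,
      ← Finset.mul_sum]
    ring
  have e1 : ∑ x ∈ Finset.univ.filter (fun x : K => x ∈ Λ), ∑ z, Θ z * Θ (z * x) = 0 := by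
    rw [Finset.sum_comm]
    refine Finset.sum_eq_zero fun z _ => ?_
    rw [← Finset.mul_sum, Finset.sum_filter]
    have h := hb z
    have h' : ∑ x : K, (if x ∈ Λ then Θ (z * x) else 0) = 0 := by
      refine Eq.trans (Finset.sum_congr rfl fun x _ => ?_) h
      congr 1
    rw [h', mul_zero]
  have e2 : ∑ x ∈ Finset.univ.filter (fun x : K => x ∈ Λ), nrm (fun z => Θ (z * x) - Θ z) <
      ∑ _x ∈ Finset.univ.filter (fun x : K => x ∈ Λ), 2 * nrm Θ := by
    refine Finset.sum_lt_sum_of_nonempty ⟨1, by simp [Λ.one_mem]⟩ fun x hx => ?_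
    exact hcon x (by simpa using hx)
  have e3 : ∑ x ∈ Finset.univ.filter (fun x : K => x ∈ Λ), 2 * ∑ z, Θ z * Θ (z * x) = 0 := by
    rw [← Finset.mul_sum, e1, mul_zero]
  rw [Finset.sum_congr rfl fun x _ => e0 x, Finset.sum_sub_distrib, e3, sub_zero] at e2
  exact lt_irrefl _ e2

end Pool.Agent.Lib.MP_3e612f_nt.PB
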