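import Pool.Agent.Lib.MP_3e612f_nt.PB.Lin

/-! Pieces (blueprint, section Piece). -/

set_option autoImplicit false

namespace Pool.Agent.Lib.MP_3e612f_nt.PB

open Finset

variable {G : Type} [Group G] {q : ℕ → ℕ} {g : ℕ → ℕ → G} {B : ℕ}

/-- the whole product is the ordered product of the pieces -/
theorem zz_prod (q : ℕ → ℕ) (g : ℕ → ℕ → G) {c : ℕ → ℕ} (hc0 : c 0 = 0) (hc : Monotone c)
    (n x : ℕ) : (List.ofFn fun i : Fin n => zz q g c i x).prod = hw q g 0 (c n) x := by
  induction n with
  | zero => rw [List.ofFn_zero, List.prod_nil, hc0, hw_zero_len]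
  | succ n ih =>
    rw [List.ofFn_succ', List.prod_concat]
    have h1 : (List.ofFn fun i : Fin n => zz q g c (i.castSucc : Fin (n + 1)) x).prod
        = hw q g 0 (c n) x := ih
    have h2 : c (n + 1) = c n + (c (n + 1) - c n) := by
      have h3 : c n ≤ c (n + 1) := hc (Nat.le_succ n)
      omega
    rw [h1, h2, hw_add, zero_add]
    congr 1

/-- enlarging the modulus does not matter -/
theorem PieceA_hw_mod_big (hq : Rad B q) (j : ℕ) {k l : ℕ} (h : k ≤ l) (n : ℕ) :
    hw q g j k (n % Qr q j l) = hw q g j k n := by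
  have hdvd : Qr q j k ∣ Qr q j l := by
    obtain ⟨d, rfl⟩ := Nat.exists_eq_add_of_le h
    rw [Qr_add]
    exact dvd_mul_right _ _
  rw [← hw_mod hq j k (n % Qr q j l), Nat.mod_mod_of_dvd _ hdvd, hw_mod hq]

/-- a lower piece only depends on the low part -/
theorem PieceA_zz_low (hq : Rad B q) {c : ℕ → ℕ} (hc : Monotone c) {i j : ℕ} (hj : j < i)
    (x : ℕ) : zz q g c j (x % Qr q 0 (c i)) = zz q g c j x := by
  have h1 : c (j + 1) ≤ c i := hc hj
  have h0 : c j ≤ c (j + 1) := hc (Nat.le_succ j)
  have h2 : Qr q 0 (c i) = Qr q 0 (c j) * Qr q (c j) (c i - c j) := by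
    have h3 := Qr_add q 0 (c j) (c i - c j)
    rw [zero_add] at h3
    rw [← h3]
    congr 1
    omega
  unfold zz
  rw [h2, Nat.mod_mul_right_div_self, PieceA_hw_mod_big hq (c j) (by omega)]

open Classical in
/-- a function of the pieces as a function of the low part, the piece `i`, and the high part -/
theorem exists_rep [Fintype G] (hq : Rad B q) {c : ℕ → ℕ} (hc0 : c 0 = 0) (hc : Monotone c)
    {n : ℕ} (i : Fin n) (V : (Fin n → G) → ℝ) :
    ∃ Φ : ℕ → G → ℕ → ℝ,
      (∀ x, V (fun j => zz q g c j x) =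
        Φ (x % Qr q 0 (c i)) (hw q g (c i) (c (i + 1) - c i) (x / Qr q 0 (c i)))
          (x / Qr q 0 (c (i + 1)))) ∧
      (∀ C : ℝ, (∀ ω, |V ω| ≤ C) → ∀ l γ u, |Φ l γ u| ≤ C) ∧
      (∀ N : Subgroup G, BalAt i N V → ∀ l γ u,
        ∑ ν : G, (if ν ∈ N then Φ l (γ * ν) u else 0) = 0) := by
  let om : ℕ → G → ℕ → (Fin n → G) := fun l γ u j =>
    if j < i then zz q g c j l else if j = i then γ else
      hw q g (c j) (c (j + 1) - c j) (u / Qr q (c (i + 1)) (c j - c (i + 1)))
  refine ⟨fun l γ u => V (om l γ u), fun x => ?_, fun C hC l γ u => hC _, fun N hN l γ u => ?_⟩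
  · have h : (fun j : Fin n => zz q g c j x) = om (x % Qr q 0 (c i))
        (hw q g (c i) (c (i + 1) - c i) (x / Qr q 0 (c i))) (x / Qr q 0 (c (i + 1))) := by
      funext j
      change zz q g c j x = if j < i then zz q g c j (x % Qr q 0 (c i)) else if j = i then
        hw q g (c i) (c (i + 1) - c i) (x / Qr q 0 (c i)) else
        hw q g (c j) (c (j + 1) - c j)
          (x / Qr q 0 (c (i + 1)) / Qr q (c (i + 1)) (c j - c (i + 1)))
      split_ifs with h1 h2
      · rw [PieceA_zz_low hq hc (Fin.lt_def.mp h1)]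
      · rw [h2]
        rfl
      · have h3 : (i : ℕ) < (j : ℕ) := by
          have h4 : (j : ℕ) ≠ (i : ℕ) := fun h => h2 (Fin.ext h)
          have h5 : ¬ (j : ℕ) < (i : ℕ) := fun h => h1 (Fin.lt_def.mpr h)
          omega
        have h6 : c (i + 1) ≤ c j := hc h3
        have h7 : Qr q 0 (c j) = Qr q 0 (c (i + 1)) * Qr q (c (i + 1)) (c j - c (i + 1)) := by
          have h8 := Qr_add q 0 (c (i + 1)) (c j - c (i + 1))
          rw [zero_add] at h8
          rw [← h8]
          congr 1
          omega
        unfold zz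
        rw [Nat.div_div_eq_div_mul, ← h7]
    change V (fun j => zz q g c j x) = V _
    rw [h]
  · have h := hN (om l γ u)
    have h1 : om l γ u i = γ := by
      change (if i < i then zz q g c i l else if i = i then γ else
        hw q g (c i) (c (i + 1) - c i) (u / Qr q (c (i + 1)) (c i - c (i + 1)))) = γ
      rw [if_neg (lt_irrefl i), if_pos rfl]
    have h2 : ∀ ν : G, Function.update (om l γ u) i (om l γ u i * ν) = om l (γ * ν) u := by
      intro ν
      rw [h1]
      funext j
      rcases eq_or_ne j i with rfl | hji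
      · rw [Function.update_self]
        change γ * ν = (if j < j then zz q g c j l else if j = j then γ * ν else
          hw q g (c j) (c (j + 1) - c j) (u / Qr q (c (j + 1)) (c j - c (j + 1))))
        rw [if_neg (lt_irrefl j), if_pos rfl]
      · rw [Function.update_of_ne hji]
        change (if j < i then zz q g c j l else if j = i then γ else
          hw q g (c j) (c (j + 1) - c j) (u / Qr q (c (i + 1)) (c j - c (i + 1)))) =
          (if j < i then zz q g c j l else if j = i then γ * ν else
          hw q g (c j) (c (j + 1) - c j) (u / Qr q (c (i + 1)) (c j - c (i + 1))))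
        rw [if_neg hji, if_neg hji]
    refine Eq.trans (Finset.sum_congr rfl fun ν _ => ?_) h
    split_ifs with hν
    · rw [h2]
    · rfl

end Pool.Agent.Lib.MP_3e612f_nt.PB
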