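import Pool.Agent.Lib.MP_3e612f_nt.PB.PieceA

/-! Invariant functions of the pieces (blueprint, section Piece). -/

set_option autoImplicit false

namespace Pool.Agent.Lib.MP_3e612f_nt.PB

open Finset

variable {G : Type} [Group G] {q : ℕ → ℕ} {g : ℕ → ℕ → G} {B : ℕ}

/-- change of coordinates inside the invariance groups -/
theorem PieceB_change {n : ℕ} {N : Fin n → Subgroup G} {We : (Fin n → G) → ℝ} (P : Fin n → Prop)
    (hinv : ∀ i : Fin n, P i → InvAt i (N i) We) {ω ω' : Fin n → G}
    (h1 : ∀ i, ¬ P i → ω i = ω' i) (h2 : ∀ i, P i → (ω' i)⁻¹ * ω i ∈ N i) :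
    We ω = We ω' := by
  classical
  have key : ∀ T : Finset (Fin n), We (fun i => if i ∈ T then ω i else ω' i) = We ω' := by
    intro T
    induction T using Finset.induction_on with
    | empty => simp
    | insert a T ha ih =>
      by_cases hP : P a
      · have h := hinv a hP (fun i => if i ∈ T then ω i else ω' i) _ (h2 a hP)
        rw [← ih, ← h]
        congr 1
        funext i
        by_cases hia : i = a
        · subst hia
          simp [ha]
        · rw [Function.update_of_ne hia]
          simp [hia]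
      · rw [← ih]
        congr 1
        funext i
        by_cases hia : i = a
        · subst hia
          simp [ha, h1 i hP]
        · simp [hia]
  have := key Finset.univ
  simpa using this

theorem PieceB_pow_mod [Fintype G] (y : G) {M : ℕ} (hM : Fintype.card G ∣ M) (k : ℕ) :
    y ^ (k % M) = y ^ k := by
  have h1 : y ^ M = 1 := by
    obtain ⟨m, rfl⟩ := hM
    rw [pow_mul, pow_card_eq_one, one_pow]
  conv_rhs => rw [← Nat.mod_add_div k M, pow_add, pow_mul, h1, one_pow, mul_one]

/-- an invariant function of the pieces depends only on the residues of `⌊x / Q_c⌋` -/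
theorem str_rep [Fintype G] (hq : Rad B q) (hg : Neu g) {c : ℕ → ℕ} (hc0 : c 0 = 0)
    (hc : Monotone c) {n : ℕ} (S : Finset ℕ) (hS : ∀ i < n, i ∉ S → c (i + 1) ≤ c i + 1)
    (We : (Fin n → G) → ℝ) (hW : ∀ ω, |We ω| ≤ 1)
    (hinv : ∀ i : Fin n, (i : ℕ) ∈ S → InvAt i (Nlin q g (c i) (c (i + 1))) We) :
    ∃ Ψ : (Fin (n + 1) → ℕ) → ℝ, (∀ e, |Ψ e| ≤ 1) ∧
      ∀ x, We (fun j => zz q g c j x) =
        Ψ (fun j => x / Qr q 0 (c j) % (Fintype.card G * B.factorial)) := by
  classical
  set M : ℕ := Fintype.card G * B.factorial with hM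
  have hGM : Fintype.card G ∣ M := Dvd.intro _ rfl
  set ρ : (Fin (n + 1) → ℕ) → Fin n → G := fun e i =>
    if (i : ℕ) ∈ S then g (c i) 1 ^ (e i.castSucc) *
      (g (c i) 1 ^ (Qr q (c i) (c (i + 1) - c i) * e i.succ))⁻¹
    else if c (i + 1) = c i + 1 then g (c i) (e i.castSucc % q (c i)) else 1 with hρ
  refine ⟨fun e => We (ρ e), fun e => hW _, ?_⟩
  intro x
  apply PieceB_change (N := fun i : Fin n => Nlin q g (c i) (c (i + 1)))
    (fun i : Fin n => (i : ℕ) ∈ S) hinv
  · intro i hi
    simp only [hρ, if_neg hi, Fin.val_castSucc]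
    unfold zz
    split_ifs with h
    · rw [h, Nat.add_sub_cancel_left, hw_one_len]
      congr 1
      rw [Nat.mod_mod_of_dvd]
      rw [hM]
      apply Dvd.dvd.mul_left
      exact Nat.dvd_factorial (by have := (hq (c i)).1; omega) (hq (c i)).2
    · have h1 := hS i i.2 hi
      have h2 : c i ≤ c ((i : ℕ) + 1) := hc (by omega)
      have h3 : c ((i : ℕ) + 1) = c i := by omega
      rw [h3, Nat.sub_self, hw_zero_len]
  · intro i hi
    simp only [hρ, if_pos hi, Fin.val_castSucc, Fin.val_succ]
    have h2 : c i ≤ c ((i : ℕ) + 1) := hc (by omega)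
    have hlin := hw_linear hq hg h2 (x / Qr q 0 (c i))
    unfold zz
    set X := x / Qr q 0 (c i) with hX
    set L := Qr q (c i) (c (i + 1) - c i) with hL
    have hX1 : x / Qr q 0 (c (i + 1)) = X / L := by
      rw [hX, hL, Nat.div_div_eq_div_mul]
      congr 1
      have := Qr_add q 0 (c i) (c (i + 1) - c i)
      rw [Nat.add_sub_cancel' h2, Nat.zero_add] at this
      exact this
    have hpow : g (c i) 1 ^ (X % M) * (g (c i) 1 ^ (L * (x / Qr q 0 (c (i + 1)) % M)))⁻¹ =
        g (c i) 1 ^ (X % L) := by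
      rw [PieceB_pow_mod _ hGM, pow_mul, PieceB_pow_mod _ hGM, ← pow_mul, hX1]
      rw [mul_inv_eq_iff_eq_mul, ← pow_add]
      congr 1
      exact (Nat.mod_add_div X L).symm
    rw [hpow]
    exact hlin

end Pool.Agent.Lib.MP_3e612f_nt.PB
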