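import Pool.Agent.Lib.MP_3e612f_nt.PB.Gen

/-! Linearity defects in the pair group (blueprint, section Rig). -/

set_option autoImplicit false

namespace Pool.Agent.Lib.MP_3e612f_nt.PB

open Finset

variable {G : Type} [Group G] {q : ℕ → ℕ} {g : ℕ → ℕ → G} {B : ℕ} {p r k : ℕ}

/-- a number whose `r`-multiple overflows a block and whose `p`-multiple does not -/
theorem exists_overflow (hp : 1 ≤ p) (hpr : p < r) {X : ℕ} (hX : p * r < X)
    (hXr : X.Coprime r) : ∃ x w, p * x < X ∧ r * x = X + w ∧ w < r ∧ x < X := by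
  have hr0 : 0 < r := by omega
  have hmod : X % r ≠ 0 := by
    intro h
    have h1 : r ∣ X := Nat.dvd_of_mod_eq_zero h
    have h2 : r ∣ Nat.gcd X r := Nat.dvd_gcd h1 dvd_rfl
    rw [hXr] at h2
    have := Nat.le_of_dvd one_pos h2
    omega
  have hlt := Nat.mod_lt X hr0
  have hdm := Nat.div_add_mod X r
  obtain ⟨w, hw⟩ : ∃ w, w = r - X % r := ⟨_, rfl⟩
  obtain ⟨x, hx⟩ : ∃ x, x = X / r + 1 := ⟨_, rfl⟩
  have hrx : r * x = X + w := by
    rw [hx, Nat.mul_add, Nat.mul_one]
    omega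
  have hwr : w < r := by omega
  have hpw : p * w < X := lt_of_le_of_lt (Nat.mul_le_mul_left p hwr.le) hX
  have hrX : r ≤ X := by
    have : r ≤ p * r := Nat.le_mul_of_pos_left r hp
    omega
  refine ⟨x, w, ?_, hrx, hwr, ?_⟩
  · have h1 : r * (p * x) < r * X := by
      calc r * (p * x) = p * (r * x) := by ring
        _ = p * X + p * w := by rw [hrx]; ring
        _ < p * X + X := by omega
        _ = (p + 1) * X := by ring
        _ ≤ r * X := Nat.mul_le_mul_right X (by omega)
    exact Nat.lt_of_mul_lt_mul_left h1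
  · have h1 : r * x < r * X := by
      calc r * x = X + w := hrx
        _ < X + X := by omega
        _ = 2 * X := by ring
        _ ≤ r * X := Nat.mul_le_mul_right X (by omega)
    exact Nat.lt_of_mul_lt_mul_left h1

/-- linearity defects at multiples of `r` -/
theorem defect_mul (hq : Rad B q) (hg : Neu g) (hp : 1 ≤ p) (hpr : p < r) (hr : r.Prime)
    (hrq : ∀ j, ¬ r ∣ q j) (hk : p * r < 2 ^ k) {α j e y : ℕ} (hj : α + k ≤ j)
    (hy : y < Qr q j e) :
    ((1 : G), (hh q g j 1)⁻¹ * hh q g j (r * y + 1) * (hh q g j (r * y))⁻¹) ∈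
      Lam q g p r α (j + e - α) := by
  obtain ⟨X, hXdef⟩ : ∃ X, X = Qr q (j - k) k := ⟨_, rfl⟩
  have hX : p * r < X := by
    rw [hXdef]
    exact lt_of_lt_of_le hk (two_pow_le_Qr hq _ _)
  have hXr : X.Coprime r := by
    rw [hXdef]
    exact Qr_coprime hr hrq _ _
  obtain ⟨x, w, hpx, hrx, hwr, hxX⟩ := exists_overflow hp hpr hX hXr
  have hrX : r ≤ X := by
    have : r ≤ p * r := Nat.le_mul_of_pos_left r hp
    omega
  have hwX : w < X := by omega
  have hjk : j - k + k = j := by omega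
  have hX0 : 0 < X := by omega
  -- values
  have v1 : hh q g (j - k) (p * (x + X * y)) = hh q g (j - k) (p * x) * hh q g j (p * y) := by
    have h1 := hh_append hq hg (j - k) k (a := p * x) (by rw [← hXdef]; exact hpx) (p * y)
    rw [← hXdef, hjk] at h1
    rw [← h1]
    congr 1
    ring
  have v2 : hh q g (j - k) (r * (x + X * y)) = hh q g (j - k) w * hh q g j (r * y + 1) := by
    have h1 := hh_append hq hg (j - k) k (a := w) (by rw [← hXdef]; exact hwX) (r * y + 1)
    rw [← hXdef, hjk] at h1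
    rw [← h1]
    congr 1
    rw [Nat.mul_add, hrx]
    ring
  have v3 : hh q g (j - k) (r * x) = hh q g (j - k) w * hh q g j 1 := by
    have h1 := hh_append hq hg (j - k) k (a := w) (by rw [← hXdef]; exact hwX) 1
    rw [← hXdef, hjk] at h1
    rw [← h1]
    congr 1
    rw [hrx]
    ring
  have m1 : ee q g p r (j - k) (x + X * y) ∈ Lam q g p r α (j + e - α) := by
    refine Lam_mono hq hg (α := j - k) (m := k + e) (by omega) (by omega) ?_
    refine ee_mem q g p r (j - k) (k + e) ?_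
    rw [Qr_add, ← hXdef, hjk]
    calc x + X * y < X + X * y := by omega
      _ = X * (y + 1) := by ring
      _ ≤ X * Qr q j e := Nat.mul_le_mul_left X hy
  have m2 : ee q g p r (j - k) x ∈ Lam q g p r α (j + e - α) := by
    refine Lam_mono hq hg (α := j - k) (m := k) (by omega) (by omega) ?_
    exact ee_mem q g p r (j - k) k (by rw [← hXdef]; exact hxX)
  have m3 : ee q g p r j y ∈ Lam q g p r α (j + e - α) := by
    refine Lam_mono hq hg (α := j) (m := e) (by omega) (by omega) ?_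
    exact ee_mem q g p r j e hy
  have key : ((1 : G), (hh q g j 1)⁻¹ * hh q g j (r * y + 1) * (hh q g j (r * y))⁻¹) =
      (ee q g p r (j - k) x)⁻¹ * ee q g p r (j - k) (x + X * y) * (ee q g p r j y)⁻¹ := by
    unfold ee
    rw [v1, v2, v3]
    ext
    · simp only [Prod.fst_mul, Prod.fst_inv]
      group
    · simp only [Prod.snd_mul, Prod.snd_inv]
      group
  rw [key]
  exact mul_mem (mul_mem (inv_mem m2) m1) (inv_mem m3)

/-- linearity defects everywhere -/
theorem defect_all (hq : Rad B q) (hg : Neu g) (hp : 1 ≤ p) (hpr : p < r) (hr : r.Prime)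
    (hrq : ∀ j, ¬ r ∣ q j) (hk : p * r < 2 ^ k) {α j s a : ℕ} (hj : α + k ≤ j)
    (ha : a + 1 < Qr q j s) :
    ((1 : G), (hh q g j 1)⁻¹ * hh q g j (a + 1) * (hh q g j a)⁻¹) ∈
      Lam q g p r α (j + s - α) := by
  obtain ⟨Q, hQ⟩ : ∃ Q, Q = Qr q j s := ⟨_, rfl⟩
  have hQr : Q.Coprime r := by
    rw [hQ]
    exact Qr_coprime hr hrq _ _
  obtain ⟨N, hN⟩ : ∃ N : ℕ, N = (Nat.chineseRemainder hQr a 0 : ℕ) := ⟨_, rfl⟩
  have hN1 : N % Q = a % Q := by
    rw [hN]
    exact (Nat.chineseRemainder hQr a 0).2.1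
  have hN2 : r ∣ N := by
    have h1 : N ≡ 0 [MOD r] := by
      rw [hN]
      exact (Nat.chineseRemainder hQr a 0).2.2
    exact (Nat.modEq_zero_iff_dvd).1 h1
  have hN3 : N < Q * r := by
    rw [hN]
    exact Nat.chineseRemainder_lt_mul hQr a 0 (by omega) hr.ne_zero
  rw [Nat.mod_eq_of_lt (by omega : a < Q)] at hN1
  obtain ⟨y, hy⟩ := hN2
  have hyQ : y < Q := by
    have h1 : r * y < r * Q := by rw [← hy, mul_comm r Q]; exact hN3
    exact Nat.lt_of_mul_lt_mul_left h1
  have hNb : r * y = a + Q * (N / Q) := by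
    rw [← hy, ← hN1]
    exact (Nat.mod_add_div N Q).symm
  have h2 := defect_mul hq hg hp hpr hr hrq hk (α := α) (j := j) (e := s) (y := y) hj
    (by rw [← hQ]; exact hyQ)
  have e1 : hh q g j (r * y) = hh q g j a * hh q g (j + s) (N / Q) := by
    rw [hNb, hQ]
    exact hh_append hq hg j s (by omega) _
  have e2 : hh q g j (r * y + 1) = hh q g j (a + 1) * hh q g (j + s) (N / Q) := by
    have h3 : r * y + 1 = (a + 1) + Q * (N / Q) := by omega
    rw [h3, hQ]
    exact hh_append hq hg j s ha _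
  rw [e1, e2] at h2
  have h4 : (hh q g j 1)⁻¹ * (hh q g j (a + 1) * hh q g (j + s) (N / Q)) *
      (hh q g j a * hh q g (j + s) (N / Q))⁻¹ =
      (hh q g j 1)⁻¹ * hh q g j (a + 1) * (hh q g j a)⁻¹ := by
    group
  rw [h4] at h2
  exact h2

end Pool.Agent.Lib.MP_3e612f_nt.PB
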