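import Pool.Agent.Lib.MP_3e612f_nt.PB.Gen

/-! The second projection contains all digit values (blueprint, section Rig). -/

set_option autoImplicit false

namespace Pool.Agent.Lib.MP_3e612f_nt.PB

open Finset

variable {G : Type} [Group G] {q : ℕ → ℕ} {g : ℕ → ℕ → G} {B : ℕ} {p r k : ℕ}

/-- a representative of a residue class in a progression -/
theorem RigB_res (r c n : ℕ) (hr : 0 < r) : ∃ a, a < r ∧ a + c ≡ n [MOD r] := by
  refine ⟨(n + (r - 1) * c) % r, Nat.mod_lt _ hr, ?_⟩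
  have h1 : (n + (r - 1) * c) % r ≡ n + (r - 1) * c [MOD r] := Nat.mod_modEq _ _
  have h2 : n + (r - 1) * c + c = n + r * c := by
    obtain ⟨s, rfl⟩ : ∃ s, r = s + 1 := ⟨r - 1, by omega⟩
    rw [Nat.add_sub_cancel]
    ring
  have h3 : n + r * c ≡ n [MOD r] := by
    unfold Nat.ModEq
    rw [Nat.add_mul_mod_self_left]
  have h4 := h1.add_right c
  rw [h2] at h4
  exact h4.trans h3

theorem RigB_mem (hq : Rad B q) (hg : Neu g) {α j i u : ℕ} (h1 : α ≤ i) (h2 : i ≤ j + 2 * k)
    (hu : u < Qr q i (j + 2 * k - i)) :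
    hh q g i (r * u) ∈ (Lam q g p r α (j + 2 * k - α)).map (MonoidHom.snd G G) := by
  have h3 : ee q g p r i u ∈ Lam q g p r α (j + 2 * k - α) :=
    Lam_mono hq hg h1 (by omega) (ee_mem q g p r i (j + 2 * k - i) hu)
  exact ⟨ee q g p r i u, h3, rfl⟩

/-- the values at congruent numbers agree modulo the second projection -/
theorem RigB_cong (hq : Rad B q) (hg : Neu g) (hr : 0 < r) (hrk : r ≤ 2 ^ k) {α j i b b' : ℕ}
    (h1 : α + k ≤ i) (h2 : i ≤ j + 2 * k) (hb : b < Qr q i (j + 2 * k - i))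
    (hb' : b' < Qr q i (j + 2 * k - i)) (hbb : b ≡ b' [MOD r]) :
    (hh q g i b)⁻¹ * hh q g i b' ∈
      (Lam q g p r α (j + 2 * k - α)).map (MonoidHom.snd G G) := by
  set X := Qr q (i - k) k with hX
  have hik : i - k + k = i := by omega
  have hrX : r ≤ X := hrk.trans (two_pow_le_Qr hq (i - k) k)
  obtain ⟨a, ha, hab⟩ := RigB_res r (X * b) 0 hr
  have hab' : a + X * b' ≡ 0 [MOD r] :=
    ((Nat.ModEq.mul_left X hbb.symm).add_left a).trans hab
  have key : ∀ c, c < Qr q i (j + 2 * k - i) → a + X * c ≡ 0 [MOD r] →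
      hh q g (i - k) a * hh q g i c ∈
        (Lam q g p r α (j + 2 * k - α)).map (MonoidHom.snd G G) := by
    intro c hc hac
    obtain ⟨u, hu⟩ := (Nat.modEq_zero_iff_dvd).1 hac
    have h3 : hh q g (i - k) (a + X * c) = hh q g (i - k) a * hh q g i c := by
      have := hh_append hq hg (i - k) k (lt_of_lt_of_le ha hrX) c
      rwa [hik] at this
    rw [← h3, hu]
    refine RigB_mem hq hg (by omega) (by omega) ?_
    have h4 : Qr q (i - k) (j + 2 * k - (i - k)) = X * Qr q i (j + 2 * k - i) := by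
      have := Qr_add q (i - k) k (j + 2 * k - i)
      rw [hik] at this
      rw [← this]
      congr 1
      omega
    rw [h4]
    calc u ≤ r * u := Nat.le_mul_of_pos_left u hr
      _ = a + X * c := hu.symm
      _ < X + X * c := Nat.add_lt_add_right (lt_of_lt_of_le ha hrX) _
      _ = X * (c + 1) := by ring
      _ ≤ X * Qr q i (j + 2 * k - i) := Nat.mul_le_mul_left _ hc
  have h5 := key b hb hab
  have h6 := key b' hb' hab'
  have h7 := Subgroup.mul_mem _ (Subgroup.inv_mem _ h5) h6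
  have h8 : (hh q g (i - k) a * hh q g i b)⁻¹ * (hh q g (i - k) a * hh q g i b') =
      (hh q g i b)⁻¹ * hh q g i b' := by group
  rwa [h8] at h7

/-- the second projection contains all digit values -/
theorem proj_digit [Fintype G] (hq : Rad B q) (hg : Neu g) (hp : 1 ≤ p) (hpr : p < r)
    (hr : r.Prime) (hrq : ∀ j, ¬ r ∣ q j) (hk : p * r < 2 ^ k) (hG : Fintype.card G < r)
    {α j d : ℕ} (hj : α + k ≤ j) (hd : d < q j) :
    ∃ x : G, (x, g j d) ∈ Lam q g p r α (j + 2 * k - α) := by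
  have hr0 : 0 < r := hr.pos
  have hrk : r ≤ 2 ^ k := ((Nat.le_mul_of_pos_left r hp).trans_lt hk).le
  have hk1 : 1 ≤ k := by
    rcases Nat.eq_zero_or_pos k with h | h
    · rw [h, pow_zero] at hrk
      have := hr.two_le
      omega
    · exact h
  set P := (Lam q g p r α (j + 2 * k - α)).map (MonoidHom.snd G G) with hP
  set Q := Qr q j k with hQ
  have hrQ : r ≤ Q := hrk.trans (two_pow_le_Qr hq j k)
  have hjk : j + 2 * k - j = k + k := by omega
  have hQQ : Qr q j (k + k) = Q * Qr q (j + k) k := Qr_add q j k k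
  -- pigeonhole
  obtain ⟨b₁, b₂, hb₁₂, hb₂, hbe⟩ : ∃ b₁ b₂, b₁ < b₂ ∧ b₂ < r ∧
      hh q g (j + k) b₁ = hh q g (j + k) b₂ := by
    obtain ⟨x, y, hxy, he⟩ := Fintype.exists_ne_map_eq_of_card_lt
      (fun b : Fin r => hh q g (j + k) (b : ℕ)) (by rw [Fintype.card_fin]; exact hG)
    rcases lt_or_gt_of_ne (fun h => hxy (Fin.ext h) : (x : ℕ) ≠ y) with h | h
    · exact ⟨x, y, h, y.2, he⟩
    · exact ⟨y, x, h, x.2, he.symm⟩
  have hval : ∀ a, a < Q → hh q g j (a + Q * b₁) = hh q g j (a + Q * b₂) := by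
    intro a ha
    rw [hh_append hq hg j k ha, hh_append hq hg j k ha, hbe]
  have hlt : ∀ a b, a < Q → b < r → a + Q * b < Qr q j (j + 2 * k - j) := by
    intro a b ha hb
    rw [hjk, hQQ]
    calc a + Q * b < Q + Q * b := Nat.add_lt_add_right ha _
      _ = Q * (b + 1) := by ring
      _ ≤ Q * Qr q (j + k) k :=
        Nat.mul_le_mul_left _ (hb.trans_le (hrk.trans (two_pow_le_Qr hq (j + k) k)))
  have hcong : ∀ b b', b < Qr q j (j + 2 * k - j) → b' < Qr q j (j + 2 * k - j) →
      b ≡ b' [MOD r] → hh q g j b ∈ P → hh q g j b' ∈ P := by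
    intro b b' h1 h2 h3 h4
    have h5 := RigB_cong (p := p) hq hg hr0 hrk hj (by omega) h1 h2 h3
    have h6 := Subgroup.mul_mem P h4 h5
    rwa [mul_inv_cancel_left] at h6
  set δ := Q * (b₂ - b₁) with hδ
  have hT : ∀ m b, b < Qr q j (j + 2 * k - j) → b ≡ m * δ [MOD r] → hh q g j b ∈ P := by
    intro m
    induction m with
    | zero =>
      intro b hb hbm
      rw [zero_mul] at hbm
      refine hcong 0 b (Qr_pos hq _ _) hb hbm.symm ?_
      rw [hh_zero]
      exact Subgroup.one_mem P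
    | succ m ih =>
      intro b hb hbm
      obtain ⟨a, ha, hab⟩ := RigB_res r (Q * b₁) (m * δ) hr0
      have haQ : a < Q := lt_of_lt_of_le ha hrQ
      have h1 := ih (a + Q * b₁) (hlt a b₁ haQ (hb₁₂.trans hb₂)) hab
      rw [hval a haQ] at h1
      refine hcong (a + Q * b₂) b (hlt a b₂ haQ hb₂) hb ?_ h1
      have h2 : a + Q * b₂ = a + Q * b₁ + δ := by
        rw [hδ]
        have h3 : b₂ = b₁ + (b₂ - b₁) := by omega
        conv_lhs => rw [h3]
        ring
      rw [h2]
      have h4 := hab.add_right δ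
      have h5 : m * δ + δ = (m + 1) * δ := by ring
      rw [h5] at h4
      exact h4.trans hbm.symm
  have hcop : Nat.Coprime δ r := by
    refine Nat.Coprime.mul_left (Qr_coprime hr hrq j k) ?_
    exact (Nat.coprime_of_lt_prime (by omega) (by omega) hr).symm
  obtain ⟨m₀, -, hm₀⟩ := Nat.exists_mul_mod_eq_one_of_coprime hcop hr.one_lt
  have hfin : hh q g j d ∈ P := by
    refine hT (m₀ * d) d ?_ ?_
    · rw [hjk]
      have h1 : Qr q j 1 = q j := by rw [Qr_succ', Qr_zero, Nat.mul_one]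
      calc d < q j := hd
        _ = Qr q j 1 := h1.symm
        _ ≤ Qr q j (k + k) := Qr_mono hq j (by omega)
    · have h1 : δ * m₀ ≡ 1 [MOD r] := by
        unfold Nat.ModEq
        rw [hm₀, Nat.mod_eq_of_lt hr.one_lt]
      have h2 := h1.mul_right d
      have h3 : δ * m₀ * d = m₀ * d * δ := by ring
      rw [h3, one_mul] at h2
      exact h2.symm
  rw [hh_digit hq hg j hd] at hfin
  obtain ⟨z, hz, he⟩ := hfin
  refine ⟨z.1, ?_⟩
  have h1 : z.2 = g j d := he
  rw [← h1]
  exact hz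

end Pool.Agent.Lib.MP_3e612f_nt.PB
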