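import Pool.Agent.Lib.MP_3e612f_nt.PB.RigA
import Pool.Agent.Lib.MP_3e612f_nt.PB.RigB

/-! Rigidity (blueprint, section Rig). -/

set_option autoImplicit false

namespace Pool.Agent.Lib.MP_3e612f_nt.PB

open Finset

variable {G : Type} [Group G] {q : ℕ → ℕ} {g : ℕ → ℕ → G} {B : ℕ} {p r k : ℕ}

/-- the defects of the digit values -/
private theorem RigC_Xs (hq : Rad B q) (hg : Neu g) (hp : 1 ≤ p) (hpr : p < r)
    (hr : r.Prime) (hrq : ∀ j, ¬ r ∣ q j) (hk : p * r < 2 ^ k)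
    {a b : ℕ} (hka : k ≤ a) {y : G} (hy : y ∈ Xs q g a b) :
    ((1 : G), y) ∈ Lam q g p r (a - k) (b - a + 3 * k) := by
  rcases hy with ⟨j, d, h1, h2, h3, rfl⟩ | ⟨j, h1, h2, rfl⟩
  · have hQ : Qr q j 1 = q j := by rw [Qr_succ, Qr_zero, one_mul, Nat.add_zero]
    have h4 := defect_all (g := g) hq hg hp hpr hr hrq hk (α := a - k) (j := j) (s := 1) (a := d)
      (by omega) (by rw [hQ]; exact h3)
    rw [hh_digit hq hg j (by omega : 1 < q j), hh_digit hq hg j h3,
      hh_digit hq hg j (by omega : d < q j)] at h4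
    exact Lam_mono hq hg le_rfl (by omega) h4
  · have hq1 := (hq j).1
    have hq2 := (hq (j + 1)).1
    have hQ : Qr q j 2 = q j * q (j + 1) := by
      rw [Qr_succ, Qr_succ, Qr_zero, one_mul, Nat.add_zero]
    have h3 : q j - 1 + 1 = q j := by omega
    have h4 := defect_all (g := g) hq hg hp hpr hr hrq hk (α := a - k) (j := j) (s := 2)
      (a := q j - 1) (by omega) (by rw [hQ, h3]; nlinarith)
    rw [h3, hh_digit hq hg j (by omega : 1 < q j), hh_radix hq hg,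
      hh_digit hq hg j (by omega : q j - 1 < q j)] at h4
    exact Lam_mono hq hg le_rfl (by omega) h4

theorem rigid [Fintype G] (hq : Rad B q) (hg : Neu g) (hp : 1 ≤ p) (hpr : p < r)
    (hr : r.Prime) (hrq : ∀ j, ¬ r ∣ q j) (hk : p * r < 2 ^ k) (hG : Fintype.card G < r)
    {a b : ℕ} (hka : k ≤ a) (hab : a ≤ b) {y : G} (hy : y ∈ Nlin q g a b) :
    ((1 : G), y) ∈ Lam q g p r (a - k) (b - a + 3 * k) := by
  have hGam : Gam q g a b ≤ (Lam q g p r (a - k) (b - a + 3 * k)).map (MonoidHom.snd G G) := by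
    unfold Gam
    rw [Subgroup.closure_le]
    rintro x ⟨j, d, h1, h2, h3, rfl⟩
    obtain ⟨x, hx⟩ := proj_digit (g := g) hq hg hp hpr hr hrq hk hG (α := a - k) (j := j)
      (by omega) h3
    exact ⟨(x, g j d), Lam_mono hq hg le_rfl (by omega) hx, rfl⟩
  have hN : Nlin q g a b ≤ (Lam q g p r (a - k) (b - a + 3 * k)).comap (MonoidHom.inr G G) := by
    unfold Nlin
    rw [Subgroup.closure_le]
    rintro x ⟨γ, hγ, z, hz, rfl⟩
    obtain ⟨⟨w, γ'⟩, hw, hw2⟩ := hGam hγ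
    have hγ' : γ' = γ := hw2
    rw [hγ'] at hw
    have hz' := RigC_Xs (g := g) hq hg hp hpr hr hrq hk hka hz
    have h1 := mul_mem (mul_mem hw hz') (inv_mem hw)
    have h2 : (w, γ) * ((1 : G), z) * (w, γ)⁻¹ = ((1 : G), γ * z * γ⁻¹) := by
      ext <;> simp
    rw [h2] at h1
    exact h1
  exact hN hy

end Pool.Agent.Lib.MP_3e612f_nt.PB
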