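import Pool.Agent.Lib.MP_3e612f_nt.PB.Contr
import Pool.Agent.Lib.MP_3e612f_nt.PB.Rig
import Pool.Agent.Lib.MP_3e612f_nt.PB.Lin

/-! The transfer operator (blueprint, section Trans). -/

set_option autoImplicit false

namespace Pool.Agent.Lib.MP_3e612f_nt.PB

open Finset

variable {G : Type} [Group G] {q : ℕ → ℕ} {g : ℕ → ℕ → G} {B : ℕ} {p r k : ℕ}

theorem TT_zero (q : ℕ → ℕ) (g : ℕ → ℕ → G) (p r i : ℕ) (A : ℕ × ℕ → G × G → ℝ) :
    TT q g p r i 0 A = A := by
  funext c z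
  unfold TT
  rw [Qr_zero]
  simp only [range_one, sum_singleton, mul_zero, zero_add, Nat.div_one, hw, Nat.cast_one,
    div_one]
  have : ((1 : G), (1 : G)) = 1 := rfl
  rw [this, mul_one]

/-- summation over `range (Q * Q')` in blocks -/
theorem TransA_sum_mul (Q Q' : ℕ) (F : ℕ → ℝ) :
    ∑ u ∈ range (Q * Q'), F u = ∑ u₀ ∈ range Q, ∑ u₁ ∈ range Q', F (u₀ + Q * u₁) := by
  rw [sum_comm]
  induction Q' with
  | zero => simp
  | succ n ih =>
    rw [Nat.mul_succ, sum_range_add, ih, sum_range_succ]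
    congr 1
    apply sum_congr rfl
    intro x _
    rw [add_comm]

theorem TransA_div {Q p c u₀ u₁ : ℕ} (hQ : 0 < Q) :
    (p * (u₀ + Q * u₁) + c) / Q = p * u₁ + (p * u₀ + c) / Q := by
  have : p * (u₀ + Q * u₁) + c = (p * u₀ + c) + Q * (p * u₁) := by ring
  rw [this, Nat.add_mul_div_left _ _ hQ, add_comm]

theorem TransA_hw (hq : Rad B q) (i m : ℕ) (p c u₀ u₁ : ℕ) :
    hw q g i m (p * (u₀ + Qr q i m * u₁) + c) = hw q g i m (p * u₀ + c) := by
  rw [← hw_mod hq i m (p * (u₀ + Qr q i m * u₁) + c), ← hw_mod hq i m (p * u₀ + c)]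
  congr 1
  have : p * (u₀ + Qr q i m * u₁) + c = (p * u₀ + c) + Qr q i m * (p * u₁) := by ring
  rw [this, Nat.add_mul_mod_self_left]

theorem TT_add (hq : Rad B q) (i m m' : ℕ) (A : ℕ × ℕ → G × G → ℝ) :
    TT q g p r i (m + m') A = TT q g p r i m (TT q g p r (i + m) m' A) := by
  funext c z
  have hQ := Qr_pos hq i m
  have hQ' := Qr_pos hq (i + m) m'
  unfold TT
  rw [Qr_add, TransA_sum_mul]
  simp only
  push_cast
  rw [mul_comm (Qr q i m : ℝ), ← div_div]
  congr 1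
  rw [sum_div]
  apply sum_congr rfl
  intro u₀ _
  congr 1
  apply sum_congr rfl
  intro u₁ _
  have e1 : (p * (u₀ + Qr q i m * u₁) + c.1) / (Qr q i m * Qr q (i + m) m') =
      (p * u₁ + (p * u₀ + c.1) / Qr q i m) / Qr q (i + m) m' := by
    rw [← Nat.div_div_eq_div_mul, TransA_div hQ]
  have e2 : (r * (u₀ + Qr q i m * u₁) + c.2) / (Qr q i m * Qr q (i + m) m') =
      (r * u₁ + (r * u₀ + c.2) / Qr q i m) / Qr q (i + m) m' := by
    rw [← Nat.div_div_eq_div_mul, TransA_div hQ]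
  rw [e1, e2, hw_add, hw_add, TransA_hw hq, TransA_hw hq, TransA_div hQ, TransA_div hQ,
    mul_assoc z]
  rfl

variable [Fintype G]

/-- the carries stay small -/
theorem TransA_carry {Q p c u : ℕ} (hc : c < p) (hu : u < Q) :
    (p * u + c) / Q < p := by
  rw [Nat.div_lt_iff_lt_mul (by omega)]
  calc p * u + c < p * u + p := by omega
    _ = p * (u + 1) := by ring
    _ ≤ p * Q := Nat.mul_le_mul_left _ hu

theorem TransA_prod_norm {N : Subgroup G} {x : G × G} (hx : ∀ y, y ∈ N ↔ x.2 * y * x.2⁻¹ ∈ N)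
    (y : G × G) : y ∈ (⊥ : Subgroup G).prod N ↔ x * y * x⁻¹ ∈ (⊥ : Subgroup G).prod N := by
  rw [Subgroup.mem_prod, Subgroup.mem_prod, Subgroup.mem_bot, Subgroup.mem_bot]
  have h1 : (x * y * x⁻¹).1 = x.1 * y.1 * x.1⁻¹ := rfl
  have h2 : (x * y * x⁻¹).2 = x.2 * y.2 * x.2⁻¹ := rfl
  rw [h1, h2, ← hx y.2]
  constructor
  · rintro ⟨h3, h4⟩
    exact ⟨by rw [h3]; group, h4⟩
  · rintro ⟨h3, h4⟩
    refine ⟨?_, h4⟩
    have : y.1 = x.1⁻¹ * (x.1 * y.1 * x.1⁻¹) * x.1 := by group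
    rw [this, h3]; group

theorem TransA_TT_eq (q : ℕ → ℕ) (g : ℕ → ℕ → G) (p r i m : ℕ) (A : ℕ × ℕ → G × G → ℝ)
    (c : ℕ × ℕ) : TT q g p r i m A c = fun z => ∑ u ∈ range (Qr q i m), (1 / (Qr q i m : ℝ)) *
      tr (hw q g i m (p * u + c.1), hw q g i m (r * u + c.2))
        (A ((p * u + c.1) / Qr q i m, (r * u + c.2) / Qr q i m)) z := by
  funext z
  unfold TT tr
  rw [sum_div]
  apply sum_congr rfl
  intro u _
  ring

/-- the transfer operator preserves bounds and balance -/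
theorem TT_good (hq : Rad B q) (hp : 1 ≤ p) (hr : 1 ≤ r) {N : Subgroup G} {i m : ℕ}
    (hN : ∀ γ ∈ Gam q g i (i + m), ∀ y, y ∈ N ↔ γ * y * γ⁻¹ ∈ N) {S : ℝ}
    {A : ℕ × ℕ → G × G → ℝ} (hA : Good p r N S A) : Good p r N S (TT q g p r i m A) := by
  intro c hc1 hc2
  have hQ : (0 : ℝ) < Qr q i m := by exact_mod_cast Qr_pos hq i m
  rw [TransA_TT_eq]
  constructor
  · refine (nrm_weighted (range (Qr q i m)) (fun _ => 1 / (Qr q i m : ℝ)) ?_ ?_ _).trans ?_
    · intro _ _; positivity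
    · rw [sum_const, card_range, nsmul_eq_mul]
      field_simp
    · calc ∑ u ∈ range (Qr q i m), 1 / (Qr q i m : ℝ) * nrm (tr (hw q g i m (p * u + c.1),
            hw q g i m (r * u + c.2)) (A ((p * u + c.1) / Qr q i m, (r * u + c.2) / Qr q i m)))
          ≤ ∑ u ∈ range (Qr q i m), 1 / (Qr q i m : ℝ) * S := by
            apply sum_le_sum
            intro u hu
            rw [mem_range] at hu
            apply mul_le_mul_of_nonneg_left _ (by positivity)
            rw [nrm_tr]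
            exact (hA _ (TransA_carry hc1 hu) (TransA_carry hc2 hu)).1
        _ = S := by
            rw [sum_const, card_range, nsmul_eq_mul]
            field_simp
  · apply Bal_sum
    intro u hu
    rw [mem_range] at hu
    apply Bal_tr _ (hA _ (TransA_carry hc1 hu) (TransA_carry hc2 hu)).2
    apply TransA_prod_norm
    exact hN _ (hw_mem_Gam hq le_rfl le_rfl _)

end Pool.Agent.Lib.MP_3e612f_nt.PB
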