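import Pool.Agent.Lib.MP_3e612f_nt.PB.TransA

/-! Gain at one segment (blueprint, section Trans). -/

set_option autoImplicit false

namespace Pool.Agent.Lib.MP_3e612f_nt.PB

open Finset

variable {G : Type} [Group G] {q : ℕ → ℕ} {g : ℕ → ℕ → G} {B : ℕ} {p r k : ℕ}

/-- splitting off a subset of an average of arbitrary functions -/
theorem TransB_split {K : Type} [Group K] [Fintype K] {V U : Finset ℕ} (hUV : U ⊆ V)
    (hU : U.Nonempty) (Θ : ℕ → K → ℝ) {S S' : ℝ} (hS : ∀ u ∈ V, nrm (Θ u) ≤ S)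
    (hS' : nrm (fun z => (∑ u ∈ U, Θ u z) / (U.card : ℝ)) ≤ S') :
    nrm (fun z => ∑ u ∈ V, (1 / (V.card : ℝ)) * Θ u z) ≤
      (U.card : ℝ) / V.card * S' + (1 - (U.card : ℝ) / V.card) * S := by
  classical
  have hUc : (0 : ℝ) < U.card := by exact_mod_cast hU.card_pos
  have hVc : (0 : ℝ) < V.card := by exact_mod_cast (hU.mono hUV).card_pos
  -- index set
  let s : Finset (Option ℕ) := insert none ((V \ U).map Function.Embedding.some)
  let w : Option ℕ → ℝ := fun o => match o with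
    | none => (U.card : ℝ) / V.card
    | some _ => 1 / (V.card : ℝ)
  let T : Option ℕ → K → ℝ := fun o => match o with
    | none => fun z => (∑ u ∈ U, Θ u z) / (U.card : ℝ)
    | some u => Θ u
  have hnone : (none : Option ℕ) ∉ (V \ U).map Function.Embedding.some := by simp
  have hcard : ((V \ U).card : ℝ) = V.card - U.card := by
    rw [card_sdiff_of_subset hUV, Nat.cast_sub (card_le_card hUV)]
  have hsum : ∀ f : Option ℕ → ℝ, ∑ o ∈ s, f o = f none + ∑ u ∈ V \ U, f (some u) := by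
    intro f
    rw [sum_insert hnone, sum_map]
    rfl
  have e : (fun z => ∑ u ∈ V, (1 / (V.card : ℝ)) * Θ u z) = fun z => ∑ o ∈ s, w o * T o z := by
    funext z
    rw [hsum, ← sum_sdiff hUV]
    show _ = (U.card : ℝ) / V.card * ((∑ u ∈ U, Θ u z) / (U.card : ℝ)) +
      ∑ u ∈ V \ U, 1 / (V.card : ℝ) * Θ u z
    rw [add_comm]
    congr 1
    rw [← mul_sum]
    field_simp
  rw [e]
  refine (nrm_weighted s w ?_ ?_ T).trans ?_
  · intro o _
    cases o with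
    | none => show 0 ≤ (U.card : ℝ) / V.card; positivity
    | some u => show 0 ≤ 1 / (V.card : ℝ); positivity
  · rw [hsum]
    show (U.card : ℝ) / V.card + ∑ u ∈ V \ U, 1 / (V.card : ℝ) = 1
    rw [sum_const, nsmul_eq_mul, hcard]
    field_simp
    ring
  · rw [hsum]
    show (U.card : ℝ) / V.card * nrm (fun z => (∑ u ∈ U, Θ u z) / (U.card : ℝ)) +
      ∑ u ∈ V \ U, 1 / (V.card : ℝ) * nrm (Θ u) ≤ _
    have h1 : ∑ u ∈ V \ U, 1 / (V.card : ℝ) * nrm (Θ u) ≤ ∑ u ∈ V \ U, 1 / (V.card : ℝ) * S := by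
      apply sum_le_sum
      intro u hu
      apply mul_le_mul_of_nonneg_left _ (by positivity)
      exact hS u (mem_sdiff.mp hu).1
    have h2 : ∑ u ∈ V \ U, 1 / (V.card : ℝ) * S = (1 - (U.card : ℝ) / V.card) * S := by
      rw [sum_const, nsmul_eq_mul, hcard]
      field_simp
    have h3 : (U.card : ℝ) / V.card * nrm (fun z => (∑ u ∈ U, Θ u z) / (U.card : ℝ)) ≤
        (U.card : ℝ) / V.card * S' := mul_le_mul_of_nonneg_left hS' (by positivity)
    linarith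

variable [Fintype G]

/-- gain at one spaced segment `[s,t)` -/
theorem TT_gain (hq : Rad B q) (hg : Neu g) (hp : 1 ≤ p) (hpr : p < r) (hr : r.Prime)
    (hrq : ∀ j, ¬ r ∣ q j) (hk : p * r < 2 ^ k) (hG : Fintype.card G < r)
    {η : ℝ} (hη0 : 0 ≤ η) (hη1 : η ≤ 1)
    (hη : ∀ α m : ℕ, ∀ Θ : G × G → ℝ, Bal (Lam q g p r α m) Θ →
      nrm (av (range (Qr q α m)) (ee q g p r α) Θ) ≤ (1 - η) * nrm Θ)
    {N : Subgroup G} {s t : ℕ} (hs : 2 * k ≤ s) (hst : s ≤ t)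
    (hN : ∀ γ ∈ Gam q g (s - 2 * k) (t + 3 * k), ∀ y, y ∈ N ↔ γ * y * γ⁻¹ ∈ N)
    (hNs : N ≤ Nlin q g s t) {S : ℝ}
    {A : ℕ × ℕ → G × G → ℝ} (hA : Good p r N S A) :
    Good p r N ((1 - η / (B : ℝ) ^ (2 * k)) * S)
      (TT q g p r (s - 2 * k) (t - s + 5 * k) A) := by
  have hr0 : 0 < r := hr.pos
  have hgood := TT_good (g := g) (p := p) (r := r) (i := s - 2 * k) (m := t - s + 5 * k) hq hp hr0
    (by
      have e : s - 2 * k + (t - s + 5 * k) = t + 3 * k := by omega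
      rw [e]; exact hN) hA
  -- sizes
  obtain ⟨Q₁, hQ₁⟩ : ∃ Q₁, Q₁ = Qr q (s - 2 * k) k := ⟨_, rfl⟩
  obtain ⟨Q₂, hQ₂⟩ : ∃ Q₂, Q₂ = Qr q (s - k) (t - s + 3 * k) := ⟨_, rfl⟩
  obtain ⟨Q₃, hQ₃⟩ : ∃ Q₃, Q₃ = Qr q (t + 2 * k) k := ⟨_, rfl⟩
  have hp2 : p < 2 ^ k := lt_of_le_of_lt (Nat.le_mul_of_pos_right p hr0) hk
  have hr2 : r < 2 ^ k := lt_of_le_of_lt (Nat.le_mul_of_pos_left r hp) hk
  have hQ₁p : 2 ^ k ≤ Q₁ := by rw [hQ₁]; exact two_pow_le_Qr hq _ _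
  have hQ₃p : 2 ^ k ≤ Q₃ := by rw [hQ₃]; exact two_pow_le_Qr hq _ _
  have hQ₁0 : 0 < Q₁ := by rw [hQ₁]; exact Qr_pos hq _ _
  have hQ₂0 : 0 < Q₂ := by rw [hQ₂]; exact Qr_pos hq _ _
  have hQ₃0 : 0 < Q₃ := by rw [hQ₃]; exact Qr_pos hq _ _
  have hQ23 : Qr q (s - k) (t - s + 4 * k) = Q₂ * Q₃ := by
    have e : t - s + 4 * k = (t - s + 3 * k) + k := by omega
    rw [e, Qr_add, ← hQ₂]
    have e2 : s - k + (t - s + 3 * k) = t + 2 * k := by omega
    rw [e2, ← hQ₃]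
  have hQt : Qr q (s - 2 * k) (t - s + 5 * k) = Q₁ * (Q₂ * Q₃) := by
    have e : t - s + 5 * k = k + (t - s + 4 * k) := by omega
    rw [e, Qr_add, ← hQ₁]
    have e2 : s - 2 * k + k = s - k := by omega
    rw [e2, hQ23]
  -- the special numbers
  have hcarry : ∀ x c v : ℕ, x < 2 ^ k → c < x → v < Q₂ →
      (x * (Q₁ * v) + c) / (Q₁ * (Q₂ * Q₃)) = 0 := by
    intro x c v hx hc hv
    apply Nat.div_eq_of_lt
    calc x * (Q₁ * v) + c < x * (Q₁ * v) + Q₁ := by omega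
      _ = Q₁ * (x * v + 1) := by ring
      _ ≤ Q₁ * (x * Q₂) := by
          apply Nat.mul_le_mul_left
          have : x * v + 1 ≤ x * v + x := by omega
          refine this.trans ?_
          rw [← Nat.mul_succ]
          exact Nat.mul_le_mul_left _ hv
      _ ≤ Q₁ * (Q₂ * Q₃) := by
          apply Nat.mul_le_mul_left
          rw [mul_comm]
          exact Nat.mul_le_mul_left _ (by omega)
  have hhw : ∀ x c v : ℕ, x < 2 ^ k → c < x → v < Q₂ →
      hw q g (s - 2 * k) (t - s + 5 * k) (x * (Q₁ * v) + c) =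
        hw q g (s - 2 * k) k c * hh q g (s - k) (x * v) := by
    intro x c v hx hc hv
    have e : t - s + 5 * k = k + (t - s + 4 * k) := by omega
    have e1 : x * (Q₁ * v) + c = c + Qr q (s - 2 * k) k * (x * v) := by
      rw [← hQ₁]; ring
    rw [e, e1, hw_append hq _ _ _ (by rw [← hQ₁]; omega)]
    have e2 : s - 2 * k + k = s - k := by omega
    have hlt : x * v < Qr q (s - k) (t - s + 4 * k) := by
      rw [hQ23]
      calc x * v < x * Q₂ := Nat.mul_lt_mul_of_pos_left hv (by omega)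
        _ ≤ Q₃ * Q₂ := Nat.mul_le_mul_right _ (by omega)
        _ = Q₂ * Q₃ := mul_comm _ _
    rw [e2, hh_eq hq hg (s - k) (t - s + 4 * k) hlt]
  intro c hc1 hc2
  refine ⟨?_, (hgood c hc1 hc2).2⟩
  have hS0 : 0 ≤ S := (nrm_nonneg _).trans (hA (0, 0) hp hr0).1
  rw [TransA_TT_eq]
  obtain ⟨Θ, hΘ⟩ : ∃ Θ : ℕ → G × G → ℝ, Θ = fun u =>
      tr (hw q g (s - 2 * k) (t - s + 5 * k) (p * u + c.1),
        hw q g (s - 2 * k) (t - s + 5 * k) (r * u + c.2))
      (A ((p * u + c.1) / Qr q (s - 2 * k) (t - s + 5 * k),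
        (r * u + c.2) / Qr q (s - 2 * k) (t - s + 5 * k))) := ⟨_, rfl⟩
  have hVcard : ((range (Qr q (s - 2 * k) (t - s + 5 * k))).card : ℝ) =
      (Qr q (s - 2 * k) (t - s + 5 * k) : ℝ) := by rw [card_range]
  have hinj : Function.Injective fun v : ℕ => Q₁ * v := by
    intro a b hab
    exact Nat.eq_of_mul_eq_mul_left hQ₁0 hab
  have hUV : (range Q₂).map ⟨fun v => Q₁ * v, hinj⟩ ⊆
      range (Qr q (s - 2 * k) (t - s + 5 * k)) := by
    intro u hu
    rw [mem_map] at hu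
    obtain ⟨v, hv, rfl⟩ := hu
    rw [mem_range] at hv ⊢
    rw [hQt]
    show Q₁ * v < Q₁ * (Q₂ * Q₃)
    apply Nat.mul_lt_mul_of_pos_left _ hQ₁0
    calc v < Q₂ := hv
      _ ≤ Q₂ * Q₃ := Nat.le_mul_of_pos_right _ hQ₃0
  have hUne : ((range Q₂).map ⟨fun v => Q₁ * v, hinj⟩).Nonempty := by
    rw [map_nonempty]; exact ⟨0, mem_range.mpr hQ₂0⟩
  have hUcard : (((range Q₂).map ⟨fun v => Q₁ * v, hinj⟩).card : ℝ) = Q₂ := by
    rw [card_map, card_range]
  have hΘS : ∀ u ∈ range (Qr q (s - 2 * k) (t - s + 5 * k)), nrm (Θ u) ≤ S := by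
    intro u hu
    rw [mem_range] at hu
    rw [hΘ]
    simp only
    rw [nrm_tr]
    exact (hA _ (TransA_carry hc1 hu) (TransA_carry hc2 hu)).1
  have hmain : nrm (fun z => (∑ u ∈ (range Q₂).map ⟨fun v => Q₁ * v, hinj⟩, Θ u z) /
      (((range Q₂).map ⟨fun v => Q₁ * v, hinj⟩).card : ℝ)) ≤ (1 - η) * S := by
    have e : (fun z => (∑ u ∈ (range Q₂).map ⟨fun v => Q₁ * v, hinj⟩, Θ u z) /
        (((range Q₂).map ⟨fun v => Q₁ * v, hinj⟩).card : ℝ)) =
        tr (hw q g (s - 2 * k) k c.1, hw q g (s - 2 * k) k c.2)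
          (av (range (Qr q (s - k) (t - s + 3 * k))) (ee q g p r (s - k)) (A (0, 0))) := by
      funext z
      rw [hUcard, sum_map, ← hQ₂]
      unfold tr av
      rw [card_range]
      congr 1
      apply sum_congr rfl
      intro v hv
      rw [mem_range] at hv
      rw [hΘ]
      show A ((p * (Q₁ * v) + c.1) / Qr q (s - 2 * k) (t - s + 5 * k),
        (r * (Q₁ * v) + c.2) / Qr q (s - 2 * k) (t - s + 5 * k))
        (z * (hw q g (s - 2 * k) (t - s + 5 * k) (p * (Q₁ * v) + c.1),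
        hw q g (s - 2 * k) (t - s + 5 * k) (r * (Q₁ * v) + c.2))) = _
      rw [hQt, hcarry p c.1 v hp2 hc1 hv, hcarry r c.2 v hr2 hc2 hv, hhw p c.1 v hp2 hc1 hv,
        hhw r c.2 v hr2 hc2 hv, mul_assoc z]
      rfl
    rw [e, nrm_tr]
    refine (hη (s - k) (t - s + 3 * k) (A (0, 0)) ?_).trans ?_
    · refine Bal_mono ?_ (hA (0, 0) hp hr0).2
      rintro ⟨y1, y2⟩ hy
      rw [Subgroup.mem_prod, Subgroup.mem_bot] at hy
      obtain ⟨h1, h2⟩ := hy
      simp only at h1 h2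
      rw [h1]
      exact rigid hq hg hp hpr hr hrq hk hG (by omega) hst (hNs h2)
    · exact mul_le_mul_of_nonneg_left (hA (0, 0) hp hr0).1 (by linarith)
  have hsplit := TransB_split hUV hUne Θ hΘS hmain
  rw [hVcard, hUcard] at hsplit
  have e3 : (fun z => ∑ u ∈ range (Qr q (s - 2 * k) (t - s + 5 * k)),
      1 / (Qr q (s - 2 * k) (t - s + 5 * k) : ℝ) *
      tr (hw q g (s - 2 * k) (t - s + 5 * k) (p * u + c.1),
        hw q g (s - 2 * k) (t - s + 5 * k) (r * u + c.2))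
      (A ((p * u + c.1) / Qr q (s - 2 * k) (t - s + 5 * k),
        (r * u + c.2) / Qr q (s - 2 * k) (t - s + 5 * k))) z) =
      fun z => ∑ u ∈ range (Qr q (s - 2 * k) (t - s + 5 * k)),
        1 / (Qr q (s - 2 * k) (t - s + 5 * k) : ℝ) * Θ u z := by
    rw [hΘ]
  rw [e3]
  refine hsplit.trans ?_
  -- the weight
  have hw1 : 1 / (B : ℝ) ^ (2 * k) ≤ (Q₂ : ℝ) / (Qr q (s - 2 * k) (t - s + 5 * k) : ℝ) := by
    rw [hQt]
    push_cast
    have h1 : (0 : ℝ) < Q₁ := by exact_mod_cast hQ₁0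
    have h2 : (0 : ℝ) < Q₂ := by exact_mod_cast hQ₂0
    have h3 : (0 : ℝ) < Q₃ := by exact_mod_cast hQ₃0
    have e : (Q₂ : ℝ) / (Q₁ * (Q₂ * Q₃)) = 1 / (Q₁ * Q₃) := by field_simp
    rw [e]
    apply one_div_le_one_div_of_le (by positivity)
    have h4 : Q₁ * Q₃ ≤ B ^ (2 * k) := by
      rw [two_mul, pow_add]
      apply Nat.mul_le_mul
      · rw [hQ₁]; exact Qr_le_pow hq _ _
      · rw [hQ₃]; exact Qr_le_pow hq _ _
    exact_mod_cast h4
  obtain ⟨w, hw⟩ : ∃ w : ℝ, w = (Q₂ : ℝ) / (Qr q (s - 2 * k) (t - s + 5 * k) : ℝ) := ⟨_, rfl⟩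
  rw [← hw] at hw1 ⊢
  have e4 : w * ((1 - η) * S) + (1 - w) * S = (1 - η * w) * S := by ring
  have e5 : η / (B : ℝ) ^ (2 * k) = η * (1 / (B : ℝ) ^ (2 * k)) := by ring
  rw [e4, e5]
  apply mul_le_mul_of_nonneg_right _ hS0
  have := mul_le_mul_of_nonneg_left hw1 hη0
  linarith

end Pool.Agent.Lib.MP_3e612f_nt.PB
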