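import Pool.Agent.Lib.MP_3e612f_nt.PB.TransB

/-! Gains (blueprint, section Trans). -/

set_option autoImplicit false

namespace Pool.Agent.Lib.MP_3e612f_nt.PB

open Finset

variable {G : Type} [Group G] {q : ℕ → ℕ} {g : ℕ → ℕ → G} {B : ℕ} {p r k : ℕ}

variable [Fintype G]

theorem TransC_glue (hq : Rad B q) (hp : 1 ≤ p) (hr : 1 ≤ r) {a b x y : ℕ} (hax : a ≤ x)
    (hxy : x ≤ y) (hyb : y ≤ b) {S : ℝ} {A : ℕ × ℕ → G × G → ℝ}
    (hA : Good p r (Nlin q g a b) S (TT q g p r y (b - y) A)) :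
    Good p r (Nlin q g a b) S (TT q g p r x (b - x) A) := by
  have e : b - x = (y - x) + (b - y) := by omega
  have e2 : x + (y - x) = y := by omega
  rw [e, TT_add hq, e2]
  apply TT_good hq hp hr _ hA
  rw [e2]
  intro γ hγ z
  exact Nlin_conj (Gam_mono hax hyb hγ) z

/-- gain in an interval with `κ` spaced segments -/
theorem TT_gains (hq : Rad B q) (hg : Neu g) (hp : 1 ≤ p) (hpr : p < r) (hr : r.Prime)
    (hrq : ∀ j, ¬ r ∣ q j) (hk : p * r < 2 ^ k) (hG : Fintype.card G < r)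
    {η : ℝ} (hη0 : 0 ≤ η) (hη1 : η ≤ 1)
    (hη : ∀ α m : ℕ, ∀ Θ : G × G → ℝ, Bal (Lam q g p r α m) Θ →
      nrm (av (range (Qr q α m)) (ee q g p r α) Θ) ≤ (1 - η) * nrm Θ)
    {a b κ : ℕ} (hab : a ≤ b) (hS : Spaced (Nlin q g) k a b κ) {S : ℝ}
    {A : ℕ × ℕ → G × G → ℝ} (hA : Good p r (Nlin q g a b) S A) :
    Good p r (Nlin q g a b) ((1 - η / (B : ℝ) ^ (2 * k)) ^ κ * S)
      (TT q g p r a (b - a) A) := by
  obtain ⟨s, t, h1, h2⟩ := hS
  have hr1 : 1 ≤ r := hr.pos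
  obtain ⟨pos, hpos⟩ : ∃ pos : ℕ → ℕ, pos = fun n => if n < κ then s n - 2 * k else b := ⟨_, rfl⟩
  have hpos1 : ∀ n, n < κ → pos n = s n - 2 * k := by
    intro n hn; rw [hpos]; simp [hn]
  have hpos2 : ∀ n, ¬ n < κ → pos n = b := by
    intro n hn; rw [hpos]; simp [hn]
  have key : ∀ j, j ≤ κ → Good p r (Nlin q g a b) ((1 - η / (B : ℝ) ^ (2 * k)) ^ j * S)
      (TT q g p r (pos (κ - j)) (b - pos (κ - j)) A) := by
    intro j
    induction j with
    | zero =>
      intro _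
      rw [hpos2 (κ - 0) (by omega), Nat.sub_self, TT_zero, pow_zero, one_mul]
      exact hA
    | succ j ih =>
      intro hj
      obtain ⟨n, hn⟩ : ∃ n, n = κ - (j + 1) := ⟨_, rfl⟩
      have hnκ : n < κ := by omega
      have hn1 : κ - j = n + 1 := by omega
      have ih' := ih (by omega)
      rw [hn1] at ih'
      rw [← hn, hpos1 n hnκ]
      obtain ⟨a1, a2, a3, a4⟩ := h1 n hnκ
      -- the next position
      have hP : t n + 3 * k ≤ pos (n + 1) ∧ pos (n + 1) ≤ b := by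
        by_cases hc : n + 1 < κ
        · rw [hpos1 _ hc]
          have b1 := h2 n hc
          obtain ⟨c1, c2, c3, _⟩ := h1 (n + 1) hc
          omega
        · rw [hpos2 _ hc]
          omega
      have hmid : Good p r (Nlin q g a b) ((1 - η / (B : ℝ) ^ (2 * k)) ^ j * S)
          (TT q g p r (t n + 3 * k) (b - (t n + 3 * k)) A) :=
        TransC_glue hq hp hr1 (by omega) hP.1 hP.2 ih'
      have e : b - (s n - 2 * k) = (t n - s n + 5 * k) + (b - (t n + 3 * k)) := by omega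
      have e2 : s n - 2 * k + (t n - s n + 5 * k) = t n + 3 * k := by omega
      rw [e, TT_add hq, e2, pow_succ, mul_comm (_ ^ j) (1 - _), mul_assoc]
      apply TT_gain hq hg hp hpr hr hrq hk hG hη0 hη1 hη (by omega) a2.le _ _ hmid
      · intro γ hγ y
        exact Nlin_conj (Gam_mono (by omega) a3 hγ) y
      · rw [a4]
  have hfin := key κ le_rfl
  rw [Nat.sub_self] at hfin
  apply TransC_glue hq hp hr1 le_rfl _ _ hfin
  · by_cases hc : 0 < κ
    · rw [hpos1 _ hc]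
      obtain ⟨c1, _⟩ := h1 0 hc
      omega
    · rw [hpos2 _ hc]
      exact hab
  · by_cases hc : 0 < κ
    · rw [hpos1 _ hc]
      obtain ⟨c1, c2, c3, _⟩ := h1 0 hc
      omega
    · rw [hpos2 _ hc]

end Pool.Agent.Lib.MP_3e612f_nt.PB
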