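import Pool.Agent.Lib.MP_3e612f_nt.PB.WienD

/-! Products and tests (blueprint, section Wien). -/

set_option autoImplicit false

namespace Pool.Agent.Lib.MP_3e612f_nt.PB

open Finset

theorem Wn_mul {w w' : ℕ → ℂ} {C C' : ℝ} (h : Wn w C) (h' : Wn w' C') :
    Wn (fun n => w n * w' n) (C * C') := by
  obtain ⟨m, a, θ, hC, hw⟩ := h
  obtain ⟨m', a', θ', hC', hw'⟩ := h'
  refine ⟨m * m', fun k => a (finProdFinEquiv.symm k).1 * a' (finProdFinEquiv.symm k).2,
    fun k => θ (finProdFinEquiv.symm k).1 + θ' (finProdFinEquiv.symm k).2, ?_, ?_⟩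
  · have h1 : ∑ k : Fin (m * m'), ‖a (finProdFinEquiv.symm k).1 * a' (finProdFinEquiv.symm k).2‖ =
        ∑ p : Fin m × Fin m', ‖a p.1 * a' p.2‖ :=
      Equiv.sum_comp finProdFinEquiv.symm (fun p : Fin m × Fin m' => ‖a p.1 * a' p.2‖)
    rw [h1, Fintype.sum_prod_type]
    have h2 : ∑ x : Fin m, ∑ y : Fin m', ‖a x * a' y‖ = (∑ i, ‖a i‖) * ∑ j, ‖a' j‖ := by
      rw [Finset.sum_mul_sum]
      simp_rw [norm_mul]
    rw [h2]
    have h3 : 0 ≤ ∑ i, ‖a i‖ := Finset.sum_nonneg fun _ _ => norm_nonneg _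
    have h4 : 0 ≤ ∑ j, ‖a' j‖ := Finset.sum_nonneg fun _ _ => norm_nonneg _
    exact mul_le_mul hC hC' h4 (h3.trans hC)
  · intro n
    have h1 : ∑ k : Fin (m * m'), a (finProdFinEquiv.symm k).1 * a' (finProdFinEquiv.symm k).2 *
        Complex.exp (2 * Real.pi * Complex.I *
          (n * ((θ (finProdFinEquiv.symm k).1 + θ' (finProdFinEquiv.symm k).2 : ℝ) : ℂ))) =
        ∑ p : Fin m × Fin m', a p.1 * a' p.2 *
          Complex.exp (2 * Real.pi * Complex.I * (n * ((θ p.1 + θ' p.2 : ℝ) : ℂ))) :=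
      Equiv.sum_comp finProdFinEquiv.symm (fun p : Fin m × Fin m' => a p.1 * a' p.2 *
          Complex.exp (2 * Real.pi * Complex.I * (n * ((θ p.1 + θ' p.2 : ℝ) : ℂ))))
    show w n * w' n = _
    rw [h1, Fintype.sum_prod_type, hw n, hw' n, Finset.sum_mul_sum]
    refine Finset.sum_congr rfl fun i _ => Finset.sum_congr rfl fun j _ => ?_
    have h2 : (2 * Real.pi * Complex.I * (n * ((θ i + θ' j : ℝ) : ℂ))) =
        2 * Real.pi * Complex.I * (n * θ i) + 2 * Real.pi * Complex.I * (n * θ' j) := by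
      push_cast
      ring
    rw [h2, Complex.exp_add]
    ring

theorem Wn_one : Wn (fun _ => 1) 1 := by
  refine ⟨1, fun _ => 1, fun _ => 0, ?_, ?_⟩
  · simp
  · intro n
    simp

theorem Wn_prod {R : ℕ} (w : Fin R → ℕ → ℂ) {C : ℝ} (h : ∀ i, Wn (w i) C) :
    Wn (fun n => ∏ i, w i n) (C ^ R) := by
  induction R with
  | zero =>
    simp only [Finset.univ_eq_empty, Finset.prod_empty, pow_zero]
    exact Wn_one
  | succ R ih =>
    have h1 := ih (fun i => w i.succ) (fun i => h i.succ)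
    have h2 := Wn_mul (h 0) h1
    simp only [Fin.prod_univ_succ]
    rw [pow_succ']
    exact h2

/-- test against a bounded sequence with uniformly small exponential sums -/
theorem Wn_test {w : ℕ → ℂ} {C : ℝ} (h : Wn w C) (u : ℕ → ℂ) (N : ℕ) {T : ℝ}
    (hT : ∀ θ : ℝ, ‖∑ n ∈ Icc 1 N, u n * Complex.exp (2 * Real.pi * Complex.I * (n * θ))‖ ≤ T) :
    ‖∑ n ∈ Icc 1 N, u n * w n‖ ≤ C * T := by
  obtain ⟨m, a, θ, hC, hw⟩ := h
  have hT0 : 0 ≤ T := (norm_nonneg _).trans (hT 0)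
  have h1 : ∑ n ∈ Icc 1 N, u n * w n =
      ∑ i, a i * ∑ n ∈ Icc 1 N, u n * Complex.exp (2 * Real.pi * Complex.I * (n * θ i)) := by
    simp_rw [hw, Finset.mul_sum]
    rw [Finset.sum_comm]
    refine Finset.sum_congr rfl fun i _ => Finset.sum_congr rfl fun n _ => ?_
    ring
  rw [h1]
  calc ‖∑ i, a i * ∑ n ∈ Icc 1 N, u n * Complex.exp (2 * Real.pi * Complex.I * (n * θ i))‖
      ≤ ∑ i, ‖a i * ∑ n ∈ Icc 1 N, u n * Complex.exp (2 * Real.pi * Complex.I * (n * θ i))‖ :=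
        norm_sum_le _ _
    _ ≤ ∑ i, ‖a i‖ * T := by
        refine Finset.sum_le_sum fun i _ => ?_
        rw [norm_mul]
        exact mul_le_mul_of_nonneg_left (hT (θ i)) (norm_nonneg _)
    _ = (∑ i, ‖a i‖) * T := by rw [Finset.sum_mul]
    _ ≤ C * T := mul_le_mul_of_nonneg_right hC hT0

end Pool.Agent.Lib.MP_3e612f_nt.PB
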