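import Mathlib

/-! Functions with bounded sum of Fourier coefficients, definition. -/

set_option autoImplicit false

namespace Pool.Agent.Lib.MP_3e612f_nt.PB

open Finset

/-- `w n = ∑ a_i e(n θ_i)`, a finite sum with `∑ ‖a_i‖ ≤ C` -/
def Wn (w : ℕ → ℂ) (C : ℝ) : Prop :=
  ∃ (m : ℕ) (a : Fin m → ℂ) (θ : Fin m → ℝ), (∑ i, ‖a i‖ ≤ C) ∧
    ∀ n : ℕ, w n = ∑ i, a i * Complex.exp (2 * Real.pi * Complex.I * (n * θ i))

end Pool.Agent.Lib.MP_3e612f_nt.PB
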